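import Pool.Agent.Helper12.Apo.Spine

/-!
The root triangle, and the representation of finite parts of the Apollonian network.
-/

set_option autoImplicit false

namespace Pool.Agent.Helper12.Apo

open Set

/-- the positions of the root triangle -/
noncomputable def bp : Vx → ℝ × ℝ
  | Sum.inl i => if i = 0 then (0, 0) else if i = 1 then (1, 0) else (0, 1)
  | Sum.inr _ => (0, 0)

lemma bp0 : bp (Sum.inl 0) = (0, 0) := by
  simp [bp]

lemma bp1 : bp (Sum.inl 1) = (1, 0) := by
  simp [bp]

lemma bp2 : bp (Sum.inl 2) = (0, 1) := by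
  simp [bp]

/-- the live cones of the root triangle -/
def bc : Vx → Set (ℝ × ℝ)
  | Sum.inl i => if i = 0 then {d | d.1 + d.2 < 0} else if i = 1 then {d | 0 < d.1}
      else {d | 0 < d.2}
  | Sum.inr _ => ∅

lemma bc0 : bc (Sum.inl 0) = {d | d.1 + d.2 < 0} := by
  simp [bc]

lemma bc1 : bc (Sum.inl 1) = {d | 0 < d.1} := by
  simp [bc]

lemma bc2 : bc (Sum.inl 2) = {d | 0 < d.2} := by
  simp [bc]

/-- the root triangle -/
def bV : Finset Vx := {Sum.inl 0, Sum.inl 1, Sum.inl 2}

lemma mem_bV {x : Vx} : x ∈ bV ↔ x = Sum.inl 0 ∨ x = Sum.inl 1 ∨ x = Sum.inl 2 := by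
  simp [bV]

/-- the exterior of the root triangle -/
def Ex : Set (ℝ × ℝ) := {z | z.1 < 0 ∨ z.2 < 0 ∨ 1 < z.1 + z.2}

lemma Ex_Gam {z : ℝ × ℝ} (hz : z ∈ Ex) : z ∉ Gam Net bV bp := by
  have key : ∀ x ∈ bV, 0 ≤ (bp x).1 ∧ 0 ≤ (bp x).2 ∧ (bp x).1 + (bp x).2 ≤ 1 := by
    intro x hx
    rcases mem_bV.mp hx with rfl | rfl | rfl
    · rw [bp0]; norm_num
    · rw [bp1]; norm_num
    · rw [bp2]; norm_num
  rintro ⟨x, hx, y, hy, -, a, b, ha, hb, hab, rfl⟩
  obtain ⟨h1, h2, h3⟩ := key x hx
  obtain ⟨h4, h5, h6⟩ := key y hy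
  have hz' : (a • bp x + b • bp y).1 < 0 ∨ (a • bp x + b • bp y).2 < 0 ∨
    1 < (a • bp x + b • bp y).1 + (a • bp x + b • bp y).2 := hz
  simp only [Prod.fst_add, Prod.snd_add, Prod.smul_fst, Prod.smul_snd, smul_eq_mul] at hz'
  have e1 := mul_nonneg ha h1
  have e2 := mul_nonneg ha h2
  have e3 := mul_nonneg hb h4
  have e4 := mul_nonneg hb h5
  have e5 : a * ((bp x).1 + (bp x).2) ≤ a * 1 := mul_le_mul_of_nonneg_left h3 ha
  have e6 : b * ((bp y).1 + (bp y).2) ≤ b * 1 := mul_le_mul_of_nonneg_left h6 hb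
  rcases hz' with h | h | h
  · linarith
  · linarith
  · nlinarith

lemma Ex_seg {x y : ℝ × ℝ} (h : ∀ s t : ℝ, 0 ≤ s → 0 ≤ t → s + t = 1 → s • x + t • y ∈ Ex) :
    JoinedIn (Gam Net bV bp)ᶜ x y := by
  apply JoinedIn.of_segment_subset
  rintro _ ⟨s, t, hs, ht, hst, rfl⟩
  exact Ex_Gam (h s t hs ht hst)

lemma cseg {f g s t : ℝ} (hs : 0 ≤ s) (ht : 0 ≤ t) (hst : s + t = 1) (hf : 0 < f) (hg : 0 < g) :
    0 < s * f + t * g := by
  rcases hs.eq_or_lt with h | h
  · subst h
    have : t = 1 := by linarith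
    subst this
    linarith
  · have h1 := mul_pos h hf
    have h2 := mul_nonneg ht hg.le
    linarith

lemma Ex_Out {z : ℝ × ℝ} (hz : z ∈ Ex) : z ∈ Out Net bV bp (2, 2) := by
  have hz' : z.1 < 0 ∨ z.2 < 0 ∨ 1 < z.1 + z.2 := hz
  change JoinedIn (Gam Net bV bp)ᶜ (2, 2) z
  rcases hz' with h | h | h
  · have j1 : JoinedIn (Gam Net bV bp)ᶜ ((2, 2) : ℝ × ℝ) (-1, 3) := by
      apply Ex_seg
      intro s t hs ht hst
      right; right
      simp only [Prod.fst_add, Prod.snd_add, Prod.smul_fst, Prod.smul_snd, smul_eq_mul]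
      linarith
    have j2 : JoinedIn (Gam Net bV bp)ᶜ ((-1, 3) : ℝ × ℝ) z := by
      apply Ex_seg
      intro s t hs ht hst
      left
      simp only [Prod.fst_add, Prod.smul_fst, smul_eq_mul]
      have := cseg hs ht hst (f := 1) (g := -z.1) one_pos (by linarith)
      linarith
    exact j1.trans j2
  · have j1 : JoinedIn (Gam Net bV bp)ᶜ ((2, 2) : ℝ × ℝ) (3, -1) := by
      apply Ex_seg
      intro s t hs ht hst
      right; right
      simp only [Prod.fst_add, Prod.snd_add, Prod.smul_fst, Prod.smul_snd, smul_eq_mul]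
      linarith
    have j2 : JoinedIn (Gam Net bV bp)ᶜ ((3, -1) : ℝ × ℝ) z := by
      apply Ex_seg
      intro s t hs ht hst
      right; left
      simp only [Prod.snd_add, Prod.smul_snd, smul_eq_mul]
      have := cseg hs ht hst (f := 1) (g := -z.2) one_pos (by linarith)
      linarith
    exact j1.trans j2
  · apply Ex_seg
    intro s t hs ht hst
    right; right
    simp only [Prod.fst_add, Prod.snd_add, Prod.smul_fst, Prod.smul_snd, smul_eq_mul]
    have := cseg hs ht hst (f := 3) (g := z.1 + z.2 - 1) (by norm_num) (by linarith)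
    linarith

lemma base_good : Good Net bV bp (2, 2) bc where
  inj := by
    intro x hx y hy hxy
    rcases mem_bV.mp hx with rfl | rfl | rfl <;> rcases mem_bV.mp hy with rfl | rfl | rfl <;>
      first
        | exact absurd rfl hxy
        | (simp only [bp0, bp1, bp2, ne_eq, Prod.mk.injEq]; norm_num)
  gp := by
    intro x hx y hy z hz hxy hyz hxz
    rcases mem_bV.mp hx with rfl | rfl | rfl <;> rcases mem_bV.mp hy with rfl | rfl | rfl <;>
      rcases mem_bV.mp hz with rfl | rfl | rfl <;>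
      first
        | exact absurd rfl hxy
        | exact absurd rfl hyz
        | exact absurd rfl hxz
        | (simp only [bp0, bp1, bp2, cr, ne_eq, Prod.fst_sub, Prod.snd_sub]; norm_num)
  cone := by
    intro x hx
    rcases mem_bV.mp hx with rfl | rfl | rfl
    · rw [bc0]
      refine ⟨isOpen_lt (by fun_prop) continuous_const, ?_, ?_, ?_⟩
      · intro a ha b hb
        simp only [mem_ofPred_eq, Prod.fst_add, Prod.snd_add] at *
        linarith
      · intro a ha c hc
        simp only [mem_ofPred_eq, Prod.smul_fst, Prod.smul_snd, smul_eq_mul] at *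
        nlinarith
      · simp
    · rw [bc1]
      refine ⟨isOpen_lt continuous_const (by fun_prop), ?_, ?_, ?_⟩
      · intro a ha b hb
        simp only [mem_ofPred_eq, Prod.fst_add] at *
        linarith
      · intro a ha c hc
        simp only [mem_ofPred_eq, Prod.smul_fst, smul_eq_mul] at *
        positivity
      · simp
    · rw [bc2]
      refine ⟨isOpen_lt continuous_const (by fun_prop), ?_, ?_, ?_⟩
      · intro a ha b hb
        simp only [mem_ofPred_eq, Prod.snd_add] at *
        linarith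
      · intro a ha c hc
        simp only [mem_ofPred_eq, Prod.smul_snd, smul_eq_mul] at *
        positivity
      · simp
  sec := by
    intro x hx
    refine ⟨1, one_pos, fun d hd _ => Ex_Out ?_⟩
    rcases mem_bV.mp hx with rfl | rfl | rfl
    · rw [bc0] at hd
      have hd' : d.1 + d.2 < 0 := hd
      rw [bp0]
      change 0 + d.1 < 0 ∨ 0 + d.2 < 0 ∨ 1 < 0 + d.1 + (0 + d.2)
      by_cases h : d.1 < 0
      · left; linarith
      · right; left; linarith
    · rw [bc1] at hd
      have hd' : 0 < d.1 := hd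
      rw [bp1]
      change 1 + d.1 < 0 ∨ 0 + d.2 < 0 ∨ 1 < 1 + d.1 + (0 + d.2)
      by_cases h : d.2 < 0
      · right; left; linarith
      · right; right; linarith
    · rw [bc2] at hd
      have hd' : 0 < d.2 := hd
      rw [bp2]
      change 0 + d.1 < 0 ∨ 1 + d.2 < 0 ∨ 1 < 0 + d.1 + (1 + d.2)
      by_cases h : d.1 < 0
      · left; linarith
      · right; right; linarith
  non := by
    intro x hx y hy hxy hn
    exfalso
    apply hn
    have : ∃ i, x = Sum.inl i := by
      rcases mem_bV.mp hx with h | h | h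
      · exact ⟨_, h⟩
      · exact ⟨_, h⟩
      · exact ⟨_, h⟩
    obtain ⟨i, hi⟩ := this
    have : ∃ i, y = Sum.inl i := by
      rcases mem_bV.mp hy with h | h | h
      · exact ⟨_, h⟩
      · exact ⟨_, h⟩
      · exact ⟨_, h⟩
    obtain ⟨j, hj⟩ := this
    refine Or.inr (Or.inr ⟨i, j, ?_, hi, hj⟩)
    intro h
    rw [hi, hj, h] at hxy
    exact hxy rfl

lemma base_pend : Pend Net bV bp bc (cor []).1 (cor []).2.1 (cor []).2.2 := by
  change Pend Net bV bp bc (Sum.inl 0) (Sum.inl 1) (Sum.inl 2)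
  have hc := cor_adj []
  refine ⟨mem_bV.mpr (Or.inl rfl), mem_bV.mpr (Or.inr (Or.inl rfl)),
    mem_bV.mpr (Or.inr (Or.inr rfl)), hc.1, hc.2.1, ?_, ?_, ?_, ?_, ?_, ?_⟩
  · rw [bp0, bp1, bp2]; simp only [cr, Prod.fst_sub, Prod.snd_sub]; norm_num
  · rw [bp0, bp1, bc0]; simp
  · rw [bp0, bp2, bc0]; simp
  · rw [bp0, bp1, bc1]; simp
  · rw [bp0, bp2, bc2]; simp
  · intro t ht ha h1 h2
    rcases mem_bV.mp ht with rfl | rfl | rfl
    · exact absurd ha (Net.loopless.irrefl _)
    · exact absurd rfl h1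
    · exact absurd rfl h2

/-- finite parts of the Apollonian network have representations with one obstacle -/
theorem net_rep (S : Finset Vx) : ∃ (q : Vx → ℝ × ℝ) (O : Set (ℝ × ℝ)), IsPreconnected O ∧
    (∀ x ∈ S, ∀ y ∈ S, x ≠ y → q x ≠ q y) ∧ (∀ x ∈ S, q x ∉ O) ∧
    ∀ x ∈ S, ∀ y ∈ S, x ≠ y → (Net.Adj x y ↔ Disjoint (segment ℝ (q x) (q y)) O) := by
  have hD : ∃ D : ℕ, ∀ u : List (Fin 3), (Sum.inr u : Vx) ∈ S → u.length < D := by
    induction S using Finset.induction_on with
    | empty => exact ⟨0, fun u hu => absurd hu (Finset.notMem_empty _)⟩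
    | insert a S _ ih =>
      obtain ⟨D, hD⟩ := ih
      rcases a with i | w
      · refine ⟨D, fun u hu => hD u ?_⟩
        rcases Finset.mem_insert.mp hu with h | h
        · exact absurd h (by simp)
        · exact h
      · refine ⟨max D (w.length + 1), fun u hu => ?_⟩
        rcases Finset.mem_insert.mp hu with h | h
        · have h' : u = w := Sum.inr_injective h
          subst h'
          exact lt_of_lt_of_le (Nat.lt_succ_self _) (le_max_right _ _)
        · exact lt_of_lt_of_le (hD u h) (le_max_left _ _)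
  obtain ⟨D, hD⟩ := hD
  obtain ⟨V', p', C', F⟩ := fill (b := (2, 2)) D [] bV bp bc base_good base_pend (by
    intro u _ hu
    rcases mem_bV.mp hu with h | h | h <;> exact absurd h (by simp))
  have hS : ∀ x ∈ S, x ∈ V' := by
    intro x hx
    rcases x with i | u
    · apply F.ext.sub
      rcases fin3_cases i with rfl | rfl | rfl
      · exact mem_bV.mpr (Or.inl rfl)
      · exact mem_bV.mpr (Or.inr (Or.inl rfl))
      · exact mem_bV.mpr (Or.inr (Or.inr rfl))
    · have := F.full u (hD u hx)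
      rwa [List.append_nil] at this
  have hG := F.good
  refine ⟨p', Out Net V' p' (2, 2), Out_preconnected _ _ _ _,
    fun x hx y hy hxy => hG.inj x (hS x hx) y (hS y hy) hxy, ?_, ?_⟩
  · intro x hx hO
    exact Out_sub _ _ _ _ _ hO ⟨x, hS x hx, x, hS x hx, Or.inl rfl, left_mem_segment ℝ _ _⟩
  · intro x hx y hy hxy
    constructor
    · intro ha
      rw [Set.disjoint_left]
      intro z hz hO
      exact Out_sub _ _ _ _ _ hO ⟨x, hS x hx, y, hS y hy, Or.inr ha, hz⟩
    · intro hdis
      by_contra hn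
      obtain ⟨z, hz, hO⟩ := hG.non x (hS x hx) y (hS y hy) hxy hn
      exact Set.disjoint_left.mp hdis hz hO

end Pool.Agent.Helper12.Apo
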