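import Pool.Agent.Helper12.Apo.State

/-!
Choice of the position of the new vertex: all sufficiently small positions work.
-/

set_option autoImplicit false

namespace Pool.Agent.Helper12.Apo

open Set Filter Topology

variable {W : Type*} {G : SimpleGraph W} {V : Finset W} {p : W → ℝ × ℝ} {b : ℝ × ℝ}
  {C : W → Set (ℝ × ℝ)}

/-- the direction in which the new vertex is put -/
def dirn (a : ℝ × ℝ) (η : ℝ) : ℝ × ℝ := -a + η • (-a.2, a.1)

lemma cr_dirn (a : ℝ × ℝ) (η : ℝ) : cr (dirn a η) a = - (η * (a.1 ^ 2 + a.2 ^ 2)) := by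
  simp only [dirn, cr, Prod.fst_add, Prod.snd_add, Prod.fst_neg, Prod.snd_neg, Prod.smul_fst,
    Prod.smul_snd, smul_eq_mul]
  ring

lemma dirn_continuous (a : ℝ × ℝ) : Continuous (dirn a) := by
  unfold dirn
  fun_prop

lemma dirn_zero (a : ℝ × ℝ) : dirn a 0 = -a := by simp [dirn]

lemma exists_eta (hG : Good G V p b C) {h A B : W} (P : Pend G V p C h A B) :
    ∃ δ : ℝ × ℝ, δ ∈ C h ∧ cr δ (p A - p h) < 0 ∧
      ∀ t ∈ V, t ≠ h → t ≠ A → (cr (p A - p h) (p t - p h) < 0 → 0 < cr δ (p t - p h)) ∧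
        (0 < cr (p A - p h) (p t - p h) → cr δ (p t - p h) < 0) := by
  have hC := hG.cone h P.mx
  set a := p A - p h with ha
  have ha0 : a ≠ 0 := by
    intro h0
    have := P.pos
    rw [← ha, h0] at this
    simp [cr] at this
  have e1 : ∀ᶠ η in 𝓝[>] (0 : ℝ), dirn a η ∈ C h := by
    have : ∀ᶠ η in 𝓝 (0 : ℝ), dirn a η ∈ C h := by
      apply (dirn_continuous a).continuousAt.eventually
      apply hC.op.mem_nhds
      rw [dirn_zero, ha, neg_sub]
      exact P.cy
    exact this.filter_mono nhdsWithin_le_nhds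
  have e2 : ∀ᶠ η in 𝓝[>] (0 : ℝ), ∀ t ∈ V,
      (cr a (p t - p h) < 0 → 0 < cr (dirn a η) (p t - p h)) ∧
        (0 < cr a (p t - p h) → cr (dirn a η) (p t - p h) < 0) := by
    rw [Filter.eventually_all_finset]
    intro t _
    have hc : Continuous fun η => cr (dirn a η) (p t - p h) :=
      cr_continuous (dirn_continuous a) continuous_const
    have hz : cr (dirn a 0) (p t - p h) = - cr a (p t - p h) := by
      rw [dirn_zero, cr_neg_left]
    rcases lt_trichotomy (cr a (p t - p h)) 0 with hlt | heq | hgt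
    · have : ∀ᶠ η in 𝓝 (0 : ℝ), 0 < cr (dirn a η) (p t - p h) := by
        apply hc.continuousAt.eventually_const_lt
        change 0 < cr (dirn a 0) (p t - p h)
        rw [hz]; linarith
      filter_upwards [this.filter_mono nhdsWithin_le_nhds] with η hη
      exact ⟨fun _ => hη, fun h' => absurd h' (not_lt.mpr hlt.le)⟩
    · filter_upwards with η
      exact ⟨fun h' => absurd h' (by rw [heq]; exact lt_irrefl _),
        fun h' => absurd h' (by rw [heq]; exact lt_irrefl _)⟩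
    · have : ∀ᶠ η in 𝓝 (0 : ℝ), cr (dirn a η) (p t - p h) < 0 := by
        apply hc.continuousAt.eventually_lt_const
        change cr (dirn a 0) (p t - p h) < 0
        rw [hz]; linarith
      filter_upwards [this.filter_mono nhdsWithin_le_nhds] with η hη
      exact ⟨fun h' => absurd h' (not_lt.mpr hgt.le), fun _ => hη⟩
  have e3 : ∀ᶠ η in 𝓝[>] (0 : ℝ), 0 < η := eventually_mem_nhdsWithin
  obtain ⟨η, h1, h2, h3⟩ := (e1.and (e2.and e3)).exists
  refine ⟨dirn a η, h1, ?_, fun t ht _ _ => h2 t ht⟩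
  rw [cr_dirn]
  have : 0 < a.1 ^ 2 + a.2 ^ 2 := by
    by_contra hn
    have h1 : a.1 = 0 := by nlinarith [sq_nonneg a.1, sq_nonneg a.2]
    have h2 : a.2 = 0 := by nlinarith [sq_nonneg a.1, sq_nonneg a.2]
    exact ha0 (Prod.ext h1 h2)
  have := mul_pos h3 this
  linarith

lemma tendsto_q (x δ : ℝ × ℝ) : Tendsto (fun ε : ℝ => x + ε • δ) (𝓝[>] 0) (𝓝 x) := by
  have : Continuous fun ε : ℝ => x + ε • δ := by fun_prop
  have h := this.tendsto 0
  simp only [zero_smul, add_zero] at h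
  exact h.mono_left nhdsWithin_le_nhds

lemma ev_close (x δ : ℝ × ℝ) {μ : ℝ} (hμ : 0 < μ) :
    ∀ᶠ ε in 𝓝[>] (0 : ℝ), dist (x + ε • δ) x < μ :=
  (tendsto_q x δ).eventually (Metric.ball_mem_nhds x hμ)

lemma ev_pos (x δ : ℝ × ℝ) {f : ℝ × ℝ → ℝ} (hf : Continuous f) (h0 : 0 < f x) :
    ∀ᶠ ε in 𝓝[>] (0 : ℝ), 0 < f (x + ε • δ) := by
  have : ∀ᶠ z in 𝓝 x, 0 < f z := hf.continuousAt.eventually_const_lt h0
  exact (tendsto_q x δ).eventually this

lemma seg_sub_Gam {h A : W} (hh : h ∈ V) (hA : A ∈ V) (ha : G.Adj h A) :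
    segment ℝ (p h) (p A) ⊆ Gam G V p := fun _ hz => ⟨h, hh, A, hA, Or.inr ha, hz⟩

lemma Nw_close_Gam {h A B : W} (P : Pend G V p C h A B) {q z : ℝ × ℝ}
    (hz : z ∈ Nw q (p h) (p A) (p B)) : ∃ y ∈ Gam G V p, dist z y ≤ dist q (p h) := by
  obtain ⟨y, hy, hd⟩ := Nw_close hz
  refine ⟨y, ?_, hd⟩
  rcases hy with hy | hy
  · exact seg_sub_Gam P.mx P.my P.axy hy
  · exact seg_sub_Gam P.mx P.mz P.axz hy

lemma ev_out {h A B : W} (P : Pend G V p C h A B) (δ : ℝ × ℝ) {z : ℝ × ℝ}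
    (hz : z ∈ Out G V p b) :
    ∀ᶠ ε in 𝓝[>] (0 : ℝ),
      JoinedIn (Gam G V p ∪ Nw (p h + ε • δ) (p h) (p A) (p B))ᶜ b z := by
  obtain ⟨μ, hμ, hN⟩ := joinedIn_pert (isClosed_Gam G V p) hz
  filter_upwards [ev_close (p h) δ hμ] with ε hε
  apply hN
  intro x hx
  obtain ⟨y, hy, hd⟩ := Nw_close_Gam P hx
  exact ⟨y, hy, lt_of_le_of_lt hd hε⟩

lemma ev_non {h A B t : W} (P : Pend G V p C h A B) (δ : ℝ × ℝ)
    (hw : ∃ z ∈ segment ℝ (p h) (p t), z ∈ Out G V p b) :
    ∀ᶠ ε in 𝓝[>] (0 : ℝ), ∃ z ∈ segment ℝ (p h + ε • δ) (p t),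
      JoinedIn (Gam G V p ∪ Nw (p h + ε • δ) (p h) (p A) (p B))ᶜ b z := by
  obtain ⟨z, hzs, hz⟩ := hw
  rw [segment_eq_image'] at hzs
  obtain ⟨θ, ⟨h0, h1⟩, rfl⟩ := hzs
  set z := p h + θ • (p t - p h) with hzd
  have hopen : IsOpen (Gam G V p)ᶜ := (isClosed_Gam G V p).isOpen_compl
  obtain ⟨r, hr, hball⟩ := Metric.isOpen_iff.mp hopen z (Out_sub G V p b z hz)
  filter_upwards [ev_out P δ hz, ev_close (p h) δ (show 0 < r / 2 by positivity)] with ε h2 h3
  set q := p h + ε • δ with hq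
  refine ⟨q + θ • (p t - q), ?_, ?_⟩
  · rw [segment_eq_image']
    exact ⟨θ, ⟨h0, h1⟩, rfl⟩
  · refine h2.trans ?_
    have hdz : dist (q + θ • (p t - q)) z ≤ dist q (p h) := by
      rw [dist_eq_norm, dist_eq_norm]
      have : q + θ • (p t - q) - z = (1 - θ) • (q - p h) := by
        rw [hzd]
        ext <;> simp only [Prod.fst_add, Prod.snd_add, Prod.fst_sub, Prod.snd_sub, Prod.smul_fst,
          Prod.smul_snd, smul_eq_mul] <;> ring
      rw [this, norm_smul, Real.norm_eq_abs, abs_of_nonneg (by linarith)]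
      nlinarith [norm_nonneg (q - p h)]
    apply JoinedIn.of_segment_subset
    have hconv : segment ℝ z (q + θ • (p t - q)) ⊆ Metric.ball z (r / 2) := by
      apply (convex_ball z (r / 2)).segment_subset
      · exact Metric.mem_ball_self (by positivity)
      · exact Metric.mem_ball.mpr (lt_of_le_of_lt hdz h3)
    intro y hy
    have hy' := Metric.mem_ball.mp (hconv hy)
    rintro (hm | hm)
    · exact hball (Metric.mem_ball.mpr (by linarith)) hm
    · obtain ⟨w, hw, hd⟩ := Nw_close_Gam P hm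
      have : dist w z < r := by
        calc dist w z ≤ dist w y + dist y z := dist_triangle _ _ _
          _ < r / 2 + r / 2 := by
              rw [dist_comm w y]
              exact add_lt_add (lt_of_le_of_lt hd h3) hy'
          _ = r := by ring
      exact hball (Metric.mem_ball.mpr this) hw

/-- points on a segment are collinear with its ends -/
lemma cr_of_mem_segment {x y z : ℝ × ℝ} (hz : z ∈ segment ℝ x y) : cr (x - z) (y - z) = 0 := by
  rw [segment_eq_image'] at hz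
  obtain ⟨θ, _, rfl⟩ := hz
  simp only [cr, Prod.fst_sub, Prod.snd_sub, Prod.fst_add, Prod.snd_add, Prod.smul_fst,
    Prod.smul_snd, smul_eq_mul]
  ring

lemma notMem_segment (hG : Good G V p b C) {x y z : W} (hx : x ∈ V) (hy : y ∈ V) (hz : z ∈ V)
    (hxy : x ≠ y) (hyz : y ≠ z) (hxz : x ≠ z) : p x ∉ segment ℝ (p y) (p z) := by
  intro hm
  exact hG.gp x hx y hy z hz hxy hyz hxz (cr_of_mem_segment hm)

/-- if `x` is off the closed set `S`, and new points are close to `S`, a small disc around `x`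
is free of new points -/
lemma sector_of_ball {h A B x : W} (hG : Good G V p b C) (hx : x ∈ V)
    (P : Pend G V p C h A B) (δ : ℝ × ℝ) {r : ℝ} (hr : 0 < r)
    (hfree : ∀ᶠ ε in 𝓝[>] (0 : ℝ), ∀ d ∈ C x, ‖d‖ < r →
      p x + d ∉ Nw (p h + ε • δ) (p h) (p A) (p B)) :
    ∀ᶠ ε in 𝓝[>] (0 : ℝ), ∃ ρ > 0, ∀ d ∈ C x, ‖d‖ < ρ →
      JoinedIn (Gam G V p ∪ Nw (p h + ε • δ) (p h) (p A) (p B))ᶜ b (p x + d) := by
  obtain ⟨ρ, hρ, hsec⟩ := hG.sec x hx
  have hC := hG.cone x hx
  by_cases hne : (C x).Nonempty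
  · obtain ⟨d0, hd0⟩ := hne
    obtain ⟨κ, hκ, _, hκn⟩ := exists_small d0 (show 0 < min ρ r by positivity)
    have hd1 : κ • d0 ∈ C x := hC.sc _ hd0 _ hκ
    have ho : p x + κ • d0 ∈ Out G V p b := hsec _ hd1 (lt_of_lt_of_le hκn (min_le_left _ _))
    filter_upwards [hfree, ev_out P δ ho] with ε h1 h2
    refine ⟨min ρ r, by positivity, fun d hd hdn => h2.trans ?_⟩
    apply joinedIn_of_conv
    intro s t hs ht hst
    rw [conv_shift _ _ _ hst]
    have hm := hC.segment hd1 hd hs ht hst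
    have hn := norm_conv_lt hκn hdn hs ht hst
    rintro (hg | hg)
    · exact Out_sub G V p b _ (hsec _ hm (lt_of_lt_of_le hn (min_le_left _ _))) hg
    · exact h1 _ hm (lt_of_lt_of_le hn (min_le_right _ _)) hg
  · filter_upwards with ε
    exact ⟨1, one_pos, fun d hd => absurd ⟨d, hd⟩ hne⟩

lemma ev_sec_other {h A B x : W} (hG : Good G V p b C) (hx : x ∈ V)
    (P : Pend G V p C h A B) (δ : ℝ × ℝ) (hxh : x ≠ h) (hxA : x ≠ A) (hxB : x ≠ B) :
    ∀ᶠ ε in 𝓝[>] (0 : ℝ), ∃ ρ > 0, ∀ d ∈ C x, ‖d‖ < ρ →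
      JoinedIn (Gam G V p ∪ Nw (p h + ε • δ) (p h) (p A) (p B))ᶜ b (p x + d) := by
  have hcl : IsClosed (segment ℝ (p h) (p A) ∪ segment ℝ (p h) (p B)) :=
    ((segment_cpt _ _).union (segment_cpt _ _)).isClosed
  have hnx : p x ∈ (segment ℝ (p h) (p A) ∪ segment ℝ (p h) (p B))ᶜ := by
    rintro (hm | hm)
    · exact notMem_segment hG hx P.mx P.my hxh P.axy.ne hxA hm
    · exact notMem_segment hG hx P.mx P.mz hxh P.axz.ne hxB hm
  obtain ⟨r, hr, hball⟩ := Metric.isOpen_iff.mp hcl.isOpen_compl _ hnx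
  apply sector_of_ball hG hx P δ (show 0 < r / 2 by positivity)
  filter_upwards [ev_close (p h) δ (show 0 < r / 2 by positivity)] with ε hε d _ hd hm
  obtain ⟨y, hy, hyd⟩ := Nw_close hm
  refine hball (Metric.mem_ball.mpr ?_) hy
  calc dist y (p x) ≤ dist y (p x + d) + dist (p x + d) (p x) := dist_triangle _ _ _
    _ < r / 2 + r / 2 := by
        rw [dist_comm y]
        apply add_lt_add (lt_of_le_of_lt hyd hε)
        rw [dist_eq_norm, add_sub_cancel_left]; exact hd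
    _ = r := by ring

/-- sector at a far end `x` of a new edge; `y` is the other far end -/
lemma ev_sec_far {h A B x y : W} (hG : Good G V p b C) (P : Pend G V p C h A B) (δ : ℝ × ℝ)
    (hx : x ∈ V) (hy : y ∈ V) (hxh : x ≠ h) (hxy : x ≠ y) (hhy : h ≠ y)
    (hN : ∀ q, Nw q (p h) (p A) (p B) ⊆ segment ℝ q (p x) ∪ Nw q (p h) (p y) (p y))
    (hlive : p x - p h ∈ C x) :
    ∀ᶠ ε in 𝓝[>] (0 : ℝ), ∃ ρ > 0, ∀ d ∈ C x, ‖d‖ < ρ →
      JoinedIn (Gam G V p ∪ Nw (p h + ε • δ) (p h) (p A) (p B))ᶜ b (p x + d) := by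
  have hC := hG.cone x hx
  have hcl : IsClosed (segment ℝ (p h) (p y)) := (segment_cpt _ _).isClosed
  have hnx : p x ∈ (segment ℝ (p h) (p y))ᶜ := notMem_segment hG hx P.mx hy hxh hhy hxy
  obtain ⟨r, hr, hball⟩ := Metric.isOpen_iff.mp hcl.isOpen_compl _ hnx
  have hl : ∀ᶠ ε in 𝓝[>] (0 : ℝ), p x - (p h + ε • δ) ∈ C x := by
    have : ∀ᶠ z in 𝓝 (p h), p x - z ∈ C x := by
      have hc : Continuous fun z : ℝ × ℝ => p x - z := by fun_prop
      exact hc.continuousAt.eventually (hC.op.mem_nhds hlive)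
    exact (tendsto_q (p h) δ).eventually this
  apply sector_of_ball hG hx P δ (show 0 < r / 2 by positivity)
  filter_upwards [ev_close (p h) δ (show 0 < r / 2 by positivity), hl] with ε hε hl d hdC hd hm
  rcases hN _ hm with hm | hm
  · -- on the new edge ending at `x`
    rw [segment_symm, segment_eq_image'] at hm
    obtain ⟨θ, ⟨h0, _⟩, hθ⟩ := hm
    have hd' : d = θ • (p h + ε • δ - p x) := (add_left_cancel hθ).symm
    rcases h0.eq_or_lt with h0 | h0
    · subst h0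
      rw [zero_smul] at hd'
      rw [hd'] at hdC
      exact hC.nz hdC
    · have := hC.sc _ hl θ h0
      have e : θ • (p x - (p h + ε • δ)) = -d := by
        rw [hd', ← smul_neg, neg_sub]
      rw [e] at this
      exact hC.neg_notMem hdC this
  · obtain ⟨w, hw, hyd⟩ := Nw_close hm
    rw [union_self] at hw
    refine hball (Metric.mem_ball.mpr ?_) hw
    calc dist w (p x) ≤ dist w (p x + d) + dist (p x + d) (p x) := dist_triangle _ _ _
      _ < r / 2 + r / 2 := by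
          rw [dist_comm w]
          apply add_lt_add (lt_of_le_of_lt hyd hε)
          rw [dist_eq_norm, add_sub_cancel_left]; exact hd
      _ = r := by ring

end Pool.Agent.Helper12.Apo
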