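import Pool.Agent.Helper12.Apo.Words

/-!
Corners of the faces of the Apollonian network as sets.
-/

set_option autoImplicit false

namespace Pool.Agent.Helper12.Apo

/-- the set of corners of a face -/
def cs (u : List (Fin 3)) : Finset Vx := {(cor u).1, (cor u).2.1, (cor u).2.2}

lemma mem_cs {u : List (Fin 3)} {y : Vx} :
    y ∈ cs u ↔ (y = (cor u).1 ∨ y = (cor u).2.1 ∨ y = (cor u).2.2) := by
  simp [cs]

lemma par_iff {u : List (Fin 3)} {y : Vx} : Par (Sum.inr u) y ↔ y ∈ cs u := mem_cs.symm

lemma card_cs (u : List (Fin 3)) : (cs u).card = 3 := by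
  obtain ⟨h1, h2, h3⟩ := cor_adj u
  unfold cs
  rw [Finset.card_eq_three]
  exact ⟨_, _, _, h1.ne, h2.ne, h3.ne, rfl⟩

lemma cs_suffix {u u' : List (Fin 3)} (h : (Sum.inr u' : Vx) ∈ cs u) :
    u' <:+ u ∧ u'.length < u.length := Par.suffix (par_iff.mpr h)

lemma notMem_cs (u : List (Fin 3)) : (Sum.inr u : Vx) ∉ cs u := fun h =>
  absurd (cs_suffix h).2 (lt_irrefl _)

lemma cs_zero (u : List (Fin 3)) : cs (0 :: u) = insert (Sum.inr u) ((cs u).erase (cor u).1) := by
  obtain ⟨h1, h2, h3⟩ := cor_adj u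
  unfold cs
  rw [cor_zero]
  ext y
  simp only [Finset.mem_insert, Finset.mem_singleton, Finset.mem_erase]
  constructor
  · rintro (h | h | h)
    · exact Or.inl h
    · exact Or.inr ⟨by rw [h]; exact h1.ne', Or.inr (Or.inl h)⟩
    · exact Or.inr ⟨by rw [h]; exact h2.ne', Or.inr (Or.inr h)⟩
  · rintro (h | ⟨h, h' | h' | h'⟩)
    · exact Or.inl h
    · exact absurd h' h
    · exact Or.inr (Or.inl h')
    · exact Or.inr (Or.inr h')

lemma cs_one (u : List (Fin 3)) :
    cs (1 :: u) = insert (Sum.inr u) ((cs u).erase (cor u).2.2) := by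
  obtain ⟨h1, h2, h3⟩ := cor_adj u
  unfold cs
  rw [cor_one]
  ext y
  simp only [Finset.mem_insert, Finset.mem_singleton, Finset.mem_erase]
  constructor
  · rintro (h | h | h)
    · exact Or.inr ⟨by rw [h]; exact h3.ne, Or.inr (Or.inl h)⟩
    · exact Or.inl h
    · exact Or.inr ⟨by rw [h]; exact h2.ne, Or.inl h⟩
  · rintro (h | ⟨h, h' | h' | h'⟩)
    · exact Or.inr (Or.inl h)
    · exact Or.inr (Or.inr h')
    · exact Or.inl h'
    · exact absurd h' h

lemma cs_two (u : List (Fin 3)) :
    cs (2 :: u) = insert (Sum.inr u) ((cs u).erase (cor u).2.1) := by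
  obtain ⟨h1, h2, h3⟩ := cor_adj u
  unfold cs
  rw [cor_two]
  ext y
  simp only [Finset.mem_insert, Finset.mem_singleton, Finset.mem_erase]
  constructor
  · rintro (h | h | h)
    · exact Or.inr ⟨by rw [h]; exact h3.ne', Or.inr (Or.inr h)⟩
    · exact Or.inl h
    · exact Or.inr ⟨by rw [h]; exact h1.ne, Or.inl h⟩
  · rintro (h | ⟨h, h' | h' | h'⟩)
    · exact Or.inr (Or.inl h)
    · exact Or.inr (Or.inr h')
    · exact absurd h' h
    · exact Or.inl h'

lemma cs_sub {u : List (Fin 3)} {x : Vx} (hx : x ∈ cs u) :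
    ∃ i : Fin 3, cs (i :: u) = insert (Sum.inr u) ((cs u).erase x) := by
  rcases mem_cs.mp hx with h | h | h
  · exact ⟨0, by rw [h]; exact cs_zero u⟩
  · exact ⟨2, by rw [h]; exact cs_two u⟩
  · exact ⟨1, by rw [h]; exact cs_one u⟩

lemma cs_cons_sub (i : Fin 3) (u : List (Fin 3)) {y : Vx} (hy : y ∈ cs (i :: u)) :
    y = Sum.inr u ∨ y ∈ cs u := by
  rcases fin3_cases i with rfl | rfl | rfl
  · rw [cs_zero] at hy
    rcases Finset.mem_insert.mp hy with h | h
    · exact Or.inl h
    · exact Or.inr (Finset.mem_of_mem_erase h)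
  · rw [cs_one] at hy
    rcases Finset.mem_insert.mp hy with h | h
    · exact Or.inl h
    · exact Or.inr (Finset.mem_of_mem_erase h)
  · rw [cs_two] at hy
    rcases Finset.mem_insert.mp hy with h | h
    · exact Or.inl h
    · exact Or.inr (Finset.mem_of_mem_erase h)

/-- corners of faces inside the face `t` are corners of `t` or inside `t` -/
lemma cs_inside {t w : List (Fin 3)} (h : t <:+ w) {y : Vx} (hy : y ∈ cs w) :
    y ∈ cs t ∨ ∃ w', y = Sum.inr w' ∧ t <:+ w' := by
  induction w with
  | nil =>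
    rw [List.suffix_nil.mp h]
    exact Or.inl hy
  | cons i w ih =>
    rcases List.suffix_cons_iff.mp h with h' | h'
    · rw [h']; exact Or.inl hy
    · rcases cs_cons_sub i w hy with h1 | h1
      · exact Or.inr ⟨w, h1, h'⟩
      · exact ih h' h1

/-- vertices inside different subfaces are not adjacent -/
lemma not_adj_of_ne {u w w' : List (Fin 3)} {i j : Fin 3} (hij : i ≠ j) (h1 : (i :: u) <:+ w)
    (h2 : (j :: u) <:+ w') : w ≠ w' ∧ ¬ Net.Adj (Sum.inr w) (Sum.inr w') := by
  have key : ∀ {v : List (Fin 3)}, (i :: u) <:+ v → (j :: u) <:+ v → False := by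
    intro v h3 h4
    have h5 : (i :: u) <:+ (j :: u) := List.suffix_of_suffix_length_le h3 h4 (by
      rw [List.length_cons, List.length_cons])
    have h6 := h5.eq_of_length (by rw [List.length_cons, List.length_cons])
    exact hij (List.cons.inj h6).1
  refine ⟨?_, ?_⟩
  · rintro rfl
    exact key h1 h2
  · rintro (h | h | ⟨a, c, _, h, _⟩)
    · exact key h1 (h2.trans h.suffix.1)
    · exact key (h1.trans h.suffix.1) h2
    · exact absurd h (by simp)

/-- adjacency of inner vertices of a face `t` with corners of an outer face -/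
lemma adj_outer {t w : List (Fin 3)} (h : t <:+ w) {y : Vx} {u : List (Fin 3)}
    (hu : u <:+ t) (hy : y ∈ cs u) : Net.Adj (Sum.inr w) y ↔ (y ∈ cs w) := by
  constructor
  · rintro (h1 | h1 | ⟨a, c, _, h1, _⟩)
    · exact par_iff.mp h1
    · rcases y with i | u'
      · exact absurd h1 id
      · have e1 := h1.suffix
        have e2 := cs_suffix hy
        have e3 := h.length_le
        have e4 := hu.length_le
        have e5 := e1.2
        have e6 := e2.2
        omega
    · exact absurd h1 (by simp)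
  · intro h1
    exact Net.of_par (par_iff.mpr h1)

end Pool.Agent.Helper12.Apo
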