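import Mathlib

/-!
Planar cross product and open convex cones, for the obstacle representations of
Apollonian networks.
-/

set_option autoImplicit false

namespace Pool.Agent.Helper12.Apo

open Set

/-- planar cross product -/
def cr (a b : ℝ × ℝ) : ℝ := a.1 * b.2 - a.2 * b.1

lemma cr_add_left (a b c : ℝ × ℝ) : cr (a + b) c = cr a c + cr b c := by
  simp only [cr, Prod.fst_add, Prod.snd_add]; ring

lemma cr_add_right (a b c : ℝ × ℝ) : cr a (b + c) = cr a b + cr a c := by
  simp only [cr, Prod.fst_add, Prod.snd_add]; ring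

lemma cr_sub_left (a b c : ℝ × ℝ) : cr (a - b) c = cr a c - cr b c := by
  simp only [cr, Prod.fst_sub, Prod.snd_sub]; ring

lemma cr_sub_right (a b c : ℝ × ℝ) : cr a (b - c) = cr a b - cr a c := by
  simp only [cr, Prod.fst_sub, Prod.snd_sub]; ring

lemma cr_smul_left (t : ℝ) (a b : ℝ × ℝ) : cr (t • a) b = t * cr a b := by
  simp only [cr, Prod.smul_fst, Prod.smul_snd, smul_eq_mul]; ring

lemma cr_smul_right (t : ℝ) (a b : ℝ × ℝ) : cr a (t • b) = t * cr a b := by
  simp only [cr, Prod.smul_fst, Prod.smul_snd, smul_eq_mul]; ring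

lemma cr_neg_left (a b : ℝ × ℝ) : cr (-a) b = - cr a b := by
  simp only [cr, Prod.fst_neg, Prod.snd_neg]; ring

lemma cr_neg_right (a b : ℝ × ℝ) : cr a (-b) = - cr a b := by
  simp only [cr, Prod.fst_neg, Prod.snd_neg]; ring

lemma cr_self (a : ℝ × ℝ) : cr a a = 0 := by
  simp only [cr]; ring

lemma cr_comm (a b : ℝ × ℝ) : cr a b = - cr b a := by
  simp only [cr]; ring

lemma cr_continuous {X : Type*} [TopologicalSpace X] {f g : X → ℝ × ℝ} (hf : Continuous f)
    (hg : Continuous g) : Continuous fun x => cr (f x) (g x) := by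
  unfold cr
  exact ((continuous_fst.comp hf).mul (continuous_snd.comp hg)).sub
    ((continuous_snd.comp hf).mul (continuous_fst.comp hg))

/-- open convex cones (without apex) -/
structure Cone (K : Set (ℝ × ℝ)) : Prop where
  op : IsOpen K
  ad : ∀ a ∈ K, ∀ b ∈ K, a + b ∈ K
  sc : ∀ a ∈ K, ∀ c : ℝ, 0 < c → c • a ∈ K
  nz : (0 : ℝ × ℝ) ∉ K

lemma Cone.neg_notMem {K : Set (ℝ × ℝ)} (h : Cone K) {a : ℝ × ℝ} (ha : a ∈ K) : -a ∉ K := by
  intro hn
  have := h.ad a ha (-a) hn
  rw [add_neg_cancel] at this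
  exact h.nz this

lemma Cone.comb {K : Set (ℝ × ℝ)} (h : Cone K) {a b c : ℝ × ℝ} (ha : a ∈ K) (hb : b ∈ K)
    (hc : c ∈ K) {x y z : ℝ} (hx : 0 ≤ x) (hy : 0 ≤ y) (hz : 0 ≤ z) (hpos : 0 < x + y + z) :
    x • a + y • b + z • c ∈ K := by
  rcases hx.eq_or_lt with hx | hx
  · subst hx
    rcases hy.eq_or_lt with hy | hy
    · subst hy
      have hz' : 0 < z := by linarith
      simpa using h.sc c hc z hz'
    · rcases hz.eq_or_lt with hz | hz
      · subst hz
        simpa using h.sc b hb y hy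
      · simpa using h.ad _ (h.sc b hb y hy) _ (h.sc c hc z hz)
  · rcases hy.eq_or_lt with hy | hy
    · subst hy
      rcases hz.eq_or_lt with hz | hz
      · subst hz
        simpa using h.sc a ha x hx
      · simpa using h.ad _ (h.sc a ha x hx) _ (h.sc c hc z hz)
    · rcases hz.eq_or_lt with hz | hz
      · subst hz
        simpa using h.ad _ (h.sc a ha x hx) _ (h.sc b hb y hy)
      · exact h.ad _ (h.ad _ (h.sc a ha x hx) _ (h.sc b hb y hy)) _ (h.sc c hc z hz)

/-- transitivity of the angular order inside a cone -/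
lemma Cone.trans {K : Set (ℝ × ℝ)} (h : Cone K) {a b c : ℝ × ℝ} (ha : a ∈ K) (hb : b ∈ K)
    (hc : c ∈ K) (hab : 0 < cr a b) (hbc : 0 ≤ cr b c) : 0 < cr a c := by
  by_contra hn
  push Not at hn
  have hz : cr b c • a + (- cr a c) • b + cr a b • c = 0 := by
    ext <;> simp only [cr, Prod.fst_add, Prod.snd_add, Prod.smul_fst, Prod.smul_snd, smul_eq_mul,
      Prod.fst_zero, Prod.snd_zero] <;> ring
  have := h.comb ha hb hc hbc (neg_nonneg.mpr hn) hab.le (by linarith)
  rw [hz] at this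
  exact h.nz this

lemma Cone.trans' {K : Set (ℝ × ℝ)} (h : Cone K) {a b c : ℝ × ℝ} (ha : a ∈ K) (hb : b ∈ K)
    (hc : c ∈ K) (hab : 0 ≤ cr a b) (hbc : 0 < cr b c) : 0 < cr a c := by
  by_contra hn
  push Not at hn
  have hz : cr b c • a + (- cr a c) • b + cr a b • c = 0 := by
    ext <;> simp only [cr, Prod.fst_add, Prod.snd_add, Prod.smul_fst, Prod.smul_snd, smul_eq_mul,
      Prod.fst_zero, Prod.snd_zero] <;> ring
  have := h.comb ha hb hc hbc.le (neg_nonneg.mpr hn) hab (by linarith)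
  rw [hz] at this
  exact h.nz this

lemma Cone.inter {K L : Set (ℝ × ℝ)} (h : Cone K) (h' : Cone L) : Cone (K ∩ L) where
  op := h.op.inter h'.op
  ad a ha b hb := ⟨h.ad a ha.1 b hb.1, h'.ad a ha.2 b hb.2⟩
  sc a ha c hc := ⟨h.sc a ha.1 c hc, h'.sc a ha.2 c hc⟩
  nz := fun hz => h.nz hz.1

/-- open half plane to the left of the direction `e` -/
def Hp (e : ℝ × ℝ) : Set (ℝ × ℝ) := {d | 0 < cr e d}

lemma cone_Hp (e : ℝ × ℝ) : Cone (Hp e) where
  op := isOpen_lt continuous_const (cr_continuous continuous_const continuous_id)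
  ad a ha b hb := by
    simp only [Hp, Set.mem_ofPred_eq] at *
    rw [cr_add_right]; linarith
  sc a ha c hc := by
    simp only [Hp, Set.mem_ofPred_eq] at *
    rw [cr_smul_right]; positivity
  nz := by simp [Hp, cr]

lemma Cone.segment {K : Set (ℝ × ℝ)} (h : Cone K) {a b : ℝ × ℝ} (ha : a ∈ K) (hb : b ∈ K)
    {x y : ℝ} (hx : 0 ≤ x) (hy : 0 ≤ y) (hxy : x + y = 1) : x • a + y • b ∈ K := by
  simpa using h.comb ha hb hb hx hy (le_refl (0 : ℝ)) (by linarith)

end Pool.Agent.Helper12.Apo
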