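import Pool.Agent.Helper12.Apo.Corners
import Pool.Agent.Helper58.T3.Chordal

/-!
Chordal graphs without `K₅` in which no triangle has three common neighbours are induced
subgraphs of the infinite Apollonian network.
-/

set_option autoImplicit false

namespace Pool.Agent.Helper12.Apo

open Pool.Agent.Helper58.T3

variable {V : Type} [DecidableEq V] {G : SimpleGraph V}

/-- Dirac: a chordal graph is complete or has two nonadjacent simplicial vertices -/
theorem dirac2 (hG : Chordal G) : ∀ (n : ℕ) (W : Finset V), W.card = n →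
    (∀ x ∈ W, ∀ y ∈ W, x ≠ y → G.Adj x y) ∨
    ∃ x y, Simplicial G W x ∧ Simplicial G W y ∧ x ≠ y ∧ ¬ G.Adj x y := by
  intro n
  induction n using Nat.strong_induction_on with
  | _ n ih =>
    intro W hn
    by_cases hcl : ∀ x ∈ W, ∀ y ∈ W, x ≠ y → G.Adj x y
    · exact Or.inl hcl
    · right
      push Not at hcl
      obtain ⟨u, hu, t, ht, hut, hnadj⟩ := hcl
      have ih' : ∀ W' : Finset V, W'.card < W.card → W'.Nonempty →
          (∀ x ∈ W', ∀ y ∈ W', x ≠ y → G.Adj x y) ∨
          ∃ x y, Simplicial G W' x ∧ Simplicial G W' y ∧ x ≠ y ∧ ¬ G.Adj x y :=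
        fun W' h1 _ => ih W'.card (by omega) W' rfl
      obtain ⟨z, hz, hzu, hnzu⟩ := dirac_aux hG W ih' hu ht hut hnadj
      obtain ⟨z', hz', hzz', hnzz'⟩ := dirac_aux hG W ih' hz.1 hu hzu hnzu
      exact ⟨z', z, hz', hz, hzz', hnzz'⟩

/-- splitting along a clique -/
theorem split (hG : Chordal G) (R : Finset V) (hR : ∀ x ∈ R, ∀ y ∈ R, x ≠ y → G.Adj x y) :
    ∀ (n : ℕ) (S : Finset V), S.card = n → Disjoint S R → (∀ s ∈ S, ∃ r ∈ R, ¬ G.Adj s r) →
    ∃ f : V → V, (∀ s ∈ S, f s ∈ R ∧ ¬ G.Adj s (f s)) ∧
      ∀ s ∈ S, ∀ t ∈ S, G.Adj s t → f s = f t := by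
  intro n
  induction n with
  | zero =>
    intro S hS _ _
    rw [Finset.card_eq_zero] at hS
    subst hS
    exact ⟨id, fun s hs => absurd hs (Finset.notMem_empty _),
      fun s hs => absurd hs (Finset.notMem_empty _)⟩
  | succ n ih =>
    intro S hS hdis hn
    have hne : S.Nonempty := by
      rw [← Finset.card_pos]; omega
    have hSR : ∀ s ∈ S, s ∉ R := fun s hs hr => Finset.disjoint_left.mp hdis hs hr
    obtain ⟨z, hzS, hz⟩ : ∃ z ∈ S, Simplicial G (S ∪ R) z := by
      rcases dirac2 hG _ (S ∪ R) rfl with h | ⟨x, y, hx, hy, hxy, hnxy⟩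
      · obtain ⟨s, hs⟩ := hne
        obtain ⟨r, hr, hsr⟩ := hn s hs
        exact absurd (h s (Finset.mem_union_left _ hs) r (Finset.mem_union_right _ hr)
          (fun e => hSR s hs (e ▸ hr))) hsr
      · by_cases hxS : x ∈ S
        · exact ⟨x, hxS, hx⟩
        · by_cases hyS : y ∈ S
          · exact ⟨y, hyS, hy⟩
          · exfalso
            exact hnxy (hR x ((Finset.mem_union.mp hx.1).resolve_left hxS) y
              ((Finset.mem_union.mp hy.1).resolve_left hyS) hxy)
    obtain ⟨f, hf1, hf2⟩ := ih (S.erase z) (by rw [Finset.card_erase_of_mem hzS]; omega)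
      (hdis.mono_left (Finset.erase_subset _ _))
      (fun s hs => hn s (Finset.mem_of_mem_erase hs))
    have hup : ∀ (a s : V), s ≠ z → Function.update f z a s = f s := fun a s hs =>
      Function.update_of_ne hs _ _
    have hupz : ∀ a : V, Function.update f z a z = a := fun a => Function.update_self _ _ _
    by_cases hy : ∃ y ∈ S.erase z, G.Adj z y
    · obtain ⟨y, hyS, hzy⟩ := hy
      have hyz : y ≠ z := Finset.ne_of_mem_erase hyS
      have hyS' : y ∈ S := Finset.mem_of_mem_erase hyS
      refine ⟨Function.update f z (f y), ?_, ?_⟩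
      · intro s hs
        by_cases hsz : s = z
        · subst hsz
          rw [hupz]
          refine ⟨(hf1 y hyS).1, fun ha => (hf1 y hyS).2 ?_⟩
          exact hz.2 y (Finset.mem_union_left _ hyS') (f y)
            (Finset.mem_union_right _ (hf1 y hyS).1) hzy ha
            (fun e => hSR y hyS' (e ▸ (hf1 y hyS).1))
        · rw [hup _ _ hsz]
          exact hf1 s (Finset.mem_erase.mpr ⟨hsz, hs⟩)
      · have key : ∀ t ∈ S, G.Adj z t → t ≠ z → f y = f t := by
          intro t ht hzt htz
          by_cases hty : y = t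
          · rw [hty]
          · exact hf2 y hyS t (Finset.mem_erase.mpr ⟨htz, ht⟩)
              (hz.2 y (Finset.mem_union_left _ hyS') t (Finset.mem_union_left _ ht) hzy hzt hty)
        intro s hs t ht hst
        by_cases hsz : s = z
        · subst hsz
          have htz : t ≠ s := hst.ne'
          rw [hupz, hup _ _ htz]
          exact key t ht hst htz
        · by_cases htz : t = z
          · subst htz
            rw [hupz, hup _ _ hsz]
            exact (key s hs hst.symm hsz).symm
          · rw [hup _ _ hsz, hup _ _ htz]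
            exact hf2 s (Finset.mem_erase.mpr ⟨hsz, hs⟩) t (Finset.mem_erase.mpr ⟨htz, ht⟩) hst
    · push Not at hy
      obtain ⟨r, hr, hzr⟩ := hn z hzS
      refine ⟨Function.update f z r, ?_, ?_⟩
      · intro s hs
        by_cases hsz : s = z
        · subst hsz
          rw [hupz]
          exact ⟨hr, hzr⟩
        · rw [hup _ _ hsz]
          exact hf1 s (Finset.mem_erase.mpr ⟨hsz, hs⟩)
      · intro s hs t ht hst
        by_cases hsz : s = z
        · subst hsz
          exact absurd hst (hy t (Finset.mem_erase.mpr ⟨hst.ne', ht⟩))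
        · by_cases htz : t = z
          · subst htz
            exact absurd hst.symm (hy s (Finset.mem_erase.mpr ⟨hst.ne, hs⟩))
          · rw [hup _ _ hsz, hup _ _ htz]
            exact hf2 s (Finset.mem_erase.mpr ⟨hsz, hs⟩) t (Finset.mem_erase.mpr ⟨htz, ht⟩) hst

omit [DecidableEq V] in
/-- the set `S` is placed into the network at places satisfying `Q`, with the right adjacencies
in `S` and between `S` and `R` -/
def Emb (G : SimpleGraph V) (Q : List (Fin 3) → Prop) (R : Finset V) (ψ : V → Vx)
    (S : Finset V) : Prop :=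
  ∃ φ : V → List (Fin 3), (∀ s ∈ S, Q (φ s)) ∧ (∀ s ∈ S, ∀ t ∈ S, φ s = φ t → s = t) ∧
    (∀ s ∈ S, ∀ t ∈ S, s ≠ t → (G.Adj s t ↔ Net.Adj (Sum.inr (φ s)) (Sum.inr (φ t)))) ∧
    ∀ s ∈ S, ∀ r ∈ R, G.Adj s r ↔ Net.Adj (Sum.inr (φ s)) (ψ r)

omit [DecidableEq V] in
lemma Emb.mono {Q Q' : List (Fin 3) → Prop} {R S : Finset V} {ψ : V → Vx}
    (h : Emb G Q R ψ S) (hQ : ∀ w, Q w → Q' w) : Emb G Q' R ψ S := by
  obtain ⟨φ, h1, h2, h3, h4⟩ := h
  exact ⟨φ, fun s hs => hQ _ (h1 s hs), h2, h3, h4⟩

/-- gluing the parts -/
lemma glue {u : List (Fin 3)} {R Rp S : Finset V} {ψ : V → Vx}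
    (hψ : ∀ r ∈ R, ψ r ∈ cs u) (hinj : ∀ r ∈ R, ∀ r' ∈ R, ψ r = ψ r' → r = r')
    {f : V → V} (hf : ∀ s ∈ S, f s ∈ R ∧ ¬ G.Adj s (f s))
    (hf2 : ∀ s ∈ S, ∀ t ∈ S, G.Adj s t → f s = f t) {i : V → Fin 3}
    (hi : ∀ r ∈ R, cs (i r :: u) = insert (Sum.inr u) ((cs u).erase (ψ r)))
    (hE : ∀ r ∈ R, Emb G (fun w => (i r :: u) <:+ w) (Rp.erase r) ψ
      (S.filter fun s => f s = r)) :
    Emb G (fun w => ∃ j, (j :: u) <:+ w) Rp ψ S := by
  choose! φ h1 h2 h3 h4 using hE
  have hii : ∀ r ∈ R, ∀ r' ∈ R, r ≠ r' → i r ≠ i r' := by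
    intro r hr r' hr' hrr' he
    have e1 := hi r hr
    rw [he, hi r' hr'] at e1
    have e2 : ψ r' ∈ insert (Sum.inr u) ((cs u).erase (ψ r)) :=
      Finset.mem_insert_of_mem (Finset.mem_erase.mpr
        ⟨fun e => hrr' (hinj r hr r' hr' e.symm), hψ r' hr'⟩)
    rw [← e1] at e2
    rcases Finset.mem_insert.mp e2 with e3 | e3
    · exact notMem_cs u (e3 ▸ hψ r' hr')
    · exact absurd rfl (Finset.ne_of_mem_erase e3)
  have hm : ∀ s ∈ S, s ∈ S.filter fun t => f t = f s := fun s hs =>
    Finset.mem_filter.mpr ⟨hs, rfl⟩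
  refine ⟨fun s => φ (f s) s, ?_, ?_, ?_, ?_⟩
  · intro s hs
    exact ⟨i (f s), h1 (f s) (hf s hs).1 s (hm s hs)⟩
  · intro s hs t ht he
    by_cases hft : f s = f t
    · refine h2 (f s) (hf s hs).1 s (hm s hs) t (Finset.mem_filter.mpr ⟨ht, hft.symm⟩) ?_
      have he' : φ (f s) s = φ (f t) t := he
      rw [← hft] at he'
      exact he'
    · exact absurd he (not_adj_of_ne (hii _ (hf s hs).1 _ (hf t ht).1 hft)
        (h1 (f s) (hf s hs).1 s (hm s hs)) (h1 (f t) (hf t ht).1 t (hm t ht))).1
  · intro s hs t ht hst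
    by_cases hft : f s = f t
    · have := h3 (f s) (hf s hs).1 s (hm s hs) t (Finset.mem_filter.mpr ⟨ht, hft.symm⟩) hst
      rw [this]
      change Net.Adj (Sum.inr (φ (f s) s)) (Sum.inr (φ (f s) t)) ↔
        Net.Adj (Sum.inr (φ (f s) s)) (Sum.inr (φ (f t) t))
      rw [hft]
    · constructor
      · intro ha
        exact absurd (hf2 s hs t ht ha) hft
      · intro ha
        exact absurd ha (not_adj_of_ne (hii _ (hf s hs).1 _ (hf t ht).1 hft)
          (h1 (f s) (hf s hs).1 s (hm s hs)) (h1 (f t) (hf t ht).1 t (hm t ht))).2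
  · intro s hs r hr
    by_cases hrs : r = f s
    · subst hrs
      constructor
      · intro ha
        exact absurd ha (hf s hs).2
      · intro ha
        exfalso
        have hc := hψ _ (hf s hs).1
        have ht := h1 (f s) (hf s hs).1 s (hm s hs)
        have h5 := (adj_outer ht (List.suffix_cons _ _) hc).mp ha
        rcases cs_inside ht h5 with h6 | ⟨w', h6, h7⟩
        · rw [hi _ (hf s hs).1] at h6
          rcases Finset.mem_insert.mp h6 with e3 | e3
          · exact notMem_cs u (e3 ▸ hc)
          · exact absurd rfl (Finset.ne_of_mem_erase e3)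
        · rw [h6] at hc
          have e1 := (cs_suffix hc).2
          have e2 := h7.length_le
          rw [List.length_cons] at e2
          omega
    · exact h4 (f s) (hf s hs).1 s (hm s hs) r (Finset.mem_erase.mpr ⟨hrs, hr⟩)

/-- placing a vertex into the face -/
lemma place {u : List (Fin 3)} {R S : Finset V} {ψ ψ' : V → Vx} {v : V} (hv : v ∈ S)
    (hc : ∀ r ∈ R, G.Adj v r) (hψ : ∀ r ∈ R, ψ r ∈ cs u)
    (hv' : ψ' v = Sum.inr u) (hr' : ∀ r ∈ R, ψ' r = ψ r)
    (h : Emb G (fun w => ∃ j, (j :: u) <:+ w) (insert v R) ψ' (S.erase v)) :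
    Emb G (fun w => u <:+ w) R ψ S := by
  obtain ⟨φ, h1, h2, h3, h4⟩ := h
  have hup : ∀ s : V, s ≠ v → Function.update φ v u s = φ s := fun s hs =>
    Function.update_of_ne hs _ _
  have hupz : Function.update φ v u v = u := Function.update_self _ _ _
  have hne : ∀ s ∈ S, s ≠ v → φ s ≠ u := by
    intro s hs hsv e
    obtain ⟨j, hj⟩ := h1 s (Finset.mem_erase.mpr ⟨hsv, hs⟩)
    have := hj.length_le
    rw [e, List.length_cons] at this
    omega
  have hvs : ∀ s ∈ S, s ≠ v → (G.Adj s v ↔ Net.Adj (Sum.inr (φ s)) (Sum.inr u)) := by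
    intro s hs hsv
    have := h4 s (Finset.mem_erase.mpr ⟨hsv, hs⟩) v (Finset.mem_insert_self _ _)
    rwa [hv'] at this
  refine ⟨Function.update φ v u, ?_, ?_, ?_, ?_⟩
  · intro s hs
    by_cases hsv : s = v
    · subst hsv
      rw [hupz]
    · rw [hup s hsv]
      obtain ⟨j, hj⟩ := h1 s (Finset.mem_erase.mpr ⟨hsv, hs⟩)
      exact (List.suffix_cons _ _).trans hj
  · intro s hs t ht he
    by_cases hsv : s = v
    · subst hsv
      by_cases htv : t = s
      · exact htv.symm
      · rw [hupz, hup t htv] at he
        exact absurd he.symm (hne t ht htv)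
    · by_cases htv : t = v
      · subst htv
        rw [hupz, hup s hsv] at he
        exact absurd he (hne s hs hsv)
      · rw [hup s hsv, hup t htv] at he
        exact h2 s (Finset.mem_erase.mpr ⟨hsv, hs⟩) t (Finset.mem_erase.mpr ⟨htv, ht⟩) he
  · intro s hs t ht hst
    by_cases hsv : s = v
    · subst hsv
      have htv : t ≠ s := hst.symm
      rw [hupz, hup t htv, G.adj_comm, hvs t ht htv, Net.adj_comm]
    · by_cases htv : t = v
      · subst htv
        rw [hupz, hup s hsv]
        exact hvs s hs hsv
      · rw [hup s hsv, hup t htv]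
        exact h3 s (Finset.mem_erase.mpr ⟨hsv, hs⟩) t (Finset.mem_erase.mpr ⟨htv, ht⟩) hst
  · intro s hs r hr
    by_cases hsv : s = v
    · subst hsv
      rw [hupz]
      exact ⟨fun _ => Net.of_par (par_iff.mpr (hψ r hr)), fun _ => hc r hr⟩
    · rw [hup s hsv, ← hr' r hr]
      exact h4 s (Finset.mem_erase.mpr ⟨hsv, hs⟩) r (Finset.mem_insert_of_mem hr)

theorem embed (hG : Chordal G)
    (h5 : ∀ T : Finset V, T.card = 5 → (∀ x ∈ T, ∀ y ∈ T, x ≠ y → G.Adj x y) → False)
    (h6 : ∀ T : Finset V, T.card = 3 → (∀ x ∈ T, ∀ y ∈ T, x ≠ y → G.Adj x y) →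
      ∀ x y z : V, x ≠ y → x ≠ z → y ≠ z → (∀ t ∈ T, G.Adj x t) → (∀ t ∈ T, G.Adj y t) →
      (∀ t ∈ T, G.Adj z t) → False) :
    ∀ (n : ℕ) (u : List (Fin 3)) (R S : Finset V) (ψ : V → Vx), 4 * S.card + R.card = n →
      (∀ x ∈ R, ∀ y ∈ R, x ≠ y → G.Adj x y) → Disjoint S R →
      (∀ r ∈ R, ∀ r' ∈ R, ψ r = ψ r' → r = r') → (∀ r ∈ R, ψ r ∈ cs u) → R.card ≤ 3 →
      (R.card = 3 → ∀ s ∈ S, ∀ t ∈ S, (∀ r ∈ R, G.Adj s r) → (∀ r ∈ R, G.Adj t r) → s = t) →
      Emb G (fun w => u <:+ w) R ψ S := by
  classical
  intro n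
  induction n using Nat.strong_induction_on with
  | _ n ih =>
  intro u R S ψ hn hR hdis hinj hψ hR3 huniq
  have hSR : ∀ s ∈ S, s ∉ R := fun s hs hr => Finset.disjoint_left.mp hdis hs hr
  -- the subfaces
  have hsub : ∀ r ∈ R, ∃ i : Fin 3, cs (i :: u) = insert (Sum.inr u) ((cs u).erase (ψ r)) :=
    fun r hr => cs_sub (hψ r hr)
  choose! i hi using hsub
  by_cases hA : ∃ v ∈ S, ∀ r ∈ R, G.Adj v r
  · rcases Nat.lt_or_ge R.card 3 with hlt | hge
    · -- at most two real corners
      obtain ⟨v, hvS, hvR, hvu⟩ : ∃ v ∈ S, (∀ r ∈ R, G.Adj v r) ∧ (R.card = 2 →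
          ∀ s ∈ S.erase v, ∀ t ∈ S.erase v, (∀ r ∈ insert v R, G.Adj s r) →
          (∀ r ∈ insert v R, G.Adj t r) → s = t) := by
        by_cases h2 : R.card = 2
        · obtain ⟨v0, hv0, hv0'⟩ := hA
          obtain ⟨v, hv⟩ := dirac hG (S.filter fun s => ∀ r ∈ R, G.Adj s r)
            ⟨v0, Finset.mem_filter.mpr ⟨hv0, hv0'⟩⟩
          obtain ⟨hvS, hvR⟩ := Finset.mem_filter.mp hv.1
          refine ⟨v, hvS, hvR, fun _ s hs t ht hs' ht' => ?_⟩
          by_contra hst
          have hsS := Finset.mem_of_mem_erase hs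
          have htS := Finset.mem_of_mem_erase ht
          have hsv := Finset.ne_of_mem_erase hs
          have htv := Finset.ne_of_mem_erase ht
          have asv : G.Adj s v := hs' v (Finset.mem_insert_self _ _)
          have atv : G.Adj t v := ht' v (Finset.mem_insert_self _ _)
          have asR : ∀ r ∈ R, G.Adj s r := fun r hr => hs' r (Finset.mem_insert_of_mem hr)
          have atR : ∀ r ∈ R, G.Adj t r := fun r hr => ht' r (Finset.mem_insert_of_mem hr)
          have ast : G.Adj s t := hv.2 s (Finset.mem_filter.mpr ⟨hsS, asR⟩) t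
            (Finset.mem_filter.mpr ⟨htS, atR⟩) asv.symm atv.symm hst
          apply h5 (insert s (insert t (insert v R)))
          · rw [Finset.card_insert_of_notMem, Finset.card_insert_of_notMem,
              Finset.card_insert_of_notMem, h2]
            · exact hSR v hvS
            · rw [Finset.mem_insert]
              rintro (h | h)
              · exact htv h
              · exact hSR t htS h
            · rw [Finset.mem_insert, Finset.mem_insert]
              rintro (h | h | h)
              · exact hst h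
              · exact hsv h
              · exact hSR s hsS h
          · intro x hx y hy hxy
            simp only [Finset.mem_insert] at hx hy
            rcases hx with rfl | rfl | rfl | hx <;> rcases hy with rfl | rfl | rfl | hy <;>
              first
                | exact absurd rfl hxy
                | exact ast
                | exact ast.symm
                | exact asv
                | exact asv.symm
                | exact atv
                | exact atv.symm
                | exact asR _ hy
                | exact (asR _ hx).symm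
                | exact atR _ hy
                | exact (atR _ hx).symm
                | exact hvR _ hy
                | exact (hvR _ hx).symm
                | exact hR _ hx _ hy hxy
        · obtain ⟨v, hv, hv'⟩ := hA
          exact ⟨v, hv, hv', fun h => absurd h h2⟩
      have hvR' : v ∉ R := hSR v hvS
      obtain ⟨d, hd, hdR⟩ : ∃ d ∈ cs u, d ∉ R.image ψ := by
        by_contra hcon
        push Not at hcon
        have h1 : (cs u).card ≤ (R.image ψ).card := Finset.card_le_card hcon
        have h2 := Finset.card_image_le (s := R) (f := ψ)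
        rw [card_cs] at h1
        omega
      obtain ⟨j, hj⟩ := cs_sub hd
      have hψv : Function.update ψ v (Sum.inr u) v = Sum.inr u := Function.update_self _ _ _
      have hψr : ∀ r ∈ R, Function.update ψ v (Sum.inr u) r = ψ r := fun r hr =>
        Function.update_of_ne (fun e : r = v => hvR' (e ▸ hr)) _ _
      have hcard : (insert v R).card = R.card + 1 := Finset.card_insert_of_notMem hvR'
      have hcs : (S.erase v).card = S.card - 1 := Finset.card_erase_of_mem hvS
      have hpos : 0 < S.card := Finset.card_pos.mpr ⟨v, hvS⟩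
      have hrec := ih (4 * (S.erase v).card + (insert v R).card) (by omega) (j :: u)
        (insert v R) (S.erase v) (Function.update ψ v (Sum.inr u)) rfl ?_ ?_ ?_ ?_ (by omega) ?_
      · exact place hvS hvR hψ hψv hψr (hrec.mono fun w hw => ⟨j, hw⟩)
      · intro x hx y hy hxy
        rcases Finset.mem_insert.mp hx with rfl | hx' <;>
          rcases Finset.mem_insert.mp hy with rfl | hy'
        · exact absurd rfl hxy
        · exact hvR _ hy'
        · exact (hvR _ hx').symm
        · exact hR _ hx' _ hy' hxy
      · rw [Finset.disjoint_left]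
        intro s hs hs'
        rcases Finset.mem_insert.mp hs' with h | h
        · exact Finset.ne_of_mem_erase hs h
        · exact hSR s (Finset.mem_of_mem_erase hs) h
      · intro r hr r' hr' he
        rcases Finset.mem_insert.mp hr with rfl | hx' <;>
          rcases Finset.mem_insert.mp hr' with rfl | hy'
        · rfl
        · rw [hψv, hψr _ hy'] at he
          exact absurd (he ▸ hψ _ hy') (notMem_cs u)
        · rw [hψv, hψr _ hx'] at he
          exact absurd (he ▸ hψ _ hx') (notMem_cs u)
        · rw [hψr _ hx', hψr _ hy'] at he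
          exact hinj _ hx' _ hy' he
      · intro r hr
        rw [hj]
        rcases Finset.mem_insert.mp hr with rfl | hr'
        · rw [hψv]
          exact Finset.mem_insert_self _ _
        · rw [hψr _ hr']
          exact Finset.mem_insert_of_mem (Finset.mem_erase.mpr
            ⟨fun e => hdR (e ▸ Finset.mem_image_of_mem ψ hr'), hψ _ hr'⟩)
      · intro h3
        exact hvu (by omega)
    · -- three real corners
      have hR3' : R.card = 3 := by omega
      obtain ⟨v, hvS, hvR⟩ := hA
      have hvR' : v ∉ R := hSR v hvS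
      have hcs : (S.erase v).card = S.card - 1 := Finset.card_erase_of_mem hvS
      have hpos : 0 < S.card := Finset.card_pos.mpr ⟨v, hvS⟩
      obtain ⟨f, hf1, hf2⟩ := split hG R hR _ (S.erase v) rfl
        (hdis.mono_left (Finset.erase_subset _ _)) (by
          intro s hs
          by_contra hcon
          push Not at hcon
          exact Finset.ne_of_mem_erase hs
            (huniq hR3' s (Finset.mem_of_mem_erase hs) v hvS hcon hvR))
      have hψv : Function.update ψ v (Sum.inr u) v = Sum.inr u := Function.update_self _ _ _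
      have hψr : ∀ r ∈ R, Function.update ψ v (Sum.inr u) r = ψ r := fun r hr =>
        Function.update_of_ne (fun e : r = v => hvR' (e ▸ hr)) _ _
      have hcl : ∀ x ∈ insert v R, ∀ y ∈ insert v R, x ≠ y → G.Adj x y := by
        intro x hx y hy hxy
        rcases Finset.mem_insert.mp hx with rfl | hx' <;>
          rcases Finset.mem_insert.mp hy with rfl | hy'
        · exact absurd rfl hxy
        · exact hvR _ hy'
        · exact (hvR _ hx').symm
        · exact hR _ hx' _ hy' hxy
      apply place hvS hvR hψ hψv hψr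
      refine glue (f := f) (i := i) (R := R) (fun r hr => by rw [hψr r hr]; exact hψ r hr)
        (fun r hr r' hr' he => hinj r hr r' hr' (by rwa [hψr r hr, hψr r' hr'] at he))
        hf1 hf2 (fun r hr => by rw [hψr r hr]; exact hi r hr) ?_
      intro r hr
      have hcard : ((insert v R).erase r).card = 3 := by
        rw [Finset.card_erase_of_mem (Finset.mem_insert_of_mem hr),
          Finset.card_insert_of_notMem hvR', hR3']
      have hcard2 : ((S.erase v).filter fun s => f s = r).card ≤ S.card - 1 := by
        rw [← hcs]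
        exact Finset.card_filter_le _ _
      have hmem : ∀ s ∈ (S.erase v).filter fun s => f s = r, s ∈ S ∧ s ≠ v := fun s hs =>
        ⟨Finset.mem_of_mem_erase (Finset.mem_filter.mp hs).1,
          Finset.ne_of_mem_erase (Finset.mem_filter.mp hs).1⟩
      refine ih (4 * ((S.erase v).filter fun s => f s = r).card +
        ((insert v R).erase r).card) (by omega) (i r :: u) ((insert v R).erase r)
        ((S.erase v).filter fun s => f s = r) (Function.update ψ v (Sum.inr u)) rfl ?_ ?_ ?_ ?_
        (by omega) ?_
      · intro x hx y hy hxy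
        exact hcl x (Finset.mem_of_mem_erase hx) y (Finset.mem_of_mem_erase hy) hxy
      · rw [Finset.disjoint_left]
        intro s hs hs'
        rcases Finset.mem_insert.mp (Finset.mem_of_mem_erase hs') with h | h
        · exact (hmem s hs).2 h
        · exact hSR s (hmem s hs).1 h
      · intro a ha a' ha' he
        rcases Finset.mem_insert.mp (Finset.mem_of_mem_erase ha) with rfl | hx' <;>
          rcases Finset.mem_insert.mp (Finset.mem_of_mem_erase ha') with rfl | hy'
        · rfl
        · rw [hψv, hψr _ hy'] at he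
          exact absurd (he ▸ hψ _ hy') (notMem_cs u)
        · rw [hψv, hψr _ hx'] at he
          exact absurd (he ▸ hψ _ hx') (notMem_cs u)
        · rw [hψr _ hx', hψr _ hy'] at he
          exact hinj _ hx' _ hy' he
      · intro a ha
        rw [hi r hr]
        rcases Finset.mem_insert.mp (Finset.mem_of_mem_erase ha) with rfl | hr'
        · rw [hψv]
          exact Finset.mem_insert_self _ _
        · rw [hψr _ hr']
          exact Finset.mem_insert_of_mem (Finset.mem_erase.mpr
            ⟨fun e => Finset.ne_of_mem_erase ha (hinj _ hr' _ hr e), hψ _ hr'⟩)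
      · intro _ s hs t ht hs' ht'
        by_contra hst
        have hrr : ∀ a ∈ (insert v R).erase r, G.Adj r a := fun a ha =>
          hcl r (Finset.mem_insert_of_mem hr) a (Finset.mem_of_mem_erase ha)
            (Finset.ne_of_mem_erase ha).symm
        exact h6 ((insert v R).erase r) hcard
          (fun x hx y hy hxy => hcl x (Finset.mem_of_mem_erase hx) y
            (Finset.mem_of_mem_erase hy) hxy) s t r hst
          (fun e => hSR s (hmem s hs).1 (e ▸ hr)) (fun e => hSR t (hmem t ht).1 (e ▸ hr))
          hs' ht' hrr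
  · -- no vertex is adjacent to all real corners
    push Not at hA
    obtain ⟨f, hf1, hf2⟩ := split hG R hR _ S rfl hdis hA
    refine (glue (f := f) (i := i) (R := R) (Rp := R) hψ hinj hf1 hf2 hi ?_).mono ?_
    · intro r hr
      have hcard : (R.erase r).card = R.card - 1 := Finset.card_erase_of_mem hr
      have hpos : 0 < R.card := Finset.card_pos.mpr ⟨r, hr⟩
      have hcard2 : (S.filter fun s => f s = r).card ≤ S.card := Finset.card_filter_le _ _
      refine ih (4 * (S.filter fun s => f s = r).card + (R.erase r).card) (by omega)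
        (i r :: u) (R.erase r) (S.filter fun s => f s = r) ψ rfl ?_ ?_ ?_ ?_ (by omega) ?_
      · intro x hx y hy hxy
        exact hR x (Finset.mem_of_mem_erase hx) y (Finset.mem_of_mem_erase hy) hxy
      · rw [Finset.disjoint_left]
        intro s hs hs'
        exact hSR s (Finset.mem_filter.mp hs).1 (Finset.mem_of_mem_erase hs')
      · intro a ha a' ha' he
        exact hinj a (Finset.mem_of_mem_erase ha) a' (Finset.mem_of_mem_erase ha') he
      · intro a ha
        rw [hi r hr]
        exact Finset.mem_insert_of_mem (Finset.mem_erase.mpr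
          ⟨fun e => Finset.ne_of_mem_erase ha (hinj _ (Finset.mem_of_mem_erase ha) _ hr e),
            hψ _ (Finset.mem_of_mem_erase ha)⟩)
      · intro h3
        omega
    · rintro w ⟨j, hj⟩
      exact (List.suffix_cons _ _).trans hj

end Pool.Agent.Helper12.Apo
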