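import Mathlib

/-!
The infinite Apollonian network. Faces are words over `Fin 3` (the last letters are the
outermost), the vertex put into the face `w` is `inr w`, the root triangle is `inl 0, inl 1,
inl 2`.
-/

set_option autoImplicit false

namespace Pool.Agent.Helper12.Apo

/-- vertices of the infinite Apollonian network -/
abbrev Vx : Type := Fin 3 ⊕ List (Fin 3)

/-- the (ordered) corners of a face -/
def cor : List (Fin 3) → Vx × Vx × Vx
  | [] => (Sum.inl 0, Sum.inl 1, Sum.inl 2)
  | i :: w =>
    if i = 0 then (Sum.inr w, (cor w).2.1, (cor w).2.2)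
    else if i = 1 then ((cor w).2.1, Sum.inr w, (cor w).1)
    else ((cor w).2.2, Sum.inr w, (cor w).1)

/-- `y` is a corner of the face into which `x` is put -/
def Par (x y : Vx) : Prop :=
  match x with
  | Sum.inl _ => False
  | Sum.inr u => y = (cor u).1 ∨ y = (cor u).2.1 ∨ y = (cor u).2.2

lemma cor_zero (w : List (Fin 3)) : cor (0 :: w) = (Sum.inr w, (cor w).2.1, (cor w).2.2) := by
  rw [cor, if_pos rfl]

lemma cor_one (w : List (Fin 3)) : cor (1 :: w) = ((cor w).2.1, Sum.inr w, (cor w).1) := by
  rw [cor, if_neg (by decide), if_pos rfl]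

lemma cor_two (w : List (Fin 3)) : cor (2 :: w) = ((cor w).2.2, Sum.inr w, (cor w).1) := by
  rw [cor, if_neg (by decide), if_neg (by decide)]

lemma fin3_cases (i : Fin 3) : i = 0 ∨ i = 1 ∨ i = 2 := by
  fin_cases i <;> simp

/-- a corner which is an inner vertex belongs to a strictly outer face -/
lemma Par.suffix {u u' : List (Fin 3)} (h : Par (Sum.inr u) (Sum.inr u')) :
    u' <:+ u ∧ u'.length < u.length := by
  induction u with
  | nil =>
    simp [Par, cor] at h
  | cons i w ih =>
    have key : ∀ x : Vx, (x = (cor w).1 ∨ x = (cor w).2.1 ∨ x = (cor w).2.2) →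
        Sum.inr u' = x → u' <:+ i :: w ∧ u'.length < (i :: w).length := by
      intro x hx he
      have hp : Par (Sum.inr w) (Sum.inr u') := by
        rw [he]; exact hx
      obtain ⟨h1, h2⟩ := ih hp
      refine ⟨h1.trans (List.suffix_cons i w), ?_⟩
      rw [List.length_cons]; omega
    have kw : Sum.inr u' = (Sum.inr w : Vx) → u' <:+ i :: w ∧ u'.length < (i :: w).length := by
      intro he
      have : u' = w := Sum.inr_injective he
      subst this
      refine ⟨List.suffix_cons i u', ?_⟩
      rw [List.length_cons]; omega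
    rcases fin3_cases i with rfl | rfl | rfl
    · change (Sum.inr u' = (cor (0 :: w)).1 ∨ Sum.inr u' = (cor (0 :: w)).2.1 ∨
        Sum.inr u' = (cor (0 :: w)).2.2) at h
      rw [cor_zero] at h
      rcases h with h | h | h
      · exact kw h
      · exact key _ (Or.inr (Or.inl rfl)) h
      · exact key _ (Or.inr (Or.inr rfl)) h
    · change (Sum.inr u' = (cor (1 :: w)).1 ∨ Sum.inr u' = (cor (1 :: w)).2.1 ∨
        Sum.inr u' = (cor (1 :: w)).2.2) at h
      rw [cor_one] at h
      rcases h with h | h | h
      · exact key _ (Or.inr (Or.inl rfl)) h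
      · exact kw h
      · exact key _ (Or.inl rfl) h
    · change (Sum.inr u' = (cor (2 :: w)).1 ∨ Sum.inr u' = (cor (2 :: w)).2.1 ∨
        Sum.inr u' = (cor (2 :: w)).2.2) at h
      rw [cor_two] at h
      rcases h with h | h | h
      · exact key _ (Or.inr (Or.inr rfl)) h
      · exact kw h
      · exact key _ (Or.inl rfl) h

lemma Par.irrefl (x : Vx) : ¬ Par x x := by
  intro h
  rcases x with i | u
  · exact h
  · exact absurd h.suffix.2 (lt_irrefl _)

/-- the infinite Apollonian network -/
def Net : SimpleGraph Vx where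
  Adj x y := Par x y ∨ Par y x ∨ ∃ i j : Fin 3, i ≠ j ∧ x = Sum.inl i ∧ y = Sum.inl j
  symm := ⟨by
    rintro x y (h | h | ⟨i, j, h1, h2, h3⟩)
    · exact Or.inr (Or.inl h)
    · exact Or.inl h
    · exact Or.inr (Or.inr ⟨j, i, h1.symm, h3, h2⟩)⟩
  loopless := ⟨by
    rintro x (h | h | ⟨i, j, h1, h2, h3⟩)
    · exact Par.irrefl x h
    · exact Par.irrefl x h
    · rw [h2] at h3
      exact h1 (Sum.inl_injective h3)⟩

lemma Net.of_par {x y : Vx} (h : Par x y) : Net.Adj x y := Or.inl h

lemma cor_adj (w : List (Fin 3)) : Net.Adj (cor w).1 (cor w).2.1 ∧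
    Net.Adj (cor w).1 (cor w).2.2 ∧ Net.Adj (cor w).2.1 (cor w).2.2 := by
  induction w with
  | nil =>
    refine ⟨Or.inr (Or.inr ⟨0, 1, by decide, rfl, rfl⟩),
      Or.inr (Or.inr ⟨0, 2, by decide, rfl, rfl⟩), Or.inr (Or.inr ⟨1, 2, by decide, rfl, rfl⟩)⟩
  | cons i w ih =>
    have a1 : Net.Adj (Sum.inr w) (cor w).1 := Net.of_par (Or.inl rfl)
    have a2 : Net.Adj (Sum.inr w) (cor w).2.1 := Net.of_par (Or.inr (Or.inl rfl))
    have a3 : Net.Adj (Sum.inr w) (cor w).2.2 := Net.of_par (Or.inr (Or.inr rfl))
    rcases fin3_cases i with rfl | rfl | rfl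
    · rw [cor_zero]; exact ⟨a2, a3, ih.2.2⟩
    · rw [cor_one]; exact ⟨a2.symm, ih.1.symm, a1⟩
    · rw [cor_two]; exact ⟨a3.symm, ih.2.1.symm, a1⟩

/-- no vertex inside the face `w` is in `V` -/
def Free (w : List (Fin 3)) (V : Finset Vx) : Prop := ∀ u, w <:+ u → Sum.inr u ∉ V

lemma Free.adj {w : List (Fin 3)} {V : Finset Vx} (h : Free w V) :
    ∀ t ∈ V, Net.Adj (Sum.inr w) t ↔ (t = (cor w).1 ∨ t = (cor w).2.1 ∨ t = (cor w).2.2) := by
  intro t ht
  constructor
  · rintro (h1 | h1 | ⟨i, j, _, h2, _⟩)
    · exact h1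
    · rcases t with i | u
      · exact absurd h1 id
      · exact absurd ht (h u h1.suffix.1)
    · exact absurd h2 (by simp)
  · intro h1
    exact Net.of_par h1

lemma Free.notMem {w : List (Fin 3)} {V : Finset Vx} (h : Free w V) : Sum.inr w ∉ V :=
  h w (List.suffix_refl w)

/-- the words of the spine -/
def sw (w : List (Fin 3)) (i : ℕ) : List (Fin 3) := List.replicate i 0 ++ w

lemma sw_zero (w : List (Fin 3)) : sw w 0 = w := rfl

lemma sw_succ (w : List (Fin 3)) (i : ℕ) : sw w (i + 1) = 0 :: sw w i := rfl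

lemma sw_cons (w : List (Fin 3)) (i : ℕ) : sw (0 :: w) i = sw w (i + 1) := by
  unfold sw
  rw [List.replicate_succ', List.append_assoc]
  rfl

lemma sw_length (w : List (Fin 3)) (i : ℕ) : (sw w i).length = i + w.length := by
  unfold sw
  rw [List.length_append, List.length_replicate]

lemma suffix_sw (w : List (Fin 3)) (i : ℕ) : w <:+ sw w i := List.suffix_append _ _

lemma sw_suffix_sw (w : List (Fin 3)) {i j : ℕ} (h : i ≤ j) : sw w i <:+ sw w j := by
  induction j with
  | zero =>
    have : i = 0 := by omega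
    subst this
    exact List.suffix_refl _
  | succ j ih =>
    rcases Nat.lt_or_ge i (j + 1) with h1 | h1
    · exact (ih (by omega)).trans (by rw [sw_succ]; exact List.suffix_cons _ _)
    · have : i = j + 1 := by omega
      subst this
      exact List.suffix_refl _

lemma cor_sw (w : List (Fin 3)) (i : ℕ) : (cor (sw w i)).2 = (cor w).2 := by
  induction i with
  | zero => rfl
  | succ i ih => rw [sw_succ, cor_zero, ← ih]

/-- a word with a nonzero letter right above the spine is not inside a spine word -/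
lemma cons_not_suffix_sw {w : List (Fin 3)} {a : Fin 3} (ha : a ≠ 0) (i j : ℕ) :
    ¬ (a :: sw w i) <:+ sw w j := by
  intro h
  have hl := h.length_le
  rw [List.length_cons, sw_length, sw_length] at hl
  have h2 : sw w (i + 1) <:+ sw w j := sw_suffix_sw w (by omega)
  have h3 : (a :: sw w i) <:+ sw w (i + 1) :=
    List.suffix_of_suffix_length_le h h2 (by
      rw [List.length_cons, sw_length, sw_length]; omega)
  have h4 : (a :: sw w i) = sw w (i + 1) := h3.eq_of_length (by
    rw [List.length_cons, sw_length, sw_length]; omega)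
  rw [sw_succ] at h4
  exact ha (List.cons.inj h4).1

/-- words above different places of the spine are incomparable -/
lemma incomp {w u : List (Fin 3)} {a c : Fin 3} (ha : a ≠ 0) (hc : c ≠ 0) {i j : ℕ}
    (h1 : (a :: sw w i) <:+ u) (h2 : (c :: sw w j) <:+ u) : a = c ∧ i = j := by
  have key : ∀ {a c : Fin 3} {i j : ℕ}, c ≠ 0 → a ≠ 0 → i ≤ j → (a :: sw w i) <:+ u →
      (c :: sw w j) <:+ u → a = c ∧ i = j := by
    intro a c i j _ ha hij h1 h2
    have h3 : (a :: sw w i) <:+ (c :: sw w j) := List.suffix_of_suffix_length_le h1 h2 (by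
      rw [List.length_cons, List.length_cons, sw_length, sw_length]; omega)
    rcases Nat.lt_or_ge i j with hlt | hge
    · exfalso
      have h4 : sw w j <:+ (c :: sw w j) := List.suffix_cons _ _
      have h5 : (a :: sw w i) <:+ sw w j := List.suffix_of_suffix_length_le h3 h4 (by
        rw [List.length_cons, sw_length, sw_length]; omega)
      exact cons_not_suffix_sw ha i j h5
    · have hij' : i = j := by omega
      subst hij'
      have h4 := h3.eq_of_length (by rw [List.length_cons, List.length_cons])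
      exact ⟨(List.cons.inj h4).1, rfl⟩
  rcases le_total i j with h | h
  · exact key hc ha h h1 h2
  · obtain ⟨e1, e2⟩ := key ha hc h h2 h1
    exact ⟨e1.symm, e2.symm⟩

/-- every word is a spine word or lies above a place of the spine -/
lemma word_cases (l : List (Fin 3)) : (∃ j, l = List.replicate j 0) ∨
    ∃ (l' : List (Fin 3)) (a : Fin 3) (j : ℕ), a ≠ 0 ∧ l = l' ++ a :: List.replicate j 0 := by
  induction l using List.reverseRecOn with
  | nil => exact Or.inl ⟨0, rfl⟩
  | append_singleton l x ih =>
    by_cases hx : x = 0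
    · subst hx
      rcases ih with ⟨j, rfl⟩ | ⟨l', a, j, ha, rfl⟩
      · left
        exact ⟨j + 1, by rw [List.replicate_succ']⟩
      · right
        refine ⟨l', a, j + 1, ha, ?_⟩
        rw [List.replicate_succ', List.append_assoc, List.cons_append]
    · right
      exact ⟨l, x, 0, hx, rfl⟩

end Pool.Agent.Helper12.Apo
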