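import Pool.Agent.Helper12.Apo.Step
import Pool.Agent.Helper12.Apo.Words

/-!
Filling a pending face of the Apollonian network up to a given depth.
-/

set_option autoImplicit false

namespace Pool.Agent.Helper12.Apo

open Set

section
variable {W : Type*} {G : SimpleGraph W} {V V' V'' : Finset W} {p p' p'' : W → ℝ × ℝ}
  {C C' C'' : W → Set (ℝ × ℝ)} {b : ℝ × ℝ}

lemma Ext.refl' (V : Finset W) (p : W → ℝ × ℝ) : Ext V p V p := ⟨le_refl _, fun _ _ => rfl⟩

lemma Frame.refl' (x τ : W) : Frame G V p C V p C x τ :=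
  ⟨le_refl _, fun _ hd _ => hd, fun _ ht htV => absurd ht htV⟩

lemma Still.refl' (x : W) : Still G V C V C x := ⟨rfl, fun _ ht htV => absurd ht htV⟩

lemma Still.frame {x : W} (τ : W) (h : Still G V C V' C' x) : Frame G V p C V' p' C' x τ :=
  ⟨h.1.le, fun d hd _ => by rw [h.1]; exact hd, fun t ht htV ha => absurd ha (h.2 t ht htV)⟩

lemma Frame.weaken {x τ σ : W} (hC : Cone (C x)) (e : Ext V p V' p') (hx : x ∈ V) (hσ : σ ∈ V)
    (cτ : p x - p τ ∈ C x) (cσ : p x - p σ ∈ C x)
    (hlt : τ = σ ∨ 0 < cr (p x - p τ) (p x - p σ)) (h : Frame G V p C V' p' C' x τ) :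
    Frame G V p C V' p' C' x σ :=
  h.trans hC e (Ext.refl' _ _) hx hσ cτ cσ hlt (Frame.refl' x σ)

lemma Pend.frames {x y z τ σ ρ : W} (hG : Good G V p b C) (P : Pend G V p C x y z)
    (e : Ext V p V' p') (cτ : p x - p τ ∈ C x)
    (hlt : τ = y ∨ 0 < cr (p x - p τ) (p x - p y))
    (fx : Frame G V p C V' p' C' x τ)
    (fy : Frame G V p C V' p' C' y σ) (hy : 0 ≤ cr (p y - p σ) (p y - p x))
    (fz : Frame G V p C V' p' C' z ρ) (hz : 0 ≤ cr (p z - p ρ) (p z - p x)) :
    Pend G V' p' C' x y z where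
  mx := e.sub P.mx
  my := e.sub P.my
  mz := e.sub P.mz
  axy := P.axy
  axz := P.axz
  pos := by rw [e.eq x P.mx, e.eq y P.my, e.eq z P.mz]; exact P.pos
  cy := by
    rw [e.eq x P.mx, e.eq y P.my]
    apply fx.keep _ P.cy
    rcases hlt with rfl | hlt
    · rw [cr_self]
    · exact hlt.le
  cz := by
    rw [e.eq x P.mx, e.eq z P.mz]
    apply fx.keep _ P.cz
    have hyz : 0 < cr (p x - p y) (p x - p z) := by
      have : cr (p x - p y) (p x - p z) = cr (p y - p x) (p z - p x) := by
        simp only [cr, Prod.fst_sub, Prod.snd_sub]; ring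
      rw [this]; exact P.pos
    rcases hlt with rfl | hlt
    · exact hyz.le
    · exact ((hG.cone x P.mx).trans cτ P.cy P.cz hlt hyz.le).le
  by' := by
    rw [e.eq x P.mx, e.eq y P.my]
    exact fy.keep _ P.by' hy
  bz := by
    rw [e.eq x P.mx, e.eq z P.mz]
    exact fz.keep _ P.bz hz
  pair := P.pair.frame (hG.cone x P.mx) e P.mx P.my P.mz cτ P.cy P.cz hlt P.pos fx

end

/-- the result of filling the face `w` up to depth `D` -/
structure FillRes (V : Finset Vx) (p : Vx → ℝ × ℝ) (b : ℝ × ℝ) (C : Vx → Set (ℝ × ℝ))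
    (w : List (Fin 3)) (D : ℕ) (V' : Finset Vx) (p' : Vx → ℝ × ℝ) (C' : Vx → Set (ℝ × ℝ)) :
    Prop where
  good : Good Net V' p' b C'
  ext : Ext V p V' p'
  new : ∀ t ∈ V', t ∉ V → ∃ u, t = Sum.inr u ∧ w <:+ u
  full : ∀ l : List (Fin 3), l.length < D → Sum.inr (l ++ w) ∈ V'
  fh : Frame Net V p C V' p' C' (cor w).1 (cor w).2.2
  fA : Frame Net V p C V' p' C' (cor w).2.1 (cor w).1
  fB : Frame Net V p C V' p' C' (cor w).2.2 (cor w).1
  st : ∀ t ∈ V, t ≠ (cor w).1 → t ≠ (cor w).2.1 → t ≠ (cor w).2.2 → Still Net V C V' C' t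

/-- faces can be filled up to depth `D` -/
def FillAt (b : ℝ × ℝ) (D : ℕ) : Prop :=
  ∀ (w : List (Fin 3)) (V : Finset Vx) (p : Vx → ℝ × ℝ) (C : Vx → Set (ℝ × ℝ)),
    Good Net V p b C → Pend Net V p C (cor w).1 (cor w).2.1 (cor w).2.2 → Free w V →
    ∃ V' p' C', FillRes V p b C w D V' p' C'

/-- the result of filling a fan of faces at the vertex `x` -/
structure ChainRes (V : Finset Vx) (p : Vx → ℝ × ℝ) (b : ℝ × ℝ) (C : Vx → Set (ℝ × ℝ))
    (x : Vx) (y : ℕ → Vx) (u : ℕ → List (Fin 3)) (d : ℕ → ℕ) (m : ℕ)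
    (V' : Finset Vx) (p' : Vx → ℝ × ℝ) (C' : Vx → Set (ℝ × ℝ)) : Prop where
  good : Good Net V' p' b C'
  ext : Ext V p V' p'
  new : ∀ t ∈ V', t ∉ V → ∃ j < m, ∃ u', t = Sum.inr u' ∧ u j <:+ u'
  full : ∀ j < m, ∀ l : List (Fin 3), l.length < d j → Sum.inr (l ++ u j) ∈ V'
  fx : Frame Net V p C V' p' C' x (y 0)
  fy : ∀ j ≤ m, y j ∈ V → Frame Net V p C V' p' C' (y j) x
  st : ∀ t ∈ V, t ≠ x → (∀ j ≤ m, t ≠ y j) → Still Net V C V' C' t

lemma chain_order {V : Finset Vx} {p : Vx → ℝ × ℝ} {C : Vx → Set (ℝ × ℝ)} {x : Vx}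
    {y : ℕ → Vx} {m : ℕ} (hC : Cone (C x))
    (hP : ∀ j < m, Pend Net V p C x (y (j + 1)) (y j)) :
    ∀ i ≤ m, ∀ j < i, 0 < cr (p x - p (y i)) (p x - p (y j)) := by
  intro i
  induction i with
  | zero => intro _ j hj; omega
  | succ i ih =>
    intro hi j hj
    have h1 : 0 < cr (p x - p (y (i + 1))) (p x - p (y i)) := by
      have h0 := (hP i (by omega)).pos
      have : cr (p x - p (y (i + 1))) (p x - p (y i)) =
          cr (p (y (i + 1)) - p x) (p (y i) - p x) := by
        simp only [cr, Prod.fst_sub, Prod.snd_sub]; ring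
      rw [this]; exact h0
    rcases Nat.lt_or_ge j i with hlt | hge
    · have h2 := ih (by omega) j hlt
      have c1 : p x - p (y (i + 1)) ∈ C x := (hP i (by omega)).cy
      have c2 : p x - p (y i) ∈ C x := (hP i (by omega)).cz
      have c3 : p x - p (y j) ∈ C x := (hP j (by omega)).cz
      exact hC.trans c1 c2 c3 h1 h2.le
    · have : j = i := by omega
      subst this
      exact h1

theorem chain {b : ℝ × ℝ} (x : Vx) (y : ℕ → Vx) (u : ℕ → List (Fin 3)) (d : ℕ → ℕ) :
    ∀ (m : ℕ) (_ : ∀ j < m, cor (u j) = (x, y (j + 1), y j))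
    (_ : ∀ j < m, FillAt b (d j))
    (_ : ∀ i ≤ m, ∀ j < i, y i ≠ y j)
    (_ : ∀ i < m, ∀ j < m, ∀ u', u i <:+ u' → u j <:+ u' → i = j)
    (V : Finset Vx) (p : Vx → ℝ × ℝ) (C : Vx → Set (ℝ × ℝ))
    (_ : Good Net V p b C) (_ : ∀ j < m, Pend Net V p C x (y (j + 1)) (y j))
    (_ : ∀ j < m, Free (u j) V),
    ∃ V' p' C', ChainRes V p b C x y u d m V' p' C' := by
  intro m
  induction m with
  | zero =>
    intro _ _ _ _ V p C hG _ _
    exact ⟨V, p, C, hG, Ext.refl' _ _, fun t ht htV => absurd ht htV,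
      fun j hj => absurd hj (by omega), Frame.refl' _ _, fun j _ _ => Frame.refl' _ _,
      fun t _ _ _ => Still.refl' _⟩
  | succ m ih =>
    intro hcor hfill hinj hinc V p C hG hP hfree
    have hcm := hcor m (by omega)
    have hPm := hP m (by omega)
    have hord := chain_order (hG.cone x hPm.mx) hP
    obtain ⟨V1, p1, C1, F⟩ := hfill m (by omega) (u m) V p C hG
      (by rw [hcm]; exact hPm) (hfree m (by omega))
    have F1 := F.fh
    have F2 := F.fA
    have F3 := F.fB
    have F4 := F.st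
    rw [hcm] at F1 F2 F3
    simp only [hcm] at F4
    -- frames at the `y j`
    have hy : ∀ j ≤ m, y j ∈ V ∧ p (y j) - p x ∈ C (y j) ∧ y j ≠ x := by
      intro j hj
      have := hP j (by omega)
      exact ⟨this.mz, this.bz, this.axz.ne'⟩
    have fy1 : ∀ j ≤ m, Frame Net V p C V1 p1 C1 (y j) x := by
      intro j hj
      rcases Nat.lt_or_ge j m with hlt | hge
      · exact (F4 (y j) (hy j hj).1 (hy j hj).2.2 (hinj (m + 1) (le_refl _) j (by omega)).symm
          (hinj m (by omega) j hlt).symm).frame x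
      · have : j = m := by omega
        subst this
        exact F3
    have hP1 : ∀ j < m, Pend Net V1 p1 C1 x (y (j + 1)) (y j) := by
      intro j hj
      have Pj := hP j (by omega)
      refine Pj.frames hG F.ext (τ := y m) hPm.cz ?_ F1 (fy1 (j + 1) (by omega))
        (by rw [cr_self]) (fy1 j (by omega)) (by rw [cr_self])
      rcases Nat.lt_or_ge (j + 1) m with hlt | hge
      · right
        exact hord m (by omega) (j + 1) hlt
      · left
        have : j + 1 = m := by omega
        rw [this]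
    have hfree1 : ∀ j < m, Free (u j) V1 := by
      intro j hj u' hu' hmem
      by_cases hV : (Sum.inr u' : Vx) ∈ V
      · exact hfree j (by omega) u' hu' hV
      · obtain ⟨u'', e1, e2⟩ := F.new _ hmem hV
        have e3 : u' = u'' := Sum.inr_injective e1
        subst e3
        have := hinc m (by omega) j (by omega) u' e2 hu'
        omega
    obtain ⟨V2, p2, C2, H⟩ := ih (fun j hj => hcor j (by omega)) (fun j hj => hfill j (by omega))
      (fun i hi j hj => hinj i (by omega) j hj)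
      (fun i hi j hj => hinc i (by omega) j (by omega)) V1 p1 C1 F.good hP1 hfree1
    refine ⟨V2, p2, C2, H.good, F.ext.trans H.ext, ?_, ?_, ?_, ?_, ?_⟩
    · intro t ht htV
      by_cases h1 : t ∈ V1
      · obtain ⟨u', e1, e2⟩ := F.new t h1 htV
        exact ⟨m, by omega, u', e1, e2⟩
      · obtain ⟨j, hj, u', e1, e2⟩ := H.new t ht h1
        exact ⟨j, by omega, u', e1, e2⟩
    · intro j hj l hl
      rcases Nat.lt_or_ge j m with hlt | hge
      · exact H.full j hlt l hl
      · have : j = m := by omega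
        subst this
        exact H.ext.sub (F.full l hl)
    · refine F1.trans (hG.cone x hPm.mx) F.ext H.ext hPm.mx (hP 0 (by omega)).mz hPm.cz
        (hP 0 (by omega)).cz ?_ H.fx
      rcases Nat.eq_zero_or_pos m with h0 | h0
      · left; rw [h0]
      · right; exact hord m (by omega) 0 h0
    · intro j hj hjV
      rcases Nat.lt_or_ge j (m + 1) with hlt | hge
      · have hj' := hy j (by omega)
        exact (fy1 j (by omega)).trans (hG.cone _ hj'.1) F.ext H.ext hj'.1 hPm.mx hj'.2.1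
          hj'.2.1 (Or.inl rfl) (H.fy j (by omega) (F.ext.sub hj'.1))
      · have : j = m + 1 := by omega
        subst this
        have hs : Still Net V1 C1 V2 C2 (y (m + 1)) := by
          apply H.st _ (F.ext.sub hPm.my) hPm.axy.ne'
          intro i hi
          exact hinj (m + 1) (le_refl _) i (by omega)
        exact F2.trans_still hs H.ext (F.ext.sub hPm.my)
    · intro t ht htx hty
      have h1 := F4 t ht htx (hty (m + 1) (le_refl _)) (hty m (by omega))
      exact h1.trans (H.st t (F.ext.sub ht) htx (fun j hj => hty j (by omega)))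

end Pool.Agent.Helper12.Apo
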