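import Pool.Agent.Helper12.Apo.Pick

/-!
One insertion: the new drawing is good.
-/

set_option autoImplicit false

namespace Pool.Agent.Helper12.Apo

open Set Filter Topology

variable {W : Type*} {G : SimpleGraph W} {V : Finset W} {p : W → ℝ × ℝ} {b : ℝ × ℝ}
  {C : W → Set (ℝ × ℝ)}

/-- orientation of a triple -/
def ori (a b c : ℝ × ℝ) : ℝ := cr (b - a) (c - a)

lemma ori_rot (a b c : ℝ × ℝ) : ori a b c = ori b c a := by
  simp only [ori, cr, Prod.fst_sub, Prod.snd_sub]; ring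

lemma ori_swap (a b c : ℝ × ℝ) : ori a b c = - ori a c b := by
  simp only [ori, cr, Prod.fst_sub, Prod.snd_sub]; ring

lemma mem_Gam_self {x : W} (hx : x ∈ V) : p x ∈ Gam G V p :=
  ⟨x, hx, x, hx, Or.inl rfl, left_mem_segment ℝ _ _⟩

section

variable {h A B : W} {ρ : ℝ} {Z : Finset (ℝ × ℝ)} {q : ℝ × ℝ}

lemma Raw.q_notMem (R : Raw G V p b C h A B ρ Z q)
    (hsec : ∀ d ∈ C h, ‖d‖ < ρ → p h + d ∈ Out G V p b) : q ∉ Gam G V p := by
  obtain ⟨κ₀, h1, h2⟩ := R.hκ
  have hn : ‖q - p h‖ < ρ := by simpa using h2 1 one_pos h1.le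
  have := Out_sub G V p b _ (hsec _ R.hD hn)
  rwa [add_sub_cancel] at this

lemma Raw.gp_h (hG : Good G V p b C) (P : Pend G V p C h A B)
    (R : Raw G V p b C h A B ρ Z q) {y : W} (hy : y ∈ V) (hyh : y ≠ h) :
    cr (q - p h) (p y - p h) ≠ 0 := by
  by_cases hyA : y = A
  · subst hyA; exact R.hA.ne
  · have h1 := hG.gp h P.mx A P.my y hy P.axy.ne (Ne.symm hyA) hyh.symm
    rcases lt_or_gt_of_ne h1 with h2 | h2
    · exact ((R.sg y hy hyh hyA).1 h2).ne'
    · exact ((R.sg y hy hyh hyA).2 h2).ne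

lemma Raw.gp_q (hG : Good G V p b C) (P : Pend G V p C h A B)
    (R : Raw G V p b C h A B ρ Z q) {x y : W} (hx : x ∈ V) (hy : y ∈ V) (hxy : x ≠ y) :
    ori (p x) q (p y) ≠ 0 := by
  by_cases hxh : x = h
  · subst hxh; exact R.gp_h hG P hy hxy.symm
  · by_cases hyh : y = h
    · subst hyh
      have h1 := R.gp_h hG P hx hxh
      have h2 : ori (p x) q (p y) = - cr (q - p y) (p x - p y) := by
        simp only [ori, cr, Prod.fst_sub, Prod.snd_sub]; ring
      rw [h2]; exact neg_ne_zero.mpr h1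
    · have h1 := hG.gp x hx h P.mx y hy hxh (Ne.symm hyh) hxy
      rcases lt_or_gt_of_ne h1 with h2 | h2
      · exact ((R.ord x hx y hy).2 h2).ne
      · exact ((R.ord x hx y hy).1 h2).ne'

lemma Raw.hBD (R : Raw G V p b C h A B ρ Z q) : cr (p B - q) (p h - q) < 0 := by
  have e : cr (p B - q) (p h - q) = cr (q - p h) (p B - p h) := by
    simp only [cr, Prod.fst_sub, Prod.snd_sub]; ring
  rw [e]; exact R.hB

lemma Raw.hAD (R : Raw G V p b C h A B ρ Z q) : cr (p A - q) (p h - q) < 0 := by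
  have e : cr (p A - q) (p h - q) = cr (q - p h) (p A - p h) := by
    simp only [cr, Prod.fst_sub, Prod.snd_sub]; ring
  rw [e]; exact R.hA

lemma Raw.shift (q h x : ℝ × ℝ) : cr (q - h) (x - q) = cr (q - h) (x - h) := by
  simp only [cr, Prod.fst_sub, Prod.snd_sub]; ring

/-- the live cone at the new vertex -/
lemma Raw.exists_e (R : Raw G V p b C h A B ρ Z q) :
    ∃ e : ℝ × ℝ, 0 < cr e (q - p h) ∧ 0 < cr e (q - p A) ∧ 0 < cr e (q - p B) := by
  apply exists_halfplane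
  · have := R.hA
    rw [← Raw.shift] at this
    have e : cr (q - p h) (q - p A) = - cr (q - p h) (p A - q) := by
      rw [← cr_neg_right, neg_sub]
    rw [e]; linarith
  · have := R.hB
    rw [← Raw.shift] at this
    have e : cr (q - p h) (q - p B) = - cr (q - p h) (p B - q) := by
      rw [← cr_neg_right, neg_sub]
    rw [e]; linarith

lemma cr_neg_sub (e x y : ℝ × ℝ) : cr e (x - y) = - cr e (y - x) := by
  rw [← cr_neg_right, neg_sub]

/-- sector at the old host -/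
lemma Raw.sec_h (hG : Good G V p b C) (P : Pend G V p C h A B)
    (R : Raw G V p b C h A B ρ Z q)
    (hsec : ∀ d ∈ C h, ‖d‖ < ρ → p h + d ∈ Out G V p b) {κ₁ : ℝ} (hκ₁ : 0 < κ₁)
    (hn₁ : ‖κ₁ • (p h - p A)‖ < ρ) (hZ : p h + κ₁ • (p h - p A) ∈ Z) :
    ∀ d ∈ C h, 0 < cr (q - p h) d → ‖d‖ < ρ →
      JoinedIn (Gam G V p ∪ Nw q (p h) (p A) (p B))ᶜ b (p h + d) := by
  intro d hd hd1 hd2
  have hC := hG.cone h P.mx
  refine (R.old _ hZ).trans ?_
  apply joined_sector_left hC (ρ := ρ) (fun d hd hn => Out_sub G V p b _ (hsec d hd hn)) R.hA R.hB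
    (hC.sc _ P.cy _ hκ₁) hd hn₁ hd2 _ hd1
  rw [cr_smul_right, cr_neg_sub]
  have := R.hA
  nlinarith

/-- sector at the new vertex -/
lemma Raw.sec_v (hG : Good G V p b C) (P : Pend G V p C h A B)
    (R : Raw G V p b C h A B ρ Z q)
    (hsec : ∀ d ∈ C h, ‖d‖ < ρ → p h + d ∈ Out G V p b) {κ₁ : ℝ} (hκ₁ : 0 < κ₁)
    (hn₁ : ‖κ₁ • (p h - p A)‖ < ρ) (hZ : p h + κ₁ • (p h - p A) ∈ Z)
    {e : ℝ × ℝ} (he : 0 < cr e (q - p h)) (heA : 0 < cr e (q - p A)) (heB : 0 < cr e (q - p B)) :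
    ∃ r > 0, (∀ d : ℝ × ℝ, ‖d‖ < r → q + d ∉ Gam G V p) ∧ ∀ d ∈ Hp e, ‖d‖ < r →
      JoinedIn (Gam G V p ∪ Nw q (p h) (p A) (p B))ᶜ b (q + d) := by
  have hC := hG.cone h P.mx
  have hq := R.q_notMem hsec
  obtain ⟨r, hr, hball⟩ := Metric.isOpen_iff.mp (isClosed_Gam G V p).isOpen_compl q hq
  have hfree : ∀ d : ℝ × ℝ, ‖d‖ < r → q + d ∉ Gam G V p := by
    intro d hd
    have : q + d ∈ Metric.ball q r := by
      rw [Metric.mem_ball, dist_eq_norm, add_sub_cancel_left]; exact hd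
    exact hball this
  refine ⟨r, hr, hfree, fun d hd hdn => ?_⟩
  obtain ⟨κ₀, hκ₀, hκ⟩ := R.hκ
  obtain ⟨τ, hτ, _, hτn⟩ := exists_small (q - p h) hr
  set σ := min τ (κ₀ - 1) with hσ
  have hσ0 : 0 < σ := lt_min hτ (by linarith)
  have hσn : ‖σ • (q - p h)‖ < r := by
    rw [norm_smul, Real.norm_eq_abs, abs_of_pos hσ0]
    rw [norm_smul, Real.norm_eq_abs, abs_of_pos hτ] at hτn
    have : σ * ‖q - p h‖ ≤ τ * ‖q - p h‖ :=
      mul_le_mul_of_nonneg_right (min_le_left _ _) (norm_nonneg _)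
    linarith
  have hcr : 0 < cr (q - p h) (κ₁ • (p h - p A)) := by
    rw [cr_smul_right, cr_neg_sub]
    have := R.hA
    nlinarith
  have j1 : JoinedIn (Gam G V p ∪ Nw q (p h) (p A) (p B))ᶜ (p h + (1 + σ) • (q - p h))
      (p h + κ₁ • (p h - p A)) := by
    apply joined_sector_ray hC (ρ := ρ) (fun d hd hn => Out_sub G V p b _ (hsec d hd hn)) R.hA R.hB
      (by linarith) R.hD (hC.sc _ P.cy _ hκ₁) _ hn₁ hcr
    apply hκ _ (by linarith)
    have := min_le_right τ (κ₀ - 1)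
    linarith
  have e1 : p h + (1 + σ) • (q - p h) = q + σ • (q - p h) := by
    rw [add_smul, one_smul]; abel
  rw [e1] at j1
  refine ((R.old _ hZ).trans j1.symm).trans ?_
  apply joined_halfdisc hfree (e := e)
  · rw [cr_neg_sub]; linarith
  · rw [cr_neg_sub]; linarith
  · rw [cr_neg_sub]; linarith
  · exact hσn
  · exact hdn
  · rw [cr_smul_right]; positivity
  · exact hd

/-- witnesses for the non-edges between the new vertex and neighbours of the host -/
lemma Raw.wit {r : ℝ} (hr : 0 < r)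
    (hfree : ∀ d : ℝ × ℝ, ‖d‖ < r → q + d ∉ Gam G V p) {e : ℝ × ℝ}
    (hsv : ∀ d ∈ Hp e, ‖d‖ < r →
      JoinedIn (Gam G V p ∪ Nw q (p h) (p A) (p B))ᶜ b (q + d))
    (heA : 0 < cr e (q - p A)) {e' : ℝ × ℝ} (h1 : cr e' (p h - q) ≤ 0)
    (h2 : cr e' (p A - q) < 0) (h3 : cr e' (p B - q) ≤ 0) {t : W}
    (ht : 0 < cr e' (p t - q)) :
    ∃ z ∈ segment ℝ q (p t), JoinedIn (Gam G V p ∪ Nw q (p h) (p A) (p B))ᶜ b z := by
  obtain ⟨κ, hκ, hκ1, hκn⟩ := exists_small (p t - q) hr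
  obtain ⟨κ', hκ', _, hκn'⟩ := exists_small (q - p A) hr
  refine ⟨q + κ • (p t - q), ?_, ?_⟩
  · rw [segment_eq_image']
    exact ⟨κ, ⟨hκ.le, hκ1⟩, rfl⟩
  · have hmem : κ' • (q - p A) ∈ Hp e := (cone_Hp e).sc _ heA _ hκ'
    refine (hsv _ hmem hκn').trans ?_
    apply joined_halfdisc hfree (e := e') h1 h2.le h3 hκn' hκn
    · rw [cr_smul_right, cr_neg_sub]; nlinarith
    · rw [cr_smul_right]; positivity

end

variable [DecidableEq W]

/-- the new cones -/
noncomputable def newC (C : W → Set (ℝ × ℝ)) (h v : W) (D e : ℝ × ℝ) : W → Set (ℝ × ℝ) :=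
  Function.update (Function.update C h (C h ∩ Hp D)) v (Hp e)

lemma newC_v (C : W → Set (ℝ × ℝ)) (h v : W) (D e : ℝ × ℝ) : newC C h v D e v = Hp e :=
  Function.update_self _ _ _

lemma newC_h (C : W → Set (ℝ × ℝ)) {h v : W} (D e : ℝ × ℝ) (hne : h ≠ v) :
    newC C h v D e h = C h ∩ Hp D := by
  unfold newC
  rw [Function.update_of_ne hne, Function.update_self]

lemma newC_o (C : W → Set (ℝ × ℝ)) {h v x : W} (D e : ℝ × ℝ) (hv : x ≠ v) (hh : x ≠ h) :
    newC C h v D e x = C x := by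
  unfold newC
  rw [Function.update_of_ne hv, Function.update_of_ne hh]

/-- the main insertion step -/
theorem insert_good (hG : Good G V p b C) {v h A B : W} (hv : v ∉ V) (hAB : A ≠ B)
    (hadj : ∀ t ∈ V, G.Adj v t ↔ (t = h ∨ t = A ∨ t = B)) (P : Pend G V p C h A B) :
    ∃ ρ Z q e, Raw G V p b C h A B ρ Z q ∧ 0 < cr e (q - p h) ∧ 0 < cr e (q - p A) ∧
      0 < cr e (q - p B) ∧
      Good G (insert v V) (Function.update p v q) b (newC C h v (q - p h) e) := by
  obtain ⟨ρ, hρ, hsec⟩ := hG.sec h P.mx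
  have hC := hG.cone h P.mx
  obtain ⟨κ₁, hκ₁, _, hn₁⟩ := exists_small (p h - p A) hρ
  classical
  -- witnesses of the old non-edges
  have hw : ∀ x y : W, ∃ z : ℝ × ℝ, (x ∈ V ∧ y ∈ V ∧ x ≠ y ∧ ¬ G.Adj x y) →
      (z ∈ segment ℝ (p x) (p y) ∧ z ∈ Out G V p b) := by
    intro x y
    by_cases hxy : x ∈ V ∧ y ∈ V ∧ x ≠ y ∧ ¬ G.Adj x y
    · obtain ⟨z, hz1, hz2⟩ := hG.non x hxy.1 y hxy.2.1 hxy.2.2.1 hxy.2.2.2
      exact ⟨z, fun _ => ⟨hz1, hz2⟩⟩
    · exact ⟨0, fun h' => absurd h' hxy⟩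
  choose w hw using hw
  set q₁ := p h + κ₁ • (p h - p A) with hq₁
  set Z : Finset (ℝ × ℝ) := insert q₁ ((((V ×ˢ V).filter
    fun s => s.1 ≠ s.2 ∧ ¬ G.Adj s.1 s.2)).image fun s => w s.1 s.2) with hZd
  have hZ : ∀ z ∈ Z, z ∈ Out G V p b := by
    intro z hz
    rw [hZd, Finset.mem_insert, Finset.mem_image] at hz
    rcases hz with rfl | ⟨s, hs, rfl⟩
    · exact hsec _ (hC.sc _ P.cy _ hκ₁) hn₁
    · rw [Finset.mem_filter, Finset.mem_product] at hs
      exact (hw _ _ ⟨hs.1.1, hs.1.2, hs.2.1, hs.2.2⟩).2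
  obtain ⟨q, R⟩ := exists_raw hG P hAB hρ Z hZ
  obtain ⟨e, he, heA, heB⟩ := R.exists_e
  have hZ1 : q₁ ∈ Z := by rw [hZd]; exact Finset.mem_insert_self _ _
  obtain ⟨r, hr, hfree, hsv⟩ := R.sec_v hG P hsec hκ₁ hn₁ hZ1 he heA heB
  have hsh := R.sec_h hG P hsec hκ₁ hn₁ hZ1
  have hq := R.q_notMem hsec
  have hGam := Gam_insert G V p q hv P.mx P.my P.mz hadj
  have hp : ∀ x ∈ V, Function.update p v q x = p x := fun x hx =>
    Function.update_of_ne (fun e' : x = v => hv (e' ▸ hx)) _ _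
  have hne : ∀ x ∈ V, x ≠ v := fun x hx e' => hv (e' ▸ hx)
  have hOut : ∀ z, JoinedIn (Gam G V p ∪ Nw q (p h) (p A) (p B))ᶜ b z →
      z ∈ Out G (insert v V) (Function.update p v q) b := by
    intro z hz
    change JoinedIn (Gam G (insert v V) (Function.update p v q))ᶜ b z
    rw [hGam]; exact hz
  refine ⟨ρ, Z, q, e, R, he, heA, heB, ?_, ?_, ?_, ?_, ?_⟩
  · -- injectivity
    intro x hx y hy hxy
    rw [Finset.mem_insert] at hx hy
    rcases hx with rfl | hx
    · rcases hy with rfl | hy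
      · exact absurd rfl hxy
      · rw [Function.update_self, hp y hy]
        intro e'
        exact hq (e' ▸ mem_Gam_self hy)
    · rcases hy with rfl | hy
      · rw [Function.update_self, hp x hx]
        intro e'
        exact hq (e' ▸ mem_Gam_self hx)
      · rw [hp x hx, hp y hy]; exact hG.inj x hx y hy hxy
  · -- general position
    intro x hx y hy z hz hxy hyz hxz
    rw [Finset.mem_insert] at hx hy hz
    change ori _ _ _ ≠ 0
    rcases hx with rfl | hx
    · have hy := hy.resolve_left (Ne.symm hxy)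
      have hz := hz.resolve_left (Ne.symm hxz)
      rw [Function.update_self, hp y hy, hp z hz, ori_rot, ori_swap]
      exact neg_ne_zero.mpr (R.gp_q hG P hy hz hyz)
    · rcases hy with rfl | hy
      · have hz := hz.resolve_left (Ne.symm hyz)
        rw [Function.update_self, hp x hx, hp z hz]
        exact R.gp_q hG P hx hz hxz
      · rcases hz with rfl | hz
        · rw [Function.update_self, hp x hx, hp y hy, ori_swap]
          exact neg_ne_zero.mpr (R.gp_q hG P hx hy hxy)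
        · rw [hp x hx, hp y hy, hp z hz]
          exact hG.gp x hx y hy z hz hxy hyz hxz
  · -- cones
    intro x hx
    rw [Finset.mem_insert] at hx
    rcases hx with rfl | hx
    · rw [newC_v]; exact cone_Hp e
    · by_cases hxh : x = h
      · subst hxh
        rw [newC_h _ _ _ (hne _ hx)]
        exact hC.inter (cone_Hp _)
      · rw [newC_o _ _ _ (hne _ hx) hxh]; exact hG.cone x hx
  · -- sectors
    intro x hx
    rw [Finset.mem_insert] at hx
    rcases hx with rfl | hx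
    · rw [newC_v, Function.update_self]
      exact ⟨r, hr, fun d hd hdn => hOut _ (hsv d hd hdn)⟩
    · rw [hp x hx]
      by_cases hxh : x = h
      · subst hxh
        rw [newC_h _ _ _ (hne _ hx)]
        exact ⟨ρ, hρ, fun d hd hdn => hOut _ (hsh d hd.1 hd.2 hdn)⟩
      · rw [newC_o _ _ _ (hne _ hx) hxh]
        obtain ⟨ρ', hρ', hs⟩ := R.se x hx hxh
        exact ⟨ρ', hρ', fun d hd hdn => hOut _ (hs d hd hdn)⟩
  · -- non-edges
    have key : ∀ t ∈ V, ¬ G.Adj v t → ∃ z ∈ segment ℝ q (p t),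
        JoinedIn (Gam G V p ∪ Nw q (p h) (p A) (p B))ᶜ b z := by
      intro t ht hnadj
      have htn : ¬ (t = h ∨ t = A ∨ t = B) := fun h' => hnadj ((hadj t ht).mpr h')
      push Not at htn
      by_cases hth : G.Adj h t
      · rcases P.pair t ht hth htn.2.1 htn.2.2 with h1 | h1
        · have h2 := (R.sg t ht htn.1 htn.2.1).1 h1
          apply Raw.wit hr hfree hsv heA (e' := q - p h)
          · rw [Raw.shift, sub_self]; simp [cr]
          · rw [Raw.shift]; exact R.hA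
          · rw [Raw.shift]; exact R.hB.le
          · rw [Raw.shift]; exact h2
        · apply Raw.wit hr hfree hsv heA (e' := p B - q)
          · exact R.hBD.le
          · rw [cr_comm]; linarith [R.hAB]
          · rw [cr_self]
          · exact R.hBt t ht h1
      · exact R.nn t ht htn.1 hth
    intro x hx y hy hxy hnadj
    rw [Finset.mem_insert] at hx hy
    rcases hx with rfl | hx
    · have hy := hy.resolve_left (Ne.symm hxy)
      rw [Function.update_self, hp y hy]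
      obtain ⟨z, hz1, hz2⟩ := key y hy hnadj
      exact ⟨z, hz1, hOut z hz2⟩
    · rcases hy with rfl | hy
      · rw [Function.update_self, hp x hx]
        obtain ⟨z, hz1, hz2⟩ := key x hx (fun h' => hnadj h'.symm)
        rw [segment_symm] at hz1
        exact ⟨z, hz1, hOut z hz2⟩
      · rw [hp x hx, hp y hy]
        refine ⟨w x y, (hw x y ⟨hx, hy, hxy, hnadj⟩).1, hOut _ (R.old _ ?_)⟩
        rw [hZd, Finset.mem_insert, Finset.mem_image]
        right
        refine ⟨(x, y), ?_, rfl⟩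
        rw [Finset.mem_filter, Finset.mem_product]
        exact ⟨⟨hx, hy⟩, hxy, hnadj⟩

end Pool.Agent.Helper12.Apo
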