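import Pool.Agent.Helper12.Apo.Out

/-!
Local geometry of one insertion: the point `q` is put close to `h`, behind `h` on the line
`A h` and a little to the left, and is joined to `h`, `A`, `B`.
-/

set_option autoImplicit false

namespace Pool.Agent.Helper12.Apo

open Set Filter Topology

lemma notMem_Nw_side {q h A B e d : ℝ × ℝ} (h1 : cr e (h - q) ≤ 0) (h2 : cr e (A - q) ≤ 0)
    (h3 : cr e (B - q) ≤ 0) (hd : 0 < cr e d) : q + d ∉ Nw q h A B := by
  intro hm
  obtain ⟨y, hy, θ, h0, _, hz⟩ := mem_Nw.mp hm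
  have hd' : d = θ • (y - q) := add_left_cancel hz
  rw [hd', cr_smul_right] at hd
  have : cr e (y - q) ≤ 0 := by
    rcases hy with rfl | rfl | rfl <;> assumption
  nlinarith

/-- points strictly to the left of the directed line `h q` are not on new segments -/
lemma notMem_Nw_left {q h A B z : ℝ × ℝ} (hA : cr (q - h) (A - h) < 0)
    (hB : cr (q - h) (B - h) < 0) (hz : 0 < cr (q - h) (z - h)) : z ∉ Nw q h A B := by
  have e1 : z = q + (z - q) := by abel
  rw [e1]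
  have t : ∀ y : ℝ × ℝ, cr (q - h) (y - q) = cr (q - h) (y - h) := by
    intro y
    have : y - q = (y - h) - (q - h) := by abel
    rw [this, cr_sub_right, cr_self, sub_zero]
  apply notMem_Nw_side (e := q - h)
  · rw [t, sub_self]
    simp [cr]
  · rw [t]; exact hA.le
  · rw [t]; exact hB.le
  · rw [t]; exact hz

lemma notMem_Nw_ray {q h A B : ℝ × ℝ} (hA : cr (q - h) (A - h) < 0)
    (hB : cr (q - h) (B - h) < 0) {s : ℝ} (hs : 1 < s) : h + s • (q - h) ∉ Nw q h A B := by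
  intro hm
  obtain ⟨y, hy, θ, h0, _, hz⟩ := mem_Nw.mp hm
  have hne : q - h ≠ 0 := by
    intro h0
    rw [h0] at hA
    simp [cr] at hA
  have hz' : (s - 1) • (q - h) = θ • (y - q) := by
    have : h + s • (q - h) = q + (s - 1) • (q - h) := by
      ext <;> simp only [Prod.fst_add, Prod.snd_add, Prod.fst_sub, Prod.snd_sub, Prod.smul_fst,
        Prod.smul_snd, smul_eq_mul] <;> ring
    rw [this] at hz
    exact add_left_cancel hz
  have hc : θ * cr (q - h) (y - q) = 0 := by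
    rw [← cr_smul_right, ← hz', cr_smul_right, cr_self, mul_zero]
  have t : ∀ y : ℝ × ℝ, cr (q - h) (y - q) = cr (q - h) (y - h) := by
    intro y
    have : y - q = (y - h) - (q - h) := by abel
    rw [this, cr_sub_right, cr_self, sub_zero]
  have hpos : ∀ y, cr (q - h) (y - h) < 0 → θ * cr (q - h) (y - q) = 0 → False := by
    intro y hy hc
    rw [t] at hc
    rcases mul_eq_zero.mp hc with h1 | h1
    · subst h1
      rw [zero_smul] at hz'
      rcases smul_eq_zero.mp hz' with h2 | h2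
      · linarith
      · exact hne h2
    · linarith
  rcases hy with rfl | rfl | rfl
  · have : (s - 1 + θ) • (q - y) = 0 := by
      rw [add_smul, hz', ← smul_add]
      have : y - q + (q - y) = 0 := by abel
      rw [this, smul_zero]
    rcases smul_eq_zero.mp this with h2 | h2
    · linarith
    · exact hne h2
  · exact hpos _ hA hc
  · exact hpos _ hB hc

lemma joinedIn_of_conv {F : Set (ℝ × ℝ)} {x y : ℝ × ℝ}
    (h : ∀ s t : ℝ, 0 ≤ s → 0 ≤ t → s + t = 1 → s • x + t • y ∈ F) : JoinedIn F x y := by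
  apply JoinedIn.of_segment_subset
  rintro z ⟨s, t, hs, ht, hst, rfl⟩
  exact h s t hs ht hst

lemma norm_conv_lt {x y : ℝ × ℝ} {r : ℝ} (hx : ‖x‖ < r) (hy : ‖y‖ < r) {s t : ℝ} (hs : 0 ≤ s)
    (ht : 0 ≤ t) (hst : s + t = 1) : ‖s • x + t • y‖ < r := by
  have hx' : x ∈ Metric.ball (0 : ℝ × ℝ) r := by simpa using hx
  have hy' : y ∈ Metric.ball (0 : ℝ × ℝ) r := by simpa using hy
  have := (convex_ball (0 : ℝ × ℝ) r) hx' hy' hs ht hst
  simpa using this

lemma conv_shift (c x y : ℝ × ℝ) {s t : ℝ} (hst : s + t = 1) :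
    s • (c + x) + t • (c + y) = c + (s • x + t • y) := by
  have : t = 1 - s := by linarith
  subst this
  ext <;> simp only [Prod.fst_add, Prod.snd_add, Prod.smul_fst, Prod.smul_snd, smul_eq_mul] <;> ring

/-- inside a sector, within the half plane to the left of the line `h q` -/
lemma joined_sector_left {Γ : Set (ℝ × ℝ)} {K : Set (ℝ × ℝ)} (hK : Cone K) {q h A B : ℝ × ℝ}
    {ρ : ℝ} (hsec : ∀ d ∈ K, ‖d‖ < ρ → h + d ∉ Γ) (hA : cr (q - h) (A - h) < 0)
    (hB : cr (q - h) (B - h) < 0) {d₁ d₂ : ℝ × ℝ} (h₁ : d₁ ∈ K) (h₂ : d₂ ∈ K) (n₁ : ‖d₁‖ < ρ)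
    (n₂ : ‖d₂‖ < ρ) (c₁ : 0 < cr (q - h) d₁) (c₂ : 0 < cr (q - h) d₂) :
    JoinedIn (Γ ∪ Nw q h A B)ᶜ (h + d₁) (h + d₂) := by
  apply joinedIn_of_conv
  intro s t hs ht hst
  rw [conv_shift _ _ _ hst]
  rintro (hm | hm)
  · exact hsec _ (hK.segment h₁ h₂ hs ht hst) (norm_conv_lt n₁ n₂ hs ht hst) hm
  · refine notMem_Nw_left hA hB ?_ hm
    rw [add_sub_cancel_left, cr_add_right, cr_smul_right, cr_smul_right]
    rcases hs.eq_or_lt with hs | hs
    · subst hs
      have : t = 1 := by linarith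
      subst this
      simpa using c₂
    · have := mul_pos hs c₁
      have := mul_nonneg ht c₂.le
      linarith

/-- the point behind `q` on the ray `h q` is joined to the left part of the sector -/
lemma joined_sector_ray {Γ : Set (ℝ × ℝ)} {K : Set (ℝ × ℝ)} (hK : Cone K) {q h A B : ℝ × ℝ}
    {ρ : ℝ} (hsec : ∀ d ∈ K, ‖d‖ < ρ → h + d ∉ Γ) (hA : cr (q - h) (A - h) < 0)
    (hB : cr (q - h) (B - h) < 0) {κ : ℝ} (hκ : 1 < κ) {d₂ : ℝ × ℝ} (h₁ : q - h ∈ K) (h₂ : d₂ ∈ K)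
    (n₁ : ‖κ • (q - h)‖ < ρ) (n₂ : ‖d₂‖ < ρ) (c₂ : 0 < cr (q - h) d₂) :
    JoinedIn (Γ ∪ Nw q h A B)ᶜ (h + κ • (q - h)) (h + d₂) := by
  apply joinedIn_of_conv
  intro s t hs ht hst
  rw [conv_shift _ _ _ hst]
  have hκK : κ • (q - h) ∈ K := hK.sc _ h₁ _ (by linarith)
  rintro (hm | hm)
  · exact hsec _ (hK.segment hκK h₂ hs ht hst) (norm_conv_lt n₁ n₂ hs ht hst) hm
  · rcases ht.eq_or_lt with ht | ht
    · subst ht
      have : s = 1 := by linarith
      subst this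
      rw [one_smul, zero_smul, add_zero] at hm
      exact notMem_Nw_ray hA hB hκ hm
    · refine notMem_Nw_left hA hB ?_ hm
      rw [add_sub_cancel_left, cr_add_right, cr_smul_right, cr_smul_right, cr_smul_right, cr_self]
      have := mul_pos ht c₂
      linarith

/-- inside a half disc at `q` -/
lemma joined_halfdisc {Γ : Set (ℝ × ℝ)} {q h A B e : ℝ × ℝ} {r : ℝ}
    (hball : ∀ d : ℝ × ℝ, ‖d‖ < r → q + d ∉ Γ) (h1 : cr e (h - q) ≤ 0) (h2 : cr e (A - q) ≤ 0)
    (h3 : cr e (B - q) ≤ 0) {d₁ d₂ : ℝ × ℝ} (n₁ : ‖d₁‖ < r) (n₂ : ‖d₂‖ < r) (c₁ : 0 < cr e d₁)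
    (c₂ : 0 < cr e d₂) : JoinedIn (Γ ∪ Nw q h A B)ᶜ (q + d₁) (q + d₂) := by
  apply joinedIn_of_conv
  intro s t hs ht hst
  rw [conv_shift _ _ _ hst]
  rintro (hm | hm)
  · exact hball _ (norm_conv_lt n₁ n₂ hs ht hst) hm
  · refine notMem_Nw_side h1 h2 h3 ?_ hm
    have hc := (cone_Hp e).segment (show d₁ ∈ Hp e from c₁) (show d₂ ∈ Hp e from c₂) hs ht hst
    exact hc

/-- a half plane containing three given directions -/
lemma exists_halfplane {D a b : ℝ × ℝ} (ha : 0 < cr D a) (hb : 0 < cr D b) :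
    ∃ e : ℝ × ℝ, 0 < cr e D ∧ 0 < cr e a ∧ 0 < cr e b := by
  -- e = D - κ a
  have h1 : ∀ κ : ℝ, cr (D - κ • a) D = κ * cr D a := by
    intro κ; rw [cr_sub_left, cr_self, cr_smul_left, cr_comm a D]; ring
  have h2 : ∀ κ : ℝ, cr (D - κ • a) a = cr D a := by
    intro κ; rw [cr_sub_left, cr_smul_left, cr_self]; ring
  have h3 : ∀ κ : ℝ, cr (D - κ • a) b = cr D b - κ * cr a b := by
    intro κ; rw [cr_sub_left, cr_smul_left]
  refine ⟨D - (cr D b / (2 * (|cr a b| + 1))) • a, ?_, ?_, ?_⟩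
  · rw [h1]; positivity
  · rw [h2]; exact ha
  · rw [h3]
    have hpos : 0 < |cr a b| + 1 := by positivity
    have : cr D b / (2 * (|cr a b| + 1)) * cr a b ≤ cr D b / 2 := by
      rw [div_mul_eq_mul_div, div_le_div_iff₀ (by positivity) (by norm_num)]
      nlinarith [le_abs_self (cr a b)]
    linarith

lemma exists_small (d : ℝ × ℝ) {r : ℝ} (hr : 0 < r) : ∃ κ : ℝ, 0 < κ ∧ κ ≤ 1 ∧ ‖κ • d‖ < r := by
  refine ⟨min 1 (r / (2 * (‖d‖ + 1))), ?_, min_le_left _ _, ?_⟩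
  · positivity
  · rw [norm_smul, Real.norm_eq_abs, abs_of_nonneg (by positivity)]
    have : min 1 (r / (2 * (‖d‖ + 1))) * ‖d‖ ≤ r / (2 * (‖d‖ + 1)) * ‖d‖ :=
      mul_le_mul_of_nonneg_right (min_le_right _ _) (norm_nonneg _)
    have h2 : r / (2 * (‖d‖ + 1)) * ‖d‖ < r := by
      rw [div_mul_eq_mul_div, div_lt_iff₀ (by positivity)]
      nlinarith [norm_nonneg d]
    linarith

end Pool.Agent.Helper12.Apo
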