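import Pool.Agent.Helper12.Apo.Cross

/-!
The drawing of a finite part of a graph, and the path component of its complement that
contains a base point; stability of this component under small perturbations.
-/

set_option autoImplicit false

namespace Pool.Agent.Helper12.Apo

open Set Filter Topology

variable {W : Type*}

/-- the union of all drawn vertices and edges -/
def Gam (G : SimpleGraph W) (V : Finset W) (p : W → ℝ × ℝ) : Set (ℝ × ℝ) :=
  {z | ∃ x ∈ V, ∃ y ∈ V, (x = y ∨ G.Adj x y) ∧ z ∈ segment ℝ (p x) (p y)}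

/-- the path component of the complement of the drawing containing `b` -/
def Out (G : SimpleGraph W) (V : Finset W) (p : W → ℝ × ℝ) (b : ℝ × ℝ) : Set (ℝ × ℝ) :=
  {z | JoinedIn (Gam G V p)ᶜ b z}

lemma segment_cpt (x y : ℝ × ℝ) : IsCompact (segment ℝ x y) := by
  rw [segment_eq_image']
  exact isCompact_Icc.image (by fun_prop)

lemma isClosed_Gam (G : SimpleGraph W) (V : Finset W) (p : W → ℝ × ℝ) : IsClosed (Gam G V p) := by
  have h : Gam G V p = ⋃ x ∈ V, ⋃ y ∈ V, ⋃ (_ : x = y ∨ G.Adj x y), segment ℝ (p x) (p y) := by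
    ext z
    simp only [Gam, mem_ofPred_eq, mem_iUnion, exists_prop]
  rw [h]
  refine isClosed_biUnion_finset fun x _ => isClosed_biUnion_finset fun y _ => ?_
  exact isClosed_iUnion_of_finite fun _ => (segment_cpt _ _).isClosed

lemma Out_sub (G : SimpleGraph W) (V : Finset W) (p : W → ℝ × ℝ) (b z : ℝ × ℝ)
    (hz : z ∈ Out G V p b) : z ∉ Gam G V p := by
  have : JoinedIn (Gam G V p)ᶜ b z := hz
  exact this.target_mem

lemma Out_preconnected (G : SimpleGraph W) (V : Finset W) (p : W → ℝ × ℝ) (b : ℝ × ℝ) :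
    IsPreconnected (Out G V p b) := by
  by_cases hb : b ∈ (Gam G V p)ᶜ
  · exact (isPathConnected_pathComponentIn hb).isConnected.isPreconnected
  · have : Out G V p b = ∅ := by
      ext z
      simp only [mem_empty_iff_false, iff_false]
      intro hz
      have : JoinedIn (Gam G V p)ᶜ b z := hz
      exact hb this.source_mem
    rw [this]
    exact isPreconnected_empty

lemma joinedIn_pert {Γ : Set (ℝ × ℝ)} (hΓ : IsClosed Γ) {b z : ℝ × ℝ} (hz : JoinedIn Γᶜ b z) :
    ∃ δ > 0, ∀ N : Set (ℝ × ℝ), (∀ x ∈ N, ∃ y ∈ Γ, dist x y < δ) → JoinedIn (Γ ∪ N)ᶜ b z := by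
  obtain ⟨γ, hγ⟩ := hz
  have hK : IsCompact (range γ) := isCompact_range γ.continuous
  have hd : Disjoint (range γ) Γ := by
    rw [Set.disjoint_left]
    rintro _ ⟨t, rfl⟩ ht
    exact hγ t ht
  obtain ⟨δ, hδ, hdis⟩ := hd.exists_thickenings hK hΓ
  refine ⟨δ, hδ, fun N hN => ⟨γ, fun t ht => ?_⟩⟩
  rcases ht with ht | ht
  · exact hγ t ht
  · obtain ⟨y, hy, hxy⟩ := hN _ ht
    refine Set.disjoint_left.mp hdis (Metric.self_subset_thickening hδ _ ⟨t, rfl⟩) ?_
    exact Metric.mem_thickening_iff.mpr ⟨y, hy, hxy⟩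

/-- the three new segments -/
def Nw (q h A B : ℝ × ℝ) : Set (ℝ × ℝ) := segment ℝ q h ∪ segment ℝ q A ∪ segment ℝ q B

lemma mem_Nw {q h A B z : ℝ × ℝ} :
    z ∈ Nw q h A B ↔ ∃ y, (y = h ∨ y = A ∨ y = B) ∧ ∃ θ : ℝ, 0 ≤ θ ∧ θ ≤ 1 ∧ z = q + θ • (y - q) := by
  unfold Nw
  simp only [segment_eq_image', mem_union, mem_image, mem_Icc]
  constructor
  · rintro ((⟨θ, ⟨h0, h1⟩, rfl⟩ | ⟨θ, ⟨h0, h1⟩, rfl⟩) | ⟨θ, ⟨h0, h1⟩, rfl⟩)
    · exact ⟨h, Or.inl rfl, θ, h0, h1, rfl⟩
    · exact ⟨A, Or.inr (Or.inl rfl), θ, h0, h1, rfl⟩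
    · exact ⟨B, Or.inr (Or.inr rfl), θ, h0, h1, rfl⟩
  · rintro ⟨y, hy, θ, h0, h1, rfl⟩
    rcases hy with rfl | rfl | rfl
    · exact Or.inl (Or.inl ⟨θ, ⟨h0, h1⟩, rfl⟩)
    · exact Or.inl (Or.inr ⟨θ, ⟨h0, h1⟩, rfl⟩)
    · exact Or.inr ⟨θ, ⟨h0, h1⟩, rfl⟩

lemma isClosed_Nw (q h A B : ℝ × ℝ) : IsClosed (Nw q h A B) :=
  (((segment_cpt _ _).union (segment_cpt _ _)).union (segment_cpt _ _)).isClosed

lemma Nw_close {q h A B z : ℝ × ℝ} (hz : z ∈ Nw q h A B) :
    ∃ y ∈ segment ℝ h A ∪ segment ℝ h B, dist z y ≤ dist q h := by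
  obtain ⟨y, hy, θ, h0, h1, rfl⟩ := mem_Nw.mp hz
  have key : dist (q + θ • (y - q)) (h + θ • (y - h)) ≤ dist q h := by
    rw [dist_eq_norm, dist_eq_norm]
    have : q + θ • (y - q) - (h + θ • (y - h)) = (1 - θ) • (q - h) := by
      ext <;> simp only [Prod.fst_add, Prod.snd_add, Prod.fst_sub, Prod.snd_sub, Prod.smul_fst,
        Prod.smul_snd, smul_eq_mul] <;> ring
    rw [this, norm_smul, Real.norm_eq_abs, abs_of_nonneg (by linarith)]
    nlinarith [norm_nonneg (q - h)]
  refine ⟨_, ?_, key⟩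
  simp only [segment_eq_image', mem_union, mem_image, mem_Icc]
  rcases hy with rfl | rfl | rfl
  · exact Or.inl ⟨0, ⟨le_refl _, zero_le_one⟩, by simp⟩
  · exact Or.inl ⟨θ, ⟨h0, h1⟩, rfl⟩
  · exact Or.inr ⟨θ, ⟨h0, h1⟩, rfl⟩

lemma Gam_insert [DecidableEq W] (G : SimpleGraph W) (V : Finset W) (p : W → ℝ × ℝ) {v h A B : W}
    (q : ℝ × ℝ) (hv : v ∉ V) (hh : h ∈ V) (hA : A ∈ V) (hB : B ∈ V)
    (hadj : ∀ t ∈ V, G.Adj v t ↔ (t = h ∨ t = A ∨ t = B)) :
    Gam G (insert v V) (Function.update p v q) = Gam G V p ∪ Nw q (p h) (p A) (p B) := by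
  have hp : ∀ x ∈ V, Function.update p v q x = p x := fun x hx =>
    Function.update_of_ne (fun e : x = v => hv (e ▸ hx)) _ _
  ext z
  constructor
  · rintro ⟨x, hx, y, hy, hxy, hz⟩
    rw [Finset.mem_insert] at hx hy
    rcases hx with rfl | hx
    · rcases hy with rfl | hy
      · rw [Function.update_self] at hz
        right
        rw [segment_same] at hz
        exact Or.inl (Or.inl (by rw [mem_singleton_iff.mp hz]; exact left_mem_segment ℝ _ _))
      · rw [Function.update_self, hp y hy] at hz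
        have hne : x ≠ y := fun e => hv (e ▸ hy)
        have := (hadj y hy).mp (hxy.resolve_left hne)
        right
        rcases this with rfl | rfl | rfl
        · exact Or.inl (Or.inl hz)
        · exact Or.inl (Or.inr hz)
        · exact Or.inr hz
    · rcases hy with rfl | hy
      · rw [Function.update_self, hp x hx] at hz
        have hne : x ≠ y := fun e => hv (e ▸ hx)
        have := (hadj x hx).mp (hxy.resolve_left hne).symm
        rw [segment_symm] at hz
        right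
        rcases this with rfl | rfl | rfl
        · exact Or.inl (Or.inl hz)
        · exact Or.inl (Or.inr hz)
        · exact Or.inr hz
      · rw [hp x hx, hp y hy] at hz
        exact Or.inl ⟨x, hx, y, hy, hxy, hz⟩
  · rintro (⟨x, hx, y, hy, hxy, hz⟩ | hz)
    · refine ⟨x, Finset.mem_insert_of_mem hx, y, Finset.mem_insert_of_mem hy, hxy, ?_⟩
      rwa [hp x hx, hp y hy]
    · have key : ∀ y ∈ V, (y = h ∨ y = A ∨ y = B) → z ∈ segment ℝ q (p y) →
          z ∈ Gam G (insert v V) (Function.update p v q) := by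
        intro y hy hy' hz
        refine ⟨v, Finset.mem_insert_self _ _, y, Finset.mem_insert_of_mem hy,
          Or.inr ((hadj y hy).mpr hy'), ?_⟩
        rwa [Function.update_self, hp y hy]
      rcases hz with (hz | hz) | hz
      · exact key h hh (Or.inl rfl) hz
      · exact key A hA (Or.inr (Or.inl rfl)) hz
      · exact key B hB (Or.inr (Or.inr rfl)) hz

end Pool.Agent.Helper12.Apo
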