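import Pool.Agent.Helper12.Apo.Choose

/-!
The position of the new vertex with all needed properties.
-/

set_option autoImplicit false

namespace Pool.Agent.Helper12.Apo

open Set Filter Topology

variable {W : Type*} {G : SimpleGraph W} {V : Finset W} {p : W → ℝ × ℝ} {b : ℝ × ℝ}
  {C : W → Set (ℝ × ℝ)}

/-- the raw properties of the new position `q` -/
structure Raw (G : SimpleGraph W) (V : Finset W) (p : W → ℝ × ℝ) (b : ℝ × ℝ)
    (C : W → Set (ℝ × ℝ)) (h A B : W) (ρ : ℝ) (Z : Finset (ℝ × ℝ)) (q : ℝ × ℝ) : Prop where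
  hD : q - p h ∈ C h
  hκ : ∃ κ₀ : ℝ, 1 < κ₀ ∧ ∀ κ : ℝ, 0 < κ → κ ≤ κ₀ → ‖κ • (q - p h)‖ < ρ
  hA : cr (q - p h) (p A - p h) < 0
  hB : cr (q - p h) (p B - p h) < 0
  sg : ∀ t ∈ V, t ≠ h → t ≠ A → (cr (p A - p h) (p t - p h) < 0 → 0 < cr (q - p h) (p t - p h)) ∧
    (0 < cr (p A - p h) (p t - p h) → cr (q - p h) (p t - p h) < 0)
  ord : ∀ x ∈ V, ∀ y ∈ V, (0 < cr (p h - p x) (p y - p x) → 0 < cr (q - p x) (p y - p x)) ∧
    (cr (p h - p x) (p y - p x) < 0 → cr (q - p x) (p y - p x) < 0)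
  lA : p A - q ∈ C A
  lB : p B - q ∈ C B
  hAB : 0 < cr (p A - q) (p B - q)
  hBt : ∀ t ∈ V, 0 < cr (p B - p h) (p t - p h) → 0 < cr (p B - q) (p t - q)
  old : ∀ z ∈ Z, JoinedIn (Gam G V p ∪ Nw q (p h) (p A) (p B))ᶜ b z
  nn : ∀ t ∈ V, t ≠ h → ¬ G.Adj h t → ∃ z ∈ segment ℝ q (p t),
    JoinedIn (Gam G V p ∪ Nw q (p h) (p A) (p B))ᶜ b z
  se : ∀ x ∈ V, x ≠ h → ∃ ρ' > 0, ∀ d ∈ C x, ‖d‖ < ρ' →
    JoinedIn (Gam G V p ∪ Nw q (p h) (p A) (p B))ᶜ b (p x + d)

lemma exists_raw (hG : Good G V p b C) {h A B : W} (P : Pend G V p C h A B) (hAB : A ≠ B)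
    {ρ : ℝ} (hρ : 0 < ρ) (Z : Finset (ℝ × ℝ)) (hZ : ∀ z ∈ Z, z ∈ Out G V p b) :
    ∃ q, Raw G V p b C h A B ρ Z q := by
  have hhA : h ≠ A := P.axy.ne
  have hhB : h ≠ B := P.axz.ne
  obtain ⟨δ, h1, h2, h3⟩ := exists_eta hG P
  have hC := hG.cone h P.mx
  have hδB : cr δ (p B - p h) < 0 := (h3 B P.mz hhB.symm hAB.symm).2 P.pos
  have e1 : ∀ᶠ ε in 𝓝[>] (0 : ℝ), ‖(2 * ε) • δ‖ < ρ := by
    have hc : Continuous fun ε : ℝ => ‖(2 * ε) • δ‖ := by fun_prop
    have : ∀ᶠ ε in 𝓝 (0 : ℝ), ‖(2 * ε) • δ‖ < ρ := by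
      apply hc.continuousAt.eventually_lt_const
      change ‖(2 * (0 : ℝ)) • δ‖ < ρ
      simpa using hρ
    exact this.filter_mono nhdsWithin_le_nhds
  have e0 : ∀ᶠ ε in 𝓝[>] (0 : ℝ), 0 < ε := eventually_mem_nhdsWithin
  have eord : ∀ᶠ ε in 𝓝[>] (0 : ℝ), ∀ x ∈ V, ∀ y ∈ V,
      (0 < cr (p h - p x) (p y - p x) → 0 < cr (p h + ε • δ - p x) (p y - p x)) ∧
      (cr (p h - p x) (p y - p x) < 0 → cr (p h + ε • δ - p x) (p y - p x) < 0) := by
    rw [Filter.eventually_all_finset]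
    intro x _
    rw [Filter.eventually_all_finset]
    intro y _
    have c1 : Continuous fun z : ℝ × ℝ => cr (z - p x) (p y - p x) :=
      cr_continuous (by fun_prop) continuous_const
    have c2 : Continuous fun z : ℝ × ℝ => - cr (z - p x) (p y - p x) := c1.neg
    rcases lt_trichotomy (cr (p h - p x) (p y - p x)) 0 with hlt | heq | hgt
    · filter_upwards [ev_pos (p h) δ c2 (by simpa using hlt)] with ε hε
      exact ⟨fun h' => absurd h' (not_lt.mpr hlt.le), fun _ => by linarith⟩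
    · filter_upwards with ε
      exact ⟨fun h' => absurd h' (by rw [heq]; exact lt_irrefl _),
        fun h' => absurd h' (by rw [heq]; exact lt_irrefl _)⟩
    · filter_upwards [ev_pos (p h) δ c1 hgt] with ε hε
      exact ⟨fun _ => hε, fun h' => absurd h' (not_lt.mpr hgt.le)⟩
  have live : ∀ x ∈ V, p x - p h ∈ C x → ∀ᶠ ε in 𝓝[>] (0 : ℝ), p x - (p h + ε • δ) ∈ C x := by
    intro x hx hl
    have hCx := hG.cone x hx
    have : ∀ᶠ z in 𝓝 (p h), p x - z ∈ C x := by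
      have hc : Continuous fun z : ℝ × ℝ => p x - z := by fun_prop
      exact hc.continuousAt.eventually (hCx.op.mem_nhds hl)
    exact (tendsto_q (p h) δ).eventually this
  have eAB : ∀ᶠ ε in 𝓝[>] (0 : ℝ), 0 < cr (p A - (p h + ε • δ)) (p B - (p h + ε • δ)) :=
    ev_pos (p h) δ (f := fun z => cr (p A - z) (p B - z))
      (cr_continuous (by fun_prop) (by fun_prop)) P.pos
  have eBt : ∀ᶠ ε in 𝓝[>] (0 : ℝ), ∀ t ∈ V, 0 < cr (p B - p h) (p t - p h) →
      0 < cr (p B - (p h + ε • δ)) (p t - (p h + ε • δ)) := by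
    rw [Filter.eventually_all_finset]
    intro t _
    by_cases ht : 0 < cr (p B - p h) (p t - p h)
    · filter_upwards [ev_pos (p h) δ (f := fun z => cr (p B - z) (p t - z))
        (cr_continuous (by fun_prop) (by fun_prop)) ht] with ε hε _
      exact hε
    · filter_upwards with ε h'
      exact absurd h' ht
  have eold : ∀ᶠ ε in 𝓝[>] (0 : ℝ), ∀ z ∈ Z,
      JoinedIn (Gam G V p ∪ Nw (p h + ε • δ) (p h) (p A) (p B))ᶜ b z := by
    rw [Filter.eventually_all_finset]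
    intro z hz
    exact ev_out P δ (hZ z hz)
  have enn : ∀ᶠ ε in 𝓝[>] (0 : ℝ), ∀ t ∈ V, t ≠ h → ¬ G.Adj h t →
      ∃ z ∈ segment ℝ (p h + ε • δ) (p t),
        JoinedIn (Gam G V p ∪ Nw (p h + ε • δ) (p h) (p A) (p B))ᶜ b z := by
    rw [Filter.eventually_all_finset]
    intro t ht
    by_cases h' : t ≠ h ∧ ¬ G.Adj h t
    · filter_upwards [ev_non P δ (hG.non h P.mx t ht h'.1.symm h'.2)] with ε hε _ _
      exact hε
    · filter_upwards with ε h4 h5
      exact absurd ⟨h4, h5⟩ h'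
  have ese : ∀ᶠ ε in 𝓝[>] (0 : ℝ), ∀ x ∈ V, x ≠ h → ∃ ρ' > 0, ∀ d ∈ C x, ‖d‖ < ρ' →
      JoinedIn (Gam G V p ∪ Nw (p h + ε • δ) (p h) (p A) (p B))ᶜ b (p x + d) := by
    rw [Filter.eventually_all_finset]
    intro x hx
    by_cases hxh : x = h
    · filter_upwards with ε h'
      exact absurd hxh h'
    · by_cases hxA : x = A
      · subst hxA
        filter_upwards [ev_sec_far hG P δ hx P.mz hxh hAB hhB (by
          intro q z hz
          rcases hz with (hz | hz) | hz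
          · exact Or.inr (Or.inl (Or.inl hz))
          · exact Or.inl hz
          · exact Or.inr (Or.inr hz)) P.by'] with ε hε _
        exact hε
      · by_cases hxB : x = B
        · subst hxB
          filter_upwards [ev_sec_far hG P δ hx P.my hxh hAB.symm hhA (by
            intro q z hz
            rcases hz with (hz | hz) | hz
            · exact Or.inr (Or.inl (Or.inl hz))
            · exact Or.inr (Or.inr hz)
            · exact Or.inl hz) P.bz] with ε hε _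
          exact hε
        · filter_upwards [ev_sec_other hG hx P δ hxh hxA hxB] with ε hε _
          exact hε
  obtain ⟨ε, x0, x1, x2, x3, x4, x5, x6, x7, x8, x9⟩ :=
    (e0.and (e1.and (eord.and ((live A P.my P.by').and ((live B P.mz P.bz).and
      (eAB.and (eBt.and (eold.and (enn.and ese))))))))).exists
  have hD : p h + ε • δ - p h = ε • δ := add_sub_cancel_left _ _
  refine ⟨p h + ε • δ, ?_, ?_, ?_, ?_, ?_, x2, x3, x4, x5, x6, x7, x8, x9⟩
  · rw [hD]; exact hC.sc _ h1 ε x0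
  · refine ⟨2, by norm_num, fun κ hκ hκ2 => ?_⟩
    rw [hD, smul_smul, norm_smul, Real.norm_eq_abs, abs_of_pos (by positivity)]
    rw [norm_smul, Real.norm_eq_abs, abs_of_pos (by positivity)] at x1
    have : κ * ε * ‖δ‖ ≤ 2 * ε * ‖δ‖ := by
      apply mul_le_mul_of_nonneg_right _ (norm_nonneg _)
      exact mul_le_mul_of_nonneg_right hκ2 x0.le
    linarith
  · rw [hD, cr_smul_left]; nlinarith
  · rw [hD, cr_smul_left]; nlinarith
  · intro t ht hth htA
    have := h3 t ht hth htA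
    rw [hD, cr_smul_left]
    exact ⟨fun h' => mul_pos x0 (this.1 h'), fun h' => by nlinarith [this.2 h']⟩

end Pool.Agent.Helper12.Apo
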