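import Pool.Agent.Helper12.Apo.Embed
import Pool.Agent.Helper12.Apo.Base
import Pool.Agent.Helper94.OPC.RAD
import Pool.Agent.Helper94.OPC.EXT
import Pool.Agent.Helper74.OPC.K5
import Pool.Agent.Helper21.OPC.K33

/-!
Planar chordal graphs have obstacle number at most one.
-/

set_option autoImplicit false

namespace Pool.Agent.Helper12.Apo

open Pool.Agent.Helper58.T3

/-- planarity: vertices are distinct points, edges are arcs which meet only in common ends -/
def IsPlanar {V : Type} (G : SimpleGraph V) : Prop :=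
  ∃ (p : V → ℝ × ℝ) (γ : ∀ u v : V, Path (p u) (p v)),
    Function.Injective p ∧
    (∀ u v : V, G.Adj u v → Function.Injective ⇑(γ u v)) ∧
    (∀ u v w : V, G.Adj u v → p w ∈ Set.range ⇑(γ u v) → w = u ∨ w = v) ∧
    (∀ u v w x : V, G.Adj u v → G.Adj w x → ¬ (w = u ∧ x = v) → ¬ (w = v ∧ x = u) →
      ∀ z : ℝ × ℝ, z ∈ Set.range ⇑(γ u v) → z ∈ Set.range ⇑(γ w x) →
        z = p u ∨ z = p v)

lemma joined_range {a b : ℝ × ℝ} (γ : Path a b) : JoinedIn (Set.range ⇑γ) a b :=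
  ⟨γ, fun t => ⟨t, rfl⟩⟩

/-- independent edges of a planar drawing are disjoint -/
lemma planar_disj {V : Type} {G : SimpleGraph V} {p : V → ℝ × ℝ}
    {γ : ∀ u v : V, Path (p u) (p v)} (hp : Function.Injective p)
    (h : ∀ u v w x : V, G.Adj u v → G.Adj w x → ¬ (w = u ∧ x = v) → ¬ (w = v ∧ x = u) →
      ∀ z : ℝ × ℝ, z ∈ Set.range ⇑(γ u v) → z ∈ Set.range ⇑(γ w x) → z = p u ∨ z = p v)
    {u v w x : V} (h1 : G.Adj u v) (h2 : G.Adj w x) (huw : u ≠ w) (hux : u ≠ x) (hvw : v ≠ w)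
    (hvx : v ≠ x) {z : ℝ × ℝ} (z1 : z ∈ Set.range ⇑(γ u v)) (z2 : z ∈ Set.range ⇑(γ w x)) :
    False := by
  have e1 := h u v w x h1 h2 (fun e => huw e.1.symm) (fun e => hvw e.1.symm) z z1 z2
  have e2 := h w x u v h2 h1 (fun e => huw e.1) (fun e => hux e.1) z z2 z1
  rcases e1 with e1 | e1 <;> rcases e2 with e2 | e2
  · exact huw (hp (e1.symm.trans e2))
  · exact hux (hp (e1.symm.trans e2))
  · exact hvw (hp (e1.symm.trans e2))
  · exact hvx (hp (e1.symm.trans e2))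

lemma planar_K5 {V : Type} {G : SimpleGraph V} (hG : IsPlanar G) (T : Finset V)
    (hT : T.card = 5) (hc : ∀ x ∈ T, ∀ y ∈ T, x ≠ y → G.Adj x y) : False := by
  obtain ⟨p, γ, hp, -, -, h⟩ := hG
  obtain ⟨e⟩ : Nonempty (Fin 5 ≃ T) := ⟨(Finset.equivFinOfCardEq hT).symm⟩
  have hne : ∀ i j : Fin 5, i ≠ j → (e i : V) ≠ e j := fun i j hij h' =>
    hij (e.injective (Subtype.ext h'))
  have hadj : ∀ i j : Fin 5, i ≠ j → G.Adj (e i) (e j) := fun i j hij =>
    hc _ (e i).2 _ (e j).2 (hne i j hij)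
  obtain ⟨i, j, k, l, hij, hkl, hik, hil, hjk, hjl, z, z1, z2⟩ :=
    OPC.st_K5 OPC.st_RAD OPC.st_EXT (fun i => p (e i))
      (fun i j => Set.range ⇑(γ (e i) (e j))) (fun i j _ => joined_range _)
  exact planar_disj hp h (hadj i j hij.ne) (hadj k l hkl.ne) (hne i k hik) (hne i l hil)
    (hne j k hjk) (hne j l hjl) z1 z2

lemma planar_K33 {V : Type} {G : SimpleGraph V} (hG : IsPlanar G) (T : Finset V)
    (hT : T.card = 3) (x y w : V) (hxy : x ≠ y) (hxw : x ≠ w) (hyw : y ≠ w)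
    (hx : ∀ t ∈ T, G.Adj x t) (hy : ∀ t ∈ T, G.Adj y t) (hw : ∀ t ∈ T, G.Adj w t) : False := by
  obtain ⟨p, γ, hp, -, -, h⟩ := hG
  obtain ⟨e⟩ : Nonempty (Fin 3 ≃ T) := ⟨(Finset.equivFinOfCardEq hT).symm⟩
  have hne : ∀ i j : Fin 3, i ≠ j → (e i : V) ≠ e j := fun i j hij h' =>
    hij (e.injective (Subtype.ext h'))
  let a : Fin 3 → V := ![x, y, w]
  have ha : ∀ i j : Fin 3, i ≠ j → a i ≠ a j := by
    intro i j hij
    fin_cases i <;> fin_cases j <;>
      first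
        | exact absurd rfl hij
        | exact hxy
        | exact hxy.symm
        | exact hxw
        | exact hxw.symm
        | exact hyw
        | exact hyw.symm
  have hadj : ∀ (i j : Fin 3), G.Adj (a i) (e j) := by
    intro i j
    fin_cases i
    · exact hx _ (e j).2
    · exact hy _ (e j).2
    · exact hw _ (e j).2
  obtain ⟨i, i', j, j', hii, hjj, z, z1, z2⟩ :=
    OPC.st_K33 OPC.st_RAD OPC.st_EXT (fun i => p (a i)) (fun j => p (e j))
      (fun i j => Set.range ⇑(γ (a i) (e j))) (fun i j => joined_range _)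
  exact planar_disj hp h (hadj i j) (hadj i' j') (ha i i' hii) (hadj i j').ne
    (hadj i' j).ne' (hne j j' hjj) z1 z2

/-- combinatorial form -/
theorem chordal_rep {V : Type} [Fintype V] {G : SimpleGraph V} (hG : Chordal G)
    (h5 : ∀ T : Finset V, T.card = 5 → (∀ x ∈ T, ∀ y ∈ T, x ≠ y → G.Adj x y) → False)
    (h6 : ∀ T : Finset V, T.card = 3 → (∀ x ∈ T, ∀ y ∈ T, x ≠ y → G.Adj x y) →
      ∀ x y z : V, x ≠ y → x ≠ z → y ≠ z → (∀ t ∈ T, G.Adj x t) → (∀ t ∈ T, G.Adj y t) →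
      (∀ t ∈ T, G.Adj z t) → False) :
    ∃ (q : V → ℝ × ℝ) (O : Set (ℝ × ℝ)), Function.Injective q ∧ IsPreconnected O ∧
      (∀ v : V, q v ∉ O) ∧
      ∀ u v : V, u ≠ v → (G.Adj u v ↔ Disjoint (segment ℝ (q u) (q v)) O) := by
  classical
  obtain ⟨φ, -, h2, h3, -⟩ := embed hG h5 h6 _ [] ∅ Finset.univ (fun _ => Sum.inl 0) rfl
    (fun x hx => absurd hx (Finset.notMem_empty _)) (Finset.disjoint_empty_right _)
    (fun x hx => absurd hx (Finset.notMem_empty _)) (fun x hx => absurd hx (Finset.notMem_empty _))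
    (by simp) (by simp)
  obtain ⟨q, O, hO, hq1, hq2, hq3⟩ := net_rep (Finset.univ.image fun v : V => Sum.inr (φ v))
  have hm : ∀ v : V, (Sum.inr (φ v) : Vx) ∈ Finset.univ.image fun v : V => Sum.inr (φ v) :=
    fun v => Finset.mem_image_of_mem _ (Finset.mem_univ v)
  have hne : ∀ u v : V, u ≠ v → (Sum.inr (φ u) : Vx) ≠ Sum.inr (φ v) := fun u v huv e =>
    huv (h2 u (Finset.mem_univ _) v (Finset.mem_univ _) (Sum.inr_injective e))
  refine ⟨fun v => q (Sum.inr (φ v)), O, ?_, hO, fun v => hq2 _ (hm v), ?_⟩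
  · intro u v huv
    by_contra hn
    exact hq1 _ (hm u) _ (hm v) (hne u v hn) huv
  · intro u v huv
    rw [h3 u (Finset.mem_univ _) v (Finset.mem_univ _) huv]
    exact hq3 _ (hm u) _ (hm v) (hne u v huv)

/-- planar chordal graphs have obstacle number at most one -/
theorem planar_chordal {V : Type} [Fintype V] {G : SimpleGraph V} (hP : IsPlanar G)
    (hG : Chordal G) :
    ∃ (q : V → ℝ × ℝ) (O : Set (ℝ × ℝ)), Function.Injective q ∧ IsPreconnected O ∧
      (∀ v : V, q v ∉ O) ∧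
      ∀ u v : V, u ≠ v → (G.Adj u v ↔ Disjoint (segment ℝ (q u) (q v)) O) :=
  chordal_rep hG (fun T hT hc => planar_K5 hP T hT hc)
    (fun T hT _ x y z hxy hxz hyz hx hy hz => planar_K33 hP T hT x y z hxy hxz hyz hx hy hz)

end Pool.Agent.Helper12.Apo
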