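import Pool.Agent.Helper12.Apo.Fill

/-!
The spine of a face, and the filling theorem.
-/

set_option autoImplicit false

namespace Pool.Agent.Helper12.Apo

open Set

/-- the vertices of the spine -/
def yv (w : List (Fin 3)) (j : ℕ) : Vx := (cor (sw w j)).1

lemma yv_zero (w : List (Fin 3)) : yv w 0 = (cor w).1 := rfl

lemma yv_succ (w : List (Fin 3)) (j : ℕ) : yv w (j + 1) = Sum.inr (sw w j) := by
  unfold yv
  rw [sw_succ, cor_zero]

lemma yv_cons (w : List (Fin 3)) (j : ℕ) : yv (0 :: w) j = yv w (j + 1) := by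
  unfold yv
  rw [sw_cons]

lemma cor_one_sw (w : List (Fin 3)) (j : ℕ) :
    cor (1 :: sw w j) = ((cor w).2.1, yv w (j + 1), yv w j) := by
  rw [cor_one, yv_succ, cor_sw, yv]

lemma cor_two_sw (w : List (Fin 3)) (j : ℕ) :
    cor (2 :: sw w j) = ((cor w).2.2, yv w (j + 1), yv w j) := by
  rw [cor_two, yv_succ, cor_sw, yv]

/-- the result of inserting the first `m` vertices of the spine of `w` -/
structure SpineRes (V : Finset Vx) (p : Vx → ℝ × ℝ) (b : ℝ × ℝ) (C : Vx → Set (ℝ × ℝ))
    (w : List (Fin 3)) (m : ℕ) (V' : Finset Vx) (p' : Vx → ℝ × ℝ) (C' : Vx → Set (ℝ × ℝ)) :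
    Prop where
  good : Good Net V' p' b C'
  ext : Ext V p V' p'
  new : ∀ t ∈ V', t ∉ V → ∃ j < m, t = Sum.inr (sw w j)
  full : ∀ j < m, Sum.inr (sw w j) ∈ V'
  fh : Frame Net V p C V' p' C' (cor w).1 (cor w).2.1
  fA : Frame Net V p C V' p' C' (cor w).2.1 (cor w).1
  fB : Frame Net V p C V' p' C' (cor w).2.2 (cor w).1
  st : ∀ t ∈ V, t ≠ (cor w).1 → t ≠ (cor w).2.1 → t ≠ (cor w).2.2 → Still Net V C V' C' t
  PA : ∀ j < m, Pend Net V' p' C' (cor w).2.1 (yv w (j + 1)) (yv w j)
  PB : ∀ j < m, Pend Net V' p' C' (cor w).2.2 (yv w (j + 1)) (yv w j)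
  ord : ∀ j ≤ m, 0 < cr (p' (yv w j) - p' (cor w).2.1) (p' (yv w j) - p' (cor w).2.2)

theorem spine {b : ℝ × ℝ} : ∀ (m : ℕ) (w : List (Fin 3)) (V : Finset Vx) (p : Vx → ℝ × ℝ)
    (C : Vx → Set (ℝ × ℝ)), Good Net V p b C →
    Pend Net V p C (cor w).1 (cor w).2.1 (cor w).2.2 → Free w V →
    ∃ V' p' C', SpineRes V p b C w m V' p' C' := by
  have flip : ∀ x y z : ℝ × ℝ, cr (x - y) (x - z) = cr (y - x) (z - x) := by
    intro x y z
    simp only [cr, Prod.fst_sub, Prod.snd_sub]; ring
  intro m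
  induction m with
  | zero =>
    intro w V p C hG P _
    refine ⟨V, p, C, hG, Ext.refl' _ _, fun t ht htV => absurd ht htV,
      fun j hj => absurd hj (by omega), Frame.refl' _ _, Frame.refl' _ _, Frame.refl' _ _,
      fun t _ _ _ _ => Still.refl' _, fun j hj => absurd hj (by omega),
      fun j hj => absurd hj (by omega), ?_⟩
    intro j hj
    have : j = 0 := by omega
    subst this
    rw [yv_zero, flip]
    exact P.pos
  | succ m ih =>
    intro w V p C hG P hfree
    have hc := cor_adj w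
    obtain ⟨p1, C1, S⟩ := step hG hfree.notMem hc.2.2.ne hfree.adj P
    have c0 : cor (0 :: w) = (Sum.inr w, (cor w).2.1, (cor w).2.2) := cor_zero w
    have hne1 : ∀ t ∈ V, t ≠ Sum.inr w := fun t ht e => hfree.notMem (e ▸ ht)
    have hfree1 : Free (0 :: w) (insert (Sum.inr w) V) := by
      intro u hu hmem
      rcases Finset.mem_insert.mp hmem with h | h
      · have h' : u = w := Sum.inr_injective h
        subst h'
        have := hu.length_le
        rw [List.length_cons] at this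
        omega
      · exact hfree u ((List.suffix_cons 0 w).trans hu) h
    obtain ⟨V2, p2, C2, T⟩ := ih (0 :: w) (insert (Sum.inr w) V) p1 C1 S.good
      (by rw [c0]; exact S.pv) hfree1
    have T1 := T.fh
    have T2 := T.fA
    have T3 := T.fB
    have T4 := T.st
    have T5 := T.PA
    have T6 := T.PB
    have T7 := T.ord
    rw [c0] at T1 T2 T3
    simp only [c0] at T4 T5 T6 T7
    have mh := S.ext.sub P.mx
    have mA := S.ext.sub P.my
    have mB := S.ext.sub P.mz
    have sh : Still Net (insert (Sum.inr w) V) C1 V2 C2 (cor w).1 :=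
      T4 _ mh (hne1 _ P.mx) P.axy.ne P.axz.ne
    -- orders at `A` and `B`
    have oA : 0 < cr (p1 (cor w).2.1 - p1 (Sum.inr w)) (p1 (cor w).2.1 - p1 (cor w).1) := by
      rw [flip]; exact S.pA.pos
    have oB : 0 < cr (p1 (cor w).2.2 - p1 (Sum.inr w)) (p1 (cor w).2.2 - p1 (cor w).1) := by
      rw [flip]; exact S.pB.pos
    have ov : 0 < cr (p1 (Sum.inr w) - p1 (cor w).2.1) (p1 (Sum.inr w) - p1 (cor w).2.2) := by
      rw [flip]; exact S.pv.pos
    refine ⟨V2, p2, C2, T.good, S.ext.trans T.ext, ?_, ?_, ?_, ?_, ?_, ?_, ?_, ?_, ?_⟩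
    · intro t ht htV
      by_cases h1 : t ∈ insert (Sum.inr w) V
      · exact ⟨0, by omega, (Finset.mem_insert.mp h1).resolve_right htV⟩
      · obtain ⟨j, hj, e⟩ := T.new t ht h1
        exact ⟨j + 1, by omega, by rw [e, sw_cons]⟩
    · intro j hj
      rcases Nat.eq_zero_or_pos j with h0 | h0
      · subst h0
        exact T.ext.sub (Finset.mem_insert_self _ _)
      · obtain ⟨i, rfl⟩ : ∃ i, j = i + 1 := ⟨j - 1, by omega⟩
        rw [← sw_cons]
        exact T.full i (by omega)
    · exact S.fh.trans_still sh T.ext mh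
    · have T2' := T2.weaken (S.good.cone _ mA) T.ext mA mh S.pA.cy S.pA.cz (Or.inr oA)
      exact S.fA.trans (hG.cone _ P.my) S.ext T.ext P.my P.mx P.by' P.by' (Or.inl rfl) T2'
    · have T3' := T3.weaken (S.good.cone _ mB) T.ext mB mh S.pB.cy S.pB.cz (Or.inr oB)
      exact S.fB.trans (hG.cone _ P.mz) S.ext T.ext P.mz P.mx P.bz P.bz (Or.inl rfl) T3'
    · intro t ht h1 h2 h3
      exact (S.st t ht h1 h2 h3).trans (T4 t (S.ext.sub ht) (hne1 t ht) h2 h3)
    · intro j hj
      rcases Nat.eq_zero_or_pos j with h0 | h0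
      · subst h0
        rw [yv_zero, yv_succ, sw_zero]
        exact S.pA.frames S.good T.ext S.pA.cy (Or.inl rfl) T2 T1 (by rw [cr_self])
          (sh.frame (cor w).2.1) (by rw [cr_self])
      · obtain ⟨i, rfl⟩ : ∃ i, j = i + 1 := ⟨j - 1, by omega⟩
        rw [← yv_cons w (i + 1), ← yv_cons w i]
        exact T5 i (by omega)
    · intro j hj
      rcases Nat.eq_zero_or_pos j with h0 | h0
      · subst h0
        rw [yv_zero, yv_succ, sw_zero]
        exact S.pB.frames S.good T.ext S.pB.cy (Or.inl rfl) T3 T1 ov.le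
          (sh.frame (cor w).2.2) (by rw [cr_self])
      · obtain ⟨i, rfl⟩ : ∃ i, j = i + 1 := ⟨j - 1, by omega⟩
        rw [← yv_cons w (i + 1), ← yv_cons w i]
        exact T6 i (by omega)
    · intro j hj
      rcases Nat.eq_zero_or_pos j with h0 | h0
      · subst h0
        rw [yv_zero, T.ext.eq _ mh, T.ext.eq _ mA, T.ext.eq _ mB, S.ext.eq _ P.mx,
          S.ext.eq _ P.my, S.ext.eq _ P.mz, flip]
        exact P.pos
      · obtain ⟨i, rfl⟩ : ∃ i, j = i + 1 := ⟨j - 1, by omega⟩
        rw [← yv_cons]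
        exact T7 i (by omega)

theorem fill {b : ℝ × ℝ} (D : ℕ) : FillAt b D := by
  have flip : ∀ x y z : ℝ × ℝ, cr (x - y) (x - z) = cr (y - x) (z - x) := by
    intro x y z
    simp only [cr, Prod.fst_sub, Prod.snd_sub]; ring
  induction D using Nat.strong_induction_on with
  | _ D ih =>
  intro w V p C hG P hfree
  obtain ⟨V1, p1, C1, S⟩ := spine D w V p C hG P hfree
  have hc := cor_adj w
  -- the vertices of the spine are distinct
  have hinj : ∀ i ≤ D, ∀ j < i, yv w i ≠ yv w j := by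
    intro i hi j hj e
    obtain ⟨i', rfl⟩ : ∃ i', i = i' + 1 := ⟨i - 1, by omega⟩
    rw [yv_succ] at e
    rcases Nat.eq_zero_or_pos j with h0 | h0
    · subst h0
      rw [yv_zero] at e
      exact hfree _ (suffix_sw w i') (e ▸ P.mx)
    · obtain ⟨j', rfl⟩ : ∃ j', j = j' + 1 := ⟨j - 1, by omega⟩
      rw [yv_succ] at e
      have e2 := congrArg List.length (Sum.inr_injective e)
      rw [sw_length, sw_length] at e2
      omega
  have hm1 : ∀ j ≤ D, yv w j ∈ V1 := by
    intro j hj
    rcases Nat.eq_zero_or_pos j with h0 | h0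
    · subst h0
      rw [yv_zero]; exact S.ext.sub P.mx
    · obtain ⟨j', rfl⟩ : ∃ j', j = j' + 1 := ⟨j - 1, by omega⟩
      rw [yv_succ]
      exact S.full j' (by omega)
  have mh := S.ext.sub P.mx
  have mA := S.ext.sub P.my
  have mB := S.ext.sub P.mz
  -- the free faces
  have hfree1 : ∀ a : Fin 3, a ≠ 0 → ∀ j < D, Free (a :: sw w j) V1 := by
    intro a ha j hj u hu hmem
    by_cases hV : (Sum.inr u : Vx) ∈ V
    · exact hfree u ((suffix_sw w j).trans ((List.suffix_cons a _).trans hu)) hV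
    · obtain ⟨i, hi, e⟩ := S.new _ hmem hV
      have e' : u = sw w i := Sum.inr_injective e
      subst e'
      exact cons_not_suffix_sw ha j i hu
  -- the fan at `A`
  obtain ⟨V2, p2, C2, T⟩ := chain (b := b) (cor w).2.1 (yv w) (fun j => 1 :: sw w j)
    (fun j => D - 1 - j) D (fun j _ => cor_one_sw w j) (fun j hj => ih _ (by omega)) hinj
    (fun i _ j _ u' h1 h2 => (incomp (by decide) (by decide) h1 h2).2) V1 p1 C1 S.good S.PA
    (fun j hj => hfree1 1 (by decide) j hj)
  have hyA : ∀ j ≤ D, (cor w).2.2 ≠ yv w j := by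
    intro j hj e
    rcases Nat.eq_zero_or_pos j with h0 | h0
    · subst h0
      rw [yv_zero] at e
      exact P.axz.ne e.symm
    · obtain ⟨j', rfl⟩ : ∃ j', j = j' + 1 := ⟨j - 1, by omega⟩
      rw [yv_succ] at e
      exact hfree _ (suffix_sw w j') (e ▸ P.mz)
  have hyA' : ∀ j ≤ D, (cor w).2.1 ≠ yv w j := by
    intro j hj e
    rcases Nat.eq_zero_or_pos j with h0 | h0
    · subst h0
      rw [yv_zero] at e
      exact P.axy.ne e.symm
    · obtain ⟨j', rfl⟩ : ∃ j', j = j' + 1 := ⟨j - 1, by omega⟩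
      rw [yv_succ] at e
      exact hfree _ (suffix_sw w j') (e ▸ P.my)
  have sB : Still Net V1 C1 V2 C2 (cor w).2.2 := T.st _ mB hc.2.2.ne' hyA
  -- the pending faces at `B` survive
  have hPB : ∀ j < D, Pend Net V2 p2 C2 (cor w).2.2 (yv w (j + 1)) (yv w j) := by
    intro j hj
    have Pj := S.PB j hj
    exact Pj.frames S.good T.ext Pj.cy (Or.inl rfl) (sB.frame _)
      (T.fy (j + 1) (by omega) Pj.my) (S.ord (j + 1) (by omega)).le
      (T.fy j (by omega) Pj.mz) (S.ord j (by omega)).le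
  have hfree2 : ∀ j < D, Free (2 :: sw w j) V2 := by
    intro j hj u hu hmem
    by_cases hV : (Sum.inr u : Vx) ∈ V1
    · exact hfree1 2 (by decide) j hj u hu hV
    · obtain ⟨i, hi, u', e, h1⟩ := T.new _ hmem hV
      have e' : u = u' := Sum.inr_injective e
      subst e'
      exact absurd (incomp (by decide) (by decide) hu h1).1 (by decide)
  obtain ⟨V3, p3, C3, U⟩ := chain (b := b) (cor w).2.2 (yv w) (fun j => 2 :: sw w j)
    (fun j => D - 1 - j) D (fun j _ => cor_two_sw w j) (fun j hj => ih _ (by omega)) hinj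
    (fun i _ j _ u' h1 h2 => (incomp (by decide) (by decide) h1 h2).2) V2 p2 C2 T.good hPB
    hfree2
  have e12 := S.ext.trans T.ext
  have sA : Still Net V2 C2 V3 C3 (cor w).2.1 := U.st _ (T.ext.sub mA) hc.2.2.ne hyA'
  refine ⟨V3, p3, C3, U.good, e12.trans U.ext, ?_, ?_, ?_, ?_, ?_, ?_⟩
  · intro t ht htV
    by_cases h2 : t ∈ V2
    · by_cases h1 : t ∈ V1
      · obtain ⟨j, _, e⟩ := S.new t h1 htV
        exact ⟨_, e, suffix_sw w j⟩
      · obtain ⟨j, _, u', e, hu⟩ := T.new t h2 h1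
        exact ⟨u', e, (suffix_sw w j).trans ((List.suffix_cons _ _).trans hu)⟩
    · obtain ⟨j, _, u', e, hu⟩ := U.new t ht h2
      exact ⟨u', e, (suffix_sw w j).trans ((List.suffix_cons _ _).trans hu)⟩
  · intro l hl
    rcases word_cases l with ⟨j, rfl⟩ | ⟨l', a, j, ha, rfl⟩
    · rw [List.length_replicate] at hl
      exact U.ext.sub (T.ext.sub (S.full j hl))
    · have hl' : l'.length + 1 + j < D := by
        rw [List.length_append, List.length_cons, List.length_replicate] at hl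
        omega
      have e : l' ++ a :: List.replicate j 0 ++ w = l' ++ (a :: sw w j) := by
        rw [List.append_assoc]
        rfl
      rw [e]
      rcases fin3_cases a with h | h | h
      · exact absurd h ha
      · subst h
        exact U.ext.sub (T.full j (by omega) l' (by omega))
      · subst h
        exact U.full j (by omega) l' (by omega)
  · -- the host
    have f1 : Frame Net V1 p1 C1 V2 p2 C2 (cor w).1 (cor w).2.1 := T.fy 0 (by omega) mh
    have f2 : Frame Net V2 p2 C2 V3 p3 C3 (cor w).1 (cor w).2.2 :=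
      U.fy 0 (by omega) (T.ext.sub mh)
    have f01 := S.fh.trans (hG.cone _ P.mx) S.ext T.ext P.mx P.my P.cy P.cy (Or.inl rfl) f1
    exact f01.trans (hG.cone _ P.mx) e12 U.ext P.mx P.mz P.cy P.cz
      (Or.inr (by rw [flip]; exact P.pos)) f2
  · have f1 : Frame Net V1 p1 C1 V2 p2 C2 (cor w).2.1 (cor w).1 := T.fx
    have f01 := S.fA.trans (hG.cone _ P.my) S.ext T.ext P.my P.mx P.by' P.by' (Or.inl rfl) f1
    exact f01.trans_still sA U.ext (T.ext.sub mA)
  · have f2 : Frame Net V2 p2 C2 V3 p3 C3 (cor w).2.2 (cor w).1 := U.fx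
    have f01 := S.fB.trans_still sB T.ext mB
    exact f01.trans (hG.cone _ P.mz) e12 U.ext P.mz P.mx P.bz P.bz (Or.inl rfl) f2
  · intro t ht h1 h2 h3
    have hty : ∀ j ≤ D, t ≠ yv w j := by
      intro j hj e
      rcases Nat.eq_zero_or_pos j with h0 | h0
      · subst h0
        exact h1 e
      · obtain ⟨j', rfl⟩ : ∃ j', j = j' + 1 := ⟨j - 1, by omega⟩
        rw [yv_succ] at e
        exact hfree _ (suffix_sw w j') (e ▸ ht)
    exact ((S.st t ht h1 h2 h3).trans (T.st t (S.ext.sub ht) h2 hty)).trans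
      (U.st t (T.ext.sub (S.ext.sub ht)) h3 hty)

end Pool.Agent.Helper12.Apo
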