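import Pool.Agent.Helper12.Apo.Loc

/-!
States (finite partial drawings with live cones), pending faces, and frames.
-/

set_option autoImplicit false

namespace Pool.Agent.Helper12.Apo

open Set

variable {W : Type*}

/-- a good partial drawing: general position, a live cone at each vertex which is locally
contained in the outer region, and every non-edge meets the outer region -/
structure Good (G : SimpleGraph W) (V : Finset W) (p : W → ℝ × ℝ) (b : ℝ × ℝ)
    (C : W → Set (ℝ × ℝ)) : Prop where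
  inj : ∀ x ∈ V, ∀ y ∈ V, x ≠ y → p x ≠ p y
  gp : ∀ x ∈ V, ∀ y ∈ V, ∀ z ∈ V, x ≠ y → y ≠ z → x ≠ z → cr (p y - p x) (p z - p x) ≠ 0
  cone : ∀ x ∈ V, Cone (C x)
  sec : ∀ x ∈ V, ∃ ρ > 0, ∀ d ∈ C x, ‖d‖ < ρ → p x + d ∈ Out G V p b
  non : ∀ x ∈ V, ∀ y ∈ V, x ≠ y → ¬ G.Adj x y → ∃ z ∈ segment ℝ (p x) (p y), z ∈ Out G V p b

/-- the pair `y, z` is adjacent in the angular order at `x` -/
def Pair (G : SimpleGraph W) (V : Finset W) (p : W → ℝ × ℝ) (x y z : W) : Prop :=
  ∀ t ∈ V, G.Adj x t → t ≠ y → t ≠ z →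
    cr (p y - p x) (p t - p x) < 0 ∨ 0 < cr (p z - p x) (p t - p x)

/-- a pending face -/
structure Pend (G : SimpleGraph W) (V : Finset W) (p : W → ℝ × ℝ) (C : W → Set (ℝ × ℝ))
    (x y z : W) : Prop where
  mx : x ∈ V
  my : y ∈ V
  mz : z ∈ V
  axy : G.Adj x y
  axz : G.Adj x z
  pos : 0 < cr (p y - p x) (p z - p x)
  cy : p x - p y ∈ C x
  cz : p x - p z ∈ C x
  by' : p y - p x ∈ C y
  bz : p z - p x ∈ C z
  pair : Pair G V p x y z

/-- what happens at an old vertex `x` with threshold `τ` -/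
structure Frame (G : SimpleGraph W) (V : Finset W) (p : W → ℝ × ℝ) (C : W → Set (ℝ × ℝ))
    (V' : Finset W) (p' : W → ℝ × ℝ) (C' : W → Set (ℝ × ℝ)) (x τ : W) : Prop where
  sub : C' x ⊆ C x
  keep : ∀ d ∈ C x, 0 ≤ cr (p x - p τ) d → d ∈ C' x
  new : ∀ t ∈ V', t ∉ V → G.Adj x t →
    ∃ d, (d = p' t - p' x ∨ d = p' x - p' t) ∧ d ∈ C x ∧ 0 < cr d (p x - p τ)

/-- nothing happens at an old vertex -/
def Still (G : SimpleGraph W) (V : Finset W) (C : W → Set (ℝ × ℝ))
    (V' : Finset W) (C' : W → Set (ℝ × ℝ)) (x : W) : Prop :=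
  C' x = C x ∧ ∀ t ∈ V', t ∉ V → ¬ G.Adj x t

/-- extension of drawings -/
structure Ext (V : Finset W) (p : W → ℝ × ℝ) (V' : Finset W) (p' : W → ℝ × ℝ) : Prop where
  sub : V ⊆ V'
  eq : ∀ x ∈ V, p' x = p x

lemma Ext.trans {V V' V'' : Finset W} {p p' p'' : W → ℝ × ℝ} (h : Ext V p V' p')
    (h' : Ext V' p' V'' p'') : Ext V p V'' p'' :=
  ⟨h.sub.trans h'.sub, fun x hx => by rw [h'.eq x (h.sub hx), h.eq x hx]⟩

variable {G : SimpleGraph W} {V V' V'' : Finset W} {p p' p'' : W → ℝ × ℝ}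
  {C C' C'' : W → Set (ℝ × ℝ)}

lemma Still.trans {x : W} (h : Still G V C V' C' x) (h' : Still G V' C' V'' C'' x) :
    Still G V C V'' C'' x := by
  refine ⟨h'.1.trans h.1, fun t ht htV => ?_⟩
  by_cases h1 : t ∈ V'
  · exact h.2 t h1 htV
  · exact h'.2 t ht h1

lemma Frame.trans_still {x τ : W} (h : Frame G V p C V' p' C' x τ)
    (h' : Still G V' C' V'' C'' x) (e' : Ext V' p' V'' p'') (hx : x ∈ V') :
    Frame G V p C V'' p'' C'' x τ where
  sub := by rw [h'.1]; exact h.sub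
  keep d hd hd' := by rw [h'.1]; exact h.keep d hd hd'
  new t ht htV ha := by
    by_cases h1 : t ∈ V'
    · rw [e'.eq t h1, e'.eq x hx]
      exact h.new t h1 htV ha
    · exact absurd ha (h'.2 t ht h1)

lemma Frame.still_trans {x τ : W} (h : Still G V C V' C' x) (e : Ext V p V' p')
    (hx : x ∈ V) (hτ : τ ∈ V)
    (h' : Frame G V' p' C' V'' p'' C'' x τ) : Frame G V p C V'' p'' C'' x τ where
  sub := by rw [← h.1]; exact h'.sub
  keep d hd hd' := by
    apply h'.keep d (by rw [h.1]; exact hd)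
    rw [e.eq x hx, e.eq τ hτ]; exact hd'
  new t ht htV ha := by
    by_cases h1 : t ∈ V'
    · exact absurd ha (h.2 t h1 htV)
    · obtain ⟨d, hd, hd1, hd2⟩ := h'.new t ht h1 ha
      refine ⟨d, hd, by rw [← h.1]; exact hd1, ?_⟩
      rwa [e.eq x hx, e.eq τ hτ] at hd2

/-- composition of frames with increasing thresholds -/
lemma Frame.trans {x τ σ : W} (hC : Cone (C x)) (e : Ext V p V' p') (e' : Ext V' p' V'' p'')
    (hx : x ∈ V) (hσ : σ ∈ V) (cτ : p x - p τ ∈ C x) (cσ : p x - p σ ∈ C x)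
    (hlt : τ = σ ∨ 0 < cr (p x - p τ) (p x - p σ))
    (h : Frame G V p C V' p' C' x τ) (h' : Frame G V' p' C' V'' p'' C'' x σ) :
    Frame G V p C V'' p'' C'' x σ := by
  have key : ∀ d ∈ C x, 0 < cr d (p x - p τ) → 0 < cr d (p x - p σ) := by
    intro d hd h1
    rcases hlt with rfl | hlt
    · exact h1
    · exact hC.trans hd cτ cσ h1 hlt.le
  have key2 : ∀ d ∈ C x, 0 ≤ cr (p x - p σ) d → 0 ≤ cr (p x - p τ) d := by
    intro d hd h1
    rcases hlt with rfl | hlt
    · exact h1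
    · exact (hC.trans cτ cσ hd hlt h1).le
  refine ⟨h'.sub.trans h.sub, fun d hd h1 => ?_, fun t ht htV ha => ?_⟩
  · apply h'.keep d (h.keep d hd (key2 d hd h1))
    rw [e.eq x hx, e.eq σ hσ]; exact h1
  · by_cases h1 : t ∈ V'
    · obtain ⟨d, hd, hd1, hd2⟩ := h.new t h1 htV ha
      refine ⟨d, ?_, hd1, key d hd1 hd2⟩
      rwa [e'.eq t h1, e'.eq x (e.sub hx)]
    · obtain ⟨d, hd, hd1, hd2⟩ := h'.new t ht h1 ha
      refine ⟨d, hd, h.sub hd1, ?_⟩
      rwa [e.eq x hx, e.eq σ hσ] at hd2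

lemma Pair.still {x y z : W} (e : Ext V p V' p') (hx : x ∈ V) (hy : y ∈ V) (hz : z ∈ V)
    (h : Pair G V p x y z) (hs : Still G V C V' C' x) : Pair G V' p' x y z := by
  intro t ht ha h1 h2
  by_cases htV : t ∈ V
  · rw [e.eq x hx, e.eq y hy, e.eq z hz, e.eq t htV]
    exact h t htV ha h1 h2
  · exact absurd ha (hs.2 t ht htV)

lemma Pair.frame {x y z τ : W} (hC : Cone (C x)) (e : Ext V p V' p') (hx : x ∈ V)
    (hy : y ∈ V) (hz : z ∈ V) (cτ : p x - p τ ∈ C x) (cy : p x - p y ∈ C x)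
    (cz : p x - p z ∈ C x) (hlt : τ = y ∨ 0 < cr (p x - p τ) (p x - p y))
    (hyz : 0 < cr (p y - p x) (p z - p x))
    (h : Pair G V p x y z) (hf : Frame G V p C V' p' C' x τ) : Pair G V' p' x y z := by
  intro t ht ha h1 h2
  by_cases htV : t ∈ V
  · rw [e.eq x hx, e.eq y hy, e.eq z hz, e.eq t htV]
    exact h t htV ha h1 h2
  · obtain ⟨d, hd, hd1, hd2⟩ := hf.new t ht htV ha
    rw [e.eq x hx] at hd ⊢
    rw [e.eq y hy, e.eq z hz]
    have hdy : 0 < cr d (p x - p y) := by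
      rcases hlt with rfl | hlt
      · exact hd2
      · exact hC.trans hd1 cτ cy hd2 hlt.le
    rcases hd with rfl | rfl
    · right
      have hyz' : 0 < cr (p x - p y) (p x - p z) := by
        have : cr (p x - p y) (p x - p z) = cr (p y - p x) (p z - p x) := by
          simp only [cr, Prod.fst_sub, Prod.snd_sub]; ring
        rw [this]; exact hyz
      have := hC.trans hd1 cy cz hdy hyz'.le
      have e2 : cr (p z - p x) (p' t - p x) = cr (p' t - p x) (p x - p z) := by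
        simp only [cr, Prod.fst_sub, Prod.snd_sub]; ring
      rw [e2]; exact this
    · left
      have e2 : cr (p y - p x) (p' t - p x) = - cr (p x - p' t) (p x - p y) := by
        simp only [cr, Prod.fst_sub, Prod.snd_sub]; ring
      rw [e2]; linarith

end Pool.Agent.Helper12.Apo
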