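import Pool.Agent.Helper12.Apo.Insert

/-!
One insertion in terms of frames and pending faces.
-/

set_option autoImplicit false

namespace Pool.Agent.Helper12.Apo

open Set

variable {W : Type*} [DecidableEq W] {G : SimpleGraph W} {V : Finset W} {p : W → ℝ × ℝ}
  {b : ℝ × ℝ} {C : W → Set (ℝ × ℝ)}

/-- the result of an insertion -/
structure Res (G : SimpleGraph W) (V : Finset W) (p : W → ℝ × ℝ) (b : ℝ × ℝ)
    (C : W → Set (ℝ × ℝ)) (v h A B : W) (p' : W → ℝ × ℝ) (C' : W → Set (ℝ × ℝ)) : Prop where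
  good : Good G (insert v V) p' b C'
  ext : Ext V p (insert v V) p'
  fh : Frame G V p C (insert v V) p' C' h A
  fA : Frame G V p C (insert v V) p' C' A h
  fB : Frame G V p C (insert v V) p' C' B h
  st : ∀ x ∈ V, x ≠ h → x ≠ A → x ≠ B → Still G V C (insert v V) C' x
  pv : Pend G (insert v V) p' C' v A B
  pA : Pend G (insert v V) p' C' A v h
  pB : Pend G (insert v V) p' C' B v h

theorem step (hG : Good G V p b C) {v h A B : W} (hv : v ∉ V) (hAB : A ≠ B)
    (hadj : ∀ t ∈ V, G.Adj v t ↔ (t = h ∨ t = A ∨ t = B)) (P : Pend G V p C h A B) :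
    ∃ p' C', Res G V p b C v h A B p' C' := by
  obtain ⟨ρ, Z, q, e, R, he, heA, heB, hgood⟩ := insert_good hG hv hAB hadj P
  have hp : ∀ x ∈ V, Function.update p v q x = p x := fun x hx =>
    Function.update_of_ne (fun e' : x = v => hv (e' ▸ hx)) _ _
  have hpv : Function.update p v q v = q := Function.update_self _ _ _
  have hne : ∀ x ∈ V, x ≠ v := fun x hx e' => hv (e' ▸ hx)
  have hC := hG.cone h P.mx
  have hhA : h ≠ A := P.axy.ne
  have hhB : h ≠ B := P.axz.ne
  have hCv : newC C h v (q - p h) e v = Hp e := newC_v _ _ _ _ _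
  have hCh : newC C h v (q - p h) e h = C h ∩ Hp (q - p h) := newC_h _ _ _ (hne h P.mx)
  have hCA : newC C h v (q - p h) e A = C A := newC_o _ _ _ (hne A P.my) hhA.symm
  have hCB : newC C h v (q - p h) e B = C B := newC_o _ _ _ (hne B P.mz) hhB.symm
  have dA : 0 < cr (q - p h) (p h - p A) := by
    rw [cr_neg_sub]; linarith [R.hA]
  have dB : 0 < cr (q - p h) (p h - p B) := by
    rw [cr_neg_sub]; linarith [R.hB]
  have oA : 0 < cr (p A - q) (p A - p h) := by
    have : cr (p A - q) (p A - p h) = cr (q - p h) (p h - p A) := by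
      simp only [cr, Prod.fst_sub, Prod.snd_sub]; ring
    rw [this]; exact dA
  have oB : 0 < cr (p B - q) (p B - p h) := by
    have : cr (p B - q) (p B - p h) = cr (q - p h) (p h - p B) := by
      simp only [cr, Prod.fst_sub, Prod.snd_sub]; ring
    rw [this]; exact dB
  have flip : ∀ x y z : ℝ × ℝ, cr (x - y) (x - z) = cr (y - x) (z - x) := by
    intro x y z
    simp only [cr, Prod.fst_sub, Prod.snd_sub]; ring
  have isv : ∀ t, t ∈ insert v V → t ∉ V → t = v := fun t ht htV =>
    (Finset.mem_insert.mp ht).resolve_right htV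
  have avh : G.Adj v h := (hadj h P.mx).mpr (Or.inl rfl)
  have avA : G.Adj v A := (hadj A P.my).mpr (Or.inr (Or.inl rfl))
  have avB : G.Adj v B := (hadj B P.mz).mpr (Or.inr (Or.inr rfl))
  have mv : v ∈ insert v V := Finset.mem_insert_self _ _
  have mh : h ∈ insert v V := Finset.mem_insert_of_mem P.mx
  have mA : A ∈ insert v V := Finset.mem_insert_of_mem P.my
  have mB : B ∈ insert v V := Finset.mem_insert_of_mem P.mz
  refine ⟨Function.update p v q, newC C h v (q - p h) e, hgood, ⟨Finset.subset_insert _ _, hp⟩,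
    ?_, ?_, ?_, ?_, ?_, ?_, ?_⟩
  · -- frame at the host
    refine ⟨?_, ?_, ?_⟩
    · rw [hCh]; exact inter_subset_left
    · intro d hd h0
      rw [hCh]
      exact ⟨hd, hC.trans R.hD P.cy hd dA h0⟩
    · intro t ht htV _
      rw [isv t ht htV, hpv, hp h P.mx]
      exact ⟨q - p h, Or.inl rfl, R.hD, dA⟩
  · refine ⟨?_, ?_, ?_⟩
    · rw [hCA]
    · intro d hd _
      rw [hCA]; exact hd
    · intro t ht htV _
      rw [isv t ht htV, hpv, hp A P.my]
      exact ⟨p A - q, Or.inr rfl, R.lA, oA⟩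
  · refine ⟨?_, ?_, ?_⟩
    · rw [hCB]
    · intro d hd _
      rw [hCB]; exact hd
    · intro t ht htV _
      rw [isv t ht htV, hpv, hp B P.mz]
      exact ⟨p B - q, Or.inr rfl, R.lB, oB⟩
  · intro x hx h1 h2 h3
    refine ⟨newC_o _ _ _ (hne x hx) h1, fun t ht htV ha => ?_⟩
    rw [isv t ht htV] at ha
    rcases (hadj x hx).mp ha.symm with h4 | h4 | h4
    · exact h1 h4
    · exact h2 h4
    · exact h3 h4
  · -- pending face at the new vertex
    refine ⟨mv, mA, mB, avA, avB, ?_, ?_, ?_, ?_, ?_, ?_⟩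
    · rw [hpv, hp A P.my, hp B P.mz]; exact R.hAB
    · rw [hpv, hp A P.my, hCv]; exact heA
    · rw [hpv, hp B P.mz, hCv]; exact heB
    · rw [hpv, hp A P.my, hCA]; exact R.lA
    · rw [hpv, hp B P.mz, hCB]; exact R.lB
    · intro t ht ha h1 h2
      rw [Finset.mem_insert] at ht
      rcases ht with rfl | ht
      · exact absurd ha (G.loopless.irrefl _)
      · rcases (hadj t ht).mp ha with rfl | rfl | rfl
        · left
          rw [hpv, hp A P.my, hp t ht]; exact R.hAD
        · exact absurd rfl h1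
        · exact absurd rfl h2
  · refine ⟨mA, mv, mh, avA.symm, P.axy.symm, ?_, ?_, ?_, ?_, ?_, ?_⟩
    · rw [hpv, hp A P.my, hp h P.mx, ← flip]; exact oA
    · rw [hpv, hp A P.my, hCA]; exact R.lA
    · rw [hp A P.my, hp h P.mx, hCA]; exact P.by'
    · rw [hpv, hp A P.my, hCv]; exact heA
    · rw [hp A P.my, hp h P.mx, hCh]; exact ⟨P.cy, dA⟩
    · intro t ht ha h1 h2
      have ht := (Finset.mem_insert.mp ht).resolve_left h1
      rw [hpv, hp A P.my, hp h P.mx, hp t ht]
      have htA : A ≠ t := ha.ne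
      have hg := hG.gp A P.my h P.mx t ht hhA.symm (Ne.symm h2) htA
      rcases lt_or_gt_of_ne hg with h3 | h3
      · exact Or.inl ((R.ord A P.my t ht).2 h3)
      · exact Or.inr h3
  · refine ⟨mB, mv, mh, avB.symm, P.axz.symm, ?_, ?_, ?_, ?_, ?_, ?_⟩
    · rw [hpv, hp B P.mz, hp h P.mx, ← flip]; exact oB
    · rw [hpv, hp B P.mz, hCB]; exact R.lB
    · rw [hp B P.mz, hp h P.mx, hCB]; exact P.bz
    · rw [hpv, hp B P.mz, hCv]; exact heB
    · rw [hp B P.mz, hp h P.mx, hCh]; exact ⟨P.cz, dB⟩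
    · intro t ht ha h1 h2
      have ht := (Finset.mem_insert.mp ht).resolve_left h1
      rw [hpv, hp B P.mz, hp h P.mx, hp t ht]
      have htB : B ≠ t := ha.ne
      have hg := hG.gp B P.mz h P.mx t ht hhB.symm (Ne.symm h2) htB
      rcases lt_or_gt_of_ne hg with h3 | h3
      · exact Or.inl ((R.ord B P.mz t ht).2 h3)
      · exact Or.inr h3

end Pool.Agent.Helper12.Apo
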